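import Mathlib

/-!
# Inequalities between the parameters
-/

set_option autoImplicit false

namespace Pool.Agent.DenseTree

/-- The weight of the reduced graph is large. -/
lemma weight_bound {ε C m N M n Wt er d κ e2 : ℝ} (hε : 0 < ε) (hε1 : ε ≤ 1)
    (hm : 0 < m) (hM : 0 < M) (hn : 0 < n) (hMn : M * n ≤ N) (hNC : N ≤ C * m)
    (he : (1 + ε) * m * N ≤ e2) (hw : e2 - (5 * er + 4 * d) * N ^ 2 ≤ Wt * (n + 1) ^ 2)
    (her : 0 ≤ er) (hd : 0 ≤ d) (herC : 80 * C * er ≤ ε) (hdC : 64 * C * d ≤ ε) (hκ : 0 ≤ κ)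
    (hκC : 16 * C * κ ≤ ε) (hn1 : 32 ≤ ε * (n + 1)) :
    m * M * (1 + ε / 2) ≤ n * (Wt - 2 * κ * M ^ 2) := by
  have hN : 0 < N := lt_of_lt_of_le (by positivity) hMn
  -- the error terms
  have h1 : (5 * er + 4 * d) * N ^ 2 ≤ ε / 8 * (m * N) := by
    have e1 : (5 * er + 4 * d) * N ^ 2 = (5 * er + 4 * d) * N * N := by ring
    have e3 : (5 * er + 4 * d) * C ≤ ε / 8 := by linarith
    calc (5 * er + 4 * d) * N ^ 2 = (5 * er + 4 * d) * N * N := e1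
      _ ≤ (5 * er + 4 * d) * (C * m) * N := by gcongr
      _ = ((5 * er + 4 * d) * C) * (m * N) := by ring
      _ ≤ ε / 8 * (m * N) := by gcongr
  have h2 : (1 + 7 * ε / 8) * (m * (M * n)) ≤ Wt * (n + 1) ^ 2 := by
    have e4 : (1 + 7 * ε / 8) * (m * (M * n)) ≤ (1 + 7 * ε / 8) * (m * N) := by gcongr
    nlinarith
  have h3 : (1 - ε / 16) * (n + 1) ^ 2 ≤ n ^ 2 := by nlinarith
  -- divide by `(n+1)^2`
  have h4 : (1 + 7 * ε / 8) * (1 - ε / 16) * (m * M) ≤ n * Wt := by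
    have hpos : 0 < (n + 1) ^ 2 := by positivity
    have : (1 + 7 * ε / 8) * (1 - ε / 16) * (m * M) * (n + 1) ^ 2 ≤ n * Wt * (n + 1) ^ 2 := by
      calc (1 + 7 * ε / 8) * (1 - ε / 16) * (m * M) * (n + 1) ^ 2
          = (1 + 7 * ε / 8) * (m * M) * ((1 - ε / 16) * (n + 1) ^ 2) := by ring
        _ ≤ (1 + 7 * ε / 8) * (m * M) * n ^ 2 := by gcongr
        _ = n * ((1 + 7 * ε / 8) * (m * (M * n))) := by ring
        _ ≤ n * (Wt * (n + 1) ^ 2) := by gcongr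
        _ = n * Wt * (n + 1) ^ 2 := by ring
    exact le_of_mul_le_mul_right this hpos
  have h5 : n * (2 * κ * M ^ 2) ≤ ε / 8 * (m * M) := by
    calc n * (2 * κ * M ^ 2) = 2 * κ * M * (M * n) := by ring
      _ ≤ 2 * κ * M * (C * m) :=
          mul_le_mul_of_nonneg_left (hMn.trans hNC) (by positivity)
      _ = (16 * C * κ) / 8 * (m * M) := by ring
      _ ≤ ε / 8 * (m * M) := by gcongr
  have hmM : 0 < m * M := by positivity
  have h6 : (1 + ε / 2 + ε / 8) ≤ (1 + 7 * ε / 8) * (1 - ε / 16) := by nlinarith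
  have h7 : (1 + ε / 2 + ε / 8) * (m * M) ≤ (1 + 7 * ε / 8) * (1 - ε / 16) * (m * M) := by gcongr
  nlinarith

lemma ar_seeds {d ρ n er Rn w : ℝ} (hd : 0 < d) (hρ : 0 < ρ) (hn : 0 < n) (he : er ≤ d / 10)
    (he2 : er * n ≤ d * ρ / 32 * n) (hern : er * (n + 1) ≤ 2 * (er * n))
    (hR : 9 / 10 * (ρ * n) ≤ Rn) (hw : w ≤ d * ρ * n / 16) :
    d * ρ * n / 4 + w + er * (n + 1) ≤ (d - er) * Rn := by
  have h1 : 9 / 10 * d ≤ d - er := by linarith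
  have h2 : (9 / 10 * d) * (9 / 10 * (ρ * n)) ≤ (d - er) * Rn := by
    gcongr
    linarith
  have h3 : 0 < d * ρ * n := by positivity
  nlinarith

lemma ar_Rn {d ρ n er Rn : ℝ} (hd : d ≤ 1 / 64) (hρ : 0 < ρ) (hn : 0 < n)
    (he2 : er * n ≤ d * ρ / 32 * n) (hern : er * (n + 1) ≤ 2 * (er * n))
    (hR : 9 / 10 * (ρ * n) ≤ Rn) : er * (n + 1) ≤ Rn := by
  have h3 : 0 < ρ * n := by positivity
  have h4 : d * ρ / 32 * n ≤ 1 / 64 * (ρ * n) / 32 := by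
    calc d * ρ / 32 * n = d * (ρ * n) / 32 := by ring
      _ ≤ _ := by gcongr
  linarith

lemma ar_bad {M er n σ κ d ρ deg : ℝ} (hM : 0 < M) (hn : 0 < n) (hσ : 0 < σ)
    (hσ1 : σ ≤ 1) (hd : 0 < d) (hρ : 0 < ρ) (her : 0 < er)
    (he : er * n ≤ σ * κ * d * ρ / 16 * n) (hern : er * (n + 1) ≤ 2 * (er * n))
    (hdeg : κ * M ≤ deg) :
    M * (er * (n + 1)) * (1 + σ) ≤ σ * deg * (d * ρ * n / 4) := by
  have h2 : σ * (κ * M) * (d * ρ * n / 4) ≤ σ * deg * (d * ρ * n / 4) := by gcongr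
  refine le_trans ?_ h2
  have h3 : M * (er * (n + 1)) * (1 + σ) ≤ M * (2 * (er * n)) * 2 := by
    have : 1 + σ ≤ 2 := by linarith
    gcongr
  have h4 : M * (2 * (er * n)) * 2 ≤ M * (2 * (σ * κ * d * ρ / 16 * n)) * 2 := by gcongr
  calc M * (er * (n + 1)) * (1 + σ) ≤ M * (2 * (σ * κ * d * ρ / 16 * n)) * 2 := h3.trans h4
    _ = σ * (κ * M) * (d * ρ * n / 4) := by ring

lemma ar_gap {ε ρ ξ n Rn : ℝ} (hρ : ρ = ε / 20) (hξε : ξ ≤ ε / 20) (hn : 0 < n)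
    (hRn : Rn ≤ ρ * n) : ε / 10 * n ≤ n - Rn - ξ * n - (1 - ε / 5) * n := by
  have h1 : ρ * n = ε / 20 * n := by rw [hρ]
  have h2 : ξ * n ≤ ε / 20 * n := by gcongr
  linarith

lemma ar_h2 {ε ξ n d K er g : ℝ} (hd : 0 < d) (hξ : ξ = d * ε / 40) (hξ0 : 0 < ξ) (hn : 0 < n)
    (hK : K ≤ ξ * n) (hern : er * (n + 1) ≤ 2 * (er * n)) (he : er * n ≤ ξ / 8 * n)
    (hg : ε / 10 * n ≤ g) : ξ * n + K + er * (n + 1) ≤ d * g := by
  have h1 : d * (ε / 10 * n) ≤ d * g := by gcongr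
  have h2 : d * (ε / 10 * n) = 4 * (ξ * n) := by rw [hξ]; ring
  have h3 : 0 < ξ * n := by positivity
  linarith

lemma ar_h3 {ε ξ n K g : ℝ} (hξε : ξ ≤ ε / 20) (hn : 0 < n) (hK : K ≤ ξ * n)
    (hg : ε / 10 * n ≤ g) : 2 * K ≤ g := by
  have : ξ * n ≤ ε / 20 * n := by gcongr
  linarith

lemma ar_hK {ξ n K er : ℝ} (hn : 0 < n) (hξ : 0 < ξ) (hK : ξ * n / 2 ≤ K)
    (hern : er * (n + 1) ≤ 2 * (er * n)) (he : er * n ≤ ξ / 8 * n) :
    2 * (er * (n + 1)) ≤ K := by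
  have : 0 < ξ * n := by positivity
  linarith

lemma ar_hL {d ξ n M m η K er L : ℝ} (hd : 0 < d) (hξ : 0 < ξ) (hn : 0 < n) (hM : 0 < M)
    (hm : m ≤ 2 * M * n) (hm0 : 0 < m) (hη0 : 0 < η) (hη : η ≤ d * ξ / (16 * M)) (hL : L ≤ η * m)
    (hK : ξ * n / 2 ≤ K)
    (he : er ≤ d / 10) (hern : er * (n + 1) ≤ 2 * (er * n)) (he2 : er * n ≤ d * ξ / 32 * n) :
    L ≤ (d - er) * K - 2 * (er * (n + 1)) := by
  have h1 : L ≤ d * ξ * n / 8 := by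
    calc L ≤ η * m := hL
      _ ≤ (d * ξ / (16 * M)) * (2 * M * n) := by gcongr
      _ = d * ξ * n / 8 := by field_simp; ring
  have h2 : (9 / 10 * d) * (ξ * n / 2) ≤ (d - er) * K := by
    have : 9 / 10 * d ≤ d - er := by linarith
    gcongr
    linarith
  have h3 : 0 < d * ξ * n := by positivity
  linarith

lemma ar_div {ε σ n : ℝ} (hε : 0 < ε) (hε1 : ε ≤ 1) (hσ : σ = ε / 16) (hn : 0 < n) :
    (1 + σ) * (n / (1 + ε / 2)) ≤ (1 - ε / 5) * n := by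
  rw [← mul_div_assoc, div_le_iff₀ (by positivity), hσ]
  have h : (1 + ε / 16) ≤ (1 - ε / 5) * (1 + ε / 2) := by nlinarith
  calc (1 + ε / 16) * n ≤ ((1 - ε / 5) * (1 + ε / 2)) * n := by gcongr
    _ = (1 - ε / 5) * n * (1 + ε / 2) := by ring

end Pool.Agent.DenseTree
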