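import Mathlib

/-!
# The seeds of a rooted tree

A rooted tree on the natural numbers below `m` is given by its parent function `p`, the root is
`0`.
-/

set_option autoImplicit false

namespace Pool.Agent.DenseTree

open Finset

namespace Decomp

/-- The nearest ancestor in `W`. -/
def an (p : ℕ → ℕ) (W : Finset ℕ) (i : ℕ) : ℕ :=
  if _h : i ∉ W ∧ p i < i then an p W (p i) else i
termination_by i

/-- The top vertex of the component outside `W`. -/
def rt (p : ℕ → ℕ) (W : Finset ℕ) (i : ℕ) : ℕ :=
  if _h : p i ∉ W ∧ p i < i then rt p W (p i) else i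
termination_by i

/-- The parity of the depth. -/
def pr (p : ℕ → ℕ) (i : ℕ) : Bool :=
  if _h : i ≠ 0 ∧ p i < i then !pr p (p i) else false
termination_by i

section
variable {p : ℕ → ℕ} {W : Finset ℕ}

lemma an_of_mem {i : ℕ} (h : i ∈ W) : an p W i = i := by
  rw [an]; simp [h]

lemma an_of_notMem (hp : ∀ i, 0 < i → p i < i) (h0 : 0 ∈ W) {i : ℕ} (h : i ∉ W) :
    an p W i = an p W (p i) := by
  have hi : 0 < i := Nat.pos_of_ne_zero (fun h' => h (h' ▸ h0))
  rw [an]
  simp [h, hp i hi]

lemma rt_of_mem {i : ℕ} (h : p i ∈ W) : rt p W i = i := by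
  rw [rt]; simp [h]

lemma rt_of_notMem (hp : ∀ i, 0 < i → p i < i) {i : ℕ} (hi : 0 < i) (h : p i ∉ W) :
    rt p W i = rt p W (p i) := by
  rw [rt]
  simp [h, hp i hi]

lemma rt_le (hp : ∀ i, 0 < i → p i < i) (i : ℕ) : rt p W i ≤ i := by
  induction i using Nat.strong_induction_on with
  | _ i ih =>
    rw [rt]
    split_ifs with h
    · exact (ih _ h.2).trans h.2.le
    · exact le_refl _

lemma pr_of_pos (hp : ∀ i, 0 < i → p i < i) {i : ℕ} (hi : 0 < i) : pr p i = !pr p (p i) := by
  rw [pr]
  simp [hp i hi, hi.ne']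

lemma an_mem (hp : ∀ i, 0 < i → p i < i) (h0 : 0 ∈ W) (i : ℕ) : an p W i ∈ W := by
  induction i using Nat.strong_induction_on with
  | _ i ih =>
    by_cases h : i ∈ W
    · rw [an_of_mem h]; exact h
    · rw [an_of_notMem hp h0 h]
      exact ih _ (hp i (Nat.pos_of_ne_zero (fun h' => h (h' ▸ h0))))

lemma rt_congr (hp : ∀ i, 0 < i → p i < i) {W' : Finset ℕ} {m : ℕ}
    (h : ∀ i < m, i ∈ W ↔ i ∈ W') {i : ℕ} (hi : i < m) : rt p W i = rt p W' i := by
  induction i using Nat.strong_induction_on with
  | _ i ih =>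
    rcases Nat.eq_zero_or_pos i with h0 | h0
    · subst h0
      have h1 := rt_le (W := W) hp 0
      have h2 := rt_le (W := W') hp 0
      omega
    · have h1 := hp i h0
      have h2 := h (p i) (by omega)
      by_cases h3 : p i ∈ W
      · rw [rt_of_mem h3, rt_of_mem (h2.1 h3)]
      · rw [rt_of_notMem hp h0 h3, rt_of_notMem hp h0 (fun h4 => h3 (h2.2 h4))]
        exact ih _ h1 (by omega)

/-- The weighted form of the decomposition. -/
lemma weighted (hp : ∀ i, 0 < i → p i < i) (L : ℕ) (hL : 0 < L) (m : ℕ) :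
    ∀ w : ℕ → ℕ, ∃ W : Finset ℕ, 0 ∈ W ∧ (∀ i ∈ W, i ≠ 0 → i < m) ∧
      L * (#W - 1) ≤ ∑ i ∈ range m, w i ∧
      ∀ c, ∑ i ∈ range m with i ∉ W ∧ rt p W i = c, w i ≤ L := by
  induction m with
  | zero =>
    intro w
    exact ⟨{0}, by simp, by simp, by simp, by simp⟩
  | succ m ih =>
    intro w
    rcases Nat.eq_zero_or_pos m with hm | hm
    · subst hm
      refine ⟨{0}, by simp, by simp, by simp, ?_⟩
      intro c
      rw [sum_eq_zero]
      · omega
      · intro i hi
        simp only [mem_filter, mem_range, mem_singleton] at hi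
        omega
    have hpm := hp m hm
    by_cases hwm : L ≤ w m
    · obtain ⟨W, h0, hlt, hcard, hsum⟩ := ih w
      have hmW : m ∉ W := fun h => by
        have := hlt m h hm.ne'
        omega
      refine ⟨insert m W, mem_insert_of_mem h0, ?_, ?_, ?_⟩
      · intro i hi hi0
        rcases mem_insert.1 hi with h | h
        · omega
        · have := hlt i h hi0
          omega
      · rw [card_insert_of_notMem hmW, sum_range_succ]
        have h1 : 1 ≤ #W := card_pos.2 ⟨0, h0⟩
        have h2 : #W + 1 - 1 = (#W - 1) + 1 := by omega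
        rw [h2, mul_add, mul_one]
        omega
      · intro c
        refine le_trans (le_of_eq ?_) (hsum c)
        apply sum_congr _ (fun _ _ => rfl)
        ext i
        have hcg : ∀ j < m, rt p W j = rt p (insert m W) j := fun j hj =>
          rt_congr hp (m := m) (fun k hk => ⟨fun h => mem_insert_of_mem h,
            fun h => (mem_insert.1 h).resolve_left (by omega)⟩) hj
        simp only [mem_filter, mem_range, mem_insert, not_or]
        constructor
        · rintro ⟨h1, ⟨h2, h3⟩, h4⟩
          have h5 : i < m := by omega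
          exact ⟨h5, h3, (hcg i h5).trans h4⟩
        · rintro ⟨h1, h3, h4⟩
          exact ⟨by omega, ⟨by omega, h3⟩, (hcg i h1).symm.trans h4⟩
    · push Not at hwm
      obtain ⟨W, h0, hlt, hcard, hsum⟩ := ih (fun i => w i + if i = p m then w m else 0)
      have hmW : m ∉ W := fun h => by
        have := hlt m h hm.ne'
        omega
      refine ⟨W, h0, ?_, ?_, ?_⟩
      · intro i hi hi0
        have := hlt i hi hi0
        omega
      · rw [sum_add_distrib, sum_ite_eq' (range m) (p m) (fun _ => w m),
          if_pos (mem_range.2 hpm)] at hcard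
        rw [sum_range_succ]
        exact hcard
      · intro c
        have hc := hsum c
        rw [sum_filter, sum_range_succ, ← sum_filter]
        rw [sum_add_distrib] at hc
        by_cases hpW : p m ∈ W
        · have hr : rt p W m = m := rt_of_mem hpW
          by_cases hcm : c = m
          · have h1 : ∑ i ∈ range m with i ∉ W ∧ rt p W i = c, w i = 0 := by
              apply sum_eq_zero
              intro i hi
              simp only [mem_filter, mem_range] at hi
              have := rt_le (W := W) hp i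
              omega
            rw [h1]
            split_ifs <;> omega
          · rw [if_neg (fun h => hcm (by rw [← h.2, hr]))]
            omega
        · have hr : rt p W m = rt p W (p m) := rt_of_notMem hp hm hpW
          rw [sum_ite_eq' (filter (fun i => i ∉ W ∧ rt p W i = c) (range m)) (p m)
            (fun _ => w m)] at hc
          by_cases hcc : rt p W (p m) = c
          · rw [if_pos (mem_filter.2 ⟨mem_range.2 hpm, hpW, hcc⟩)] at hc
            rw [if_pos ⟨hmW, hr.trans hcc⟩]
            exact hc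
          · rw [if_neg (fun h => hcc (hr.symm.trans h.2))]
            omega

end

end Decomp

open Decomp in
theorem tree_decomp (m L : ℕ) (hL : 0 < L) (p : ℕ → ℕ) (hp : ∀ i, 0 < i → p i < i) :
    ∃ (W : Finset ℕ) (anc root : ℕ → ℕ) (par : ℕ → Bool),
      0 ∈ W ∧ #W ≤ 2 * (m / L + 1) ∧
      (∀ i, 0 < i → par i ≠ par (p i)) ∧
      (∀ i, anc i ∈ W) ∧ (∀ i ∈ W, anc i = i) ∧ (∀ i, i ∉ W → anc i = anc (p i)) ∧
      (∀ i, i ∉ W → p i ∈ W → root i = i) ∧ (∀ i, i ∉ W → p i ∉ W → root i = root (p i)) ∧
      (∀ i ∈ W, i ≠ 0 → p i ∈ W ∨ par i = par (anc (p i))) ∧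
      (∀ c, #{i ∈ range m | i ∉ W ∧ root i = c} ≤ L) := by
  obtain ⟨W₀, h0, hlt, hcard, hsum⟩ := weighted hp L hL m (fun _ => 1)
  set A : Finset ℕ := (W₀.filter (fun w => w ≠ 0 ∧ pr p w ≠ pr p (an p W₀ (p w)))).image p
    with hA
  set W : Finset ℕ := W₀ ∪ A with hW
  have h0W : 0 ∈ W := mem_union_left _ h0
  have hsub : W₀ ⊆ W := subset_union_left
  -- the added vertices
  have hadd : ∀ u ∈ A, pr p u = pr p (an p W₀ u) := by
    intro u hu
    obtain ⟨w, hw, rfl⟩ := mem_image.1 hu
    obtain ⟨_, hw0, hne⟩ := mem_filter.1 hw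
    rw [pr_of_pos hp (Nat.pos_of_ne_zero hw0)] at hne
    revert hne
    cases pr p (p w) <;> cases pr p (an p W₀ (p w)) <;> simp
  have hkey : ∀ v, pr p (an p W v) = pr p (an p W₀ v) := by
    intro v
    induction v using Nat.strong_induction_on with
    | _ v ih =>
      by_cases h1 : v ∈ W
      · rw [an_of_mem h1]
        by_cases h2 : v ∈ W₀
        · rw [an_of_mem h2]
        · exact hadd v ((mem_union.1 h1).resolve_left h2)
      · have h2 : v ∉ W₀ := fun h => h1 (hsub h)
        have hv : 0 < v := Nat.pos_of_ne_zero (fun h' => h1 (h' ▸ h0W))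
        rw [an_of_notMem hp h0W h1, an_of_notMem hp h0 h2]
        exact ih _ (hp v hv)
  have hroot : ∀ i, i ∉ W → rt p W₀ i = rt p W₀ (rt p W i) := by
    intro i
    induction i using Nat.strong_induction_on with
    | _ i ih =>
      intro hi
      have hi0 : 0 < i := Nat.pos_of_ne_zero (fun h' => hi (h' ▸ h0W))
      by_cases h1 : p i ∈ W
      · rw [rt_of_mem h1]
      · rw [rt_of_notMem hp hi0 h1, rt_of_notMem hp hi0 (fun h => h1 (hsub h))]
        exact ih _ (hp i hi0) h1
  refine ⟨W, an p W, rt p W, pr p, h0W, ?_, ?_, an_mem hp h0W, fun i hi => an_of_mem hi,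
    fun i hi => an_of_notMem hp h0W hi, fun i _ hpi => rt_of_mem hpi, ?_, ?_, ?_⟩
  · have h1 : #W ≤ #W₀ + #A := card_union_le _ _
    have h2 : #A ≤ #W₀ := card_image_le.trans (card_filter_le _ _)
    have h3 : #W₀ - 1 ≤ m / L := by
      rw [Nat.le_div_iff_mul_le hL, mul_comm]
      simpa using hcard
    omega
  · intro i hi
    rw [pr_of_pos hp hi]
    cases pr p (p i) <;> simp
  · intro i hi hpi
    exact rt_of_notMem hp (Nat.pos_of_ne_zero (fun h' => hi (h' ▸ h0W))) hpi
  · intro i hi hi0
    by_cases h1 : i ∈ W₀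
    · by_cases h2 : pr p i = pr p (an p W₀ (p i))
      · right
        rw [h2, hkey]
      · left
        exact mem_union_right _ (mem_image.2 ⟨i, mem_filter.2 ⟨h1, hi0, h2⟩, rfl⟩)
    · right
      rw [hadd i ((mem_union.1 hi).resolve_left h1), an_of_notMem hp h0 h1, hkey]
  · intro c
    have hc := hsum (rt p W₀ c)
    rw [← card_eq_sum_ones] at hc
    refine (card_le_card ?_).trans hc
    intro i hi
    simp only [mem_filter, mem_range] at hi ⊢
    refine ⟨hi.1, fun h => hi.2.1 (hsub h), ?_⟩
    rw [hroot i hi.2.1, hi.2.2]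

end Pool.Agent.DenseTree
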