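import Mathlib

/-!
# Multicolour Ramsey numbers

Definitions for the multicolour Ramsey number of a graph.
-/

set_option autoImplicit false

namespace Pool.Agent.DenseTree

/-- Every colouring of the edges of the complete graph on `r` vertices with `k` colours contains a
monochromatic (not necessarily induced) subgraph isomorphic to `H`. (Loops `s(v, v)` also receive a
colour, which is irrelevant.) -/
def Arrows (r k : ℕ) {X : Type} (H : SimpleGraph X) : Prop :=
  ∀ c : Sym2 (Fin r) → Fin k, ∃ (i : Fin k) (f : X → Fin r), Function.Injective f ∧
    ∀ x y, H.Adj x y → c s(f x, f y) = i

/-- The `k`-colour Ramsey number `r(H; k)`: the least `r` such that every colouring of the edges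
of `K_r` with `k` colours contains a monochromatic copy of `H`. -/
noncomputable def ramseyNumber {X : Type} (H : SimpleGraph X) (k : ℕ) : ℕ :=
  sInf {r | Arrows r k H}

end Pool.Agent.DenseTree
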