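import Pool.Agent.DenseTree_dd15.Sys

/-!
# Regular cluster systems exist (package A)
-/

set_option autoImplicit false

namespace Pool.Agent.DenseTree

open Finset

section

variable {V : Type} [Fintype V] [DecidableEq V]

private lemma es_inter (G : SimpleGraph V) [DecidableRel G.Adj] (B S : Finset V) :
    #(G.interedges B S) = ∑ v ∈ B, #{u ∈ S | G.Adj v u} := by
  classical
  have h : G.interedges B S = (B.sigma (fun v => {u ∈ S | G.Adj v u})).map
      (Equiv.sigmaEquivProd V V).toEmbedding := by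
    ext ⟨a, b⟩
    simp [SimpleGraph.mem_interedges_iff]
  rw [h, card_map, card_sigma]

omit [Fintype V] [DecidableEq V] in
private lemma es_dens (G : SimpleGraph V) [DecidableRel G.Adj] (B S : Finset V) :
    ((G.edgeDensity B S : ℚ) : ℝ) * (#B * #S) = #(G.interedges B S) := by
  rcases Nat.eq_zero_or_pos #B with hB | hB
  · rw [card_eq_zero] at hB
    subst hB
    simp [SimpleGraph.interedges, Rel.interedges]
  rcases Nat.eq_zero_or_pos #S with hS | hS
  · rw [card_eq_zero] at hS
    subst hS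
    simp [SimpleGraph.interedges, Rel.interedges]
  rw [SimpleGraph.edgeDensity_def]
  have h1 : (0 : ℝ) < #B := by exact_mod_cast hB
  have h2 : (0 : ℝ) < #S := by exact_mod_cast hS
  push_cast
  field_simp

private lemma es_reg (G : SimpleGraph V) [DecidableRel G.Adj] {er : ℝ} (her : 0 < er) {n : ℕ}
    {U W : Finset V} (hU : #U ≤ n + 1) (hW : #W ≤ n + 1) (hu : G.IsUniform er U W)
    {S : Finset V} (hS : S ⊆ W) (hSc : er * ((n : ℝ) + 1) ≤ #S) :
    (#{v ∈ U | (#{u ∈ S | G.Adj v u} : ℝ) < ((G.edgeDensity U W : ℚ) - er) * #S} : ℝ) ≤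
      er * ((n : ℝ) + 1) := by
  set B : Finset V := {v ∈ U | (#{u ∈ S | G.Adj v u} : ℝ) < ((G.edgeDensity U W : ℚ) - er) * #S}
    with hB
  by_contra hcon
  push Not at hcon
  have hU' : (#U : ℝ) ≤ n + 1 := by exact_mod_cast hU
  have hW' : (#W : ℝ) ≤ n + 1 := by exact_mod_cast hW
  have hn : (0 : ℝ) < (n : ℝ) + 1 := by positivity
  have h1 := hu (s' := B) (filter_subset _ _) (t' := S) hS (by nlinarith) (by nlinarith)
  have hBpos : (0 : ℝ) < #B := lt_trans (by positivity) hcon
  have hSpos : (0 : ℝ) < #S := lt_of_lt_of_le (by positivity) hSc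
  have h2 : (#(G.interedges B S) : ℝ) < #B * (((G.edgeDensity U W : ℚ) - er) * #S) := by
    rw [es_inter]
    push_cast
    rw [← nsmul_eq_mul, ← sum_const]
    refine sum_lt_sum_of_nonempty ?_ ?_
    · rw [← card_pos]; exact_mod_cast hBpos
    · intro v hv
      exact (mem_filter.1 hv).2
  rw [← es_dens] at h2
  have h3 := (abs_lt.1 h1).1
  have h4 : 0 < (#B : ℝ) * #S := mul_pos hBpos hSpos
  have h5 : (((G.edgeDensity U W : ℚ) : ℝ) - er) * (#B * #S) <
      ((G.edgeDensity B S : ℚ) : ℝ) * (#B * #S) := by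
    apply mul_lt_mul_of_pos_right _ h4
    linarith
  nlinarith

end

/-- Package A: regular cluster systems exist in all large graphs. -/
theorem exists_sys (er d₀ : ℝ) (her : 0 < er) (hd₀ : 0 < d₀) :
    ∃ Mmax : ℕ, ∀ (V : Type) [Fintype V] [DecidableEq V] (G : SimpleGraph V)
      [DecidableRel G.Adj], Mmax ≤ Fintype.card V →
      ∃ (M n : ℕ) (S : Sys G M n er d₀), 0 < M ∧ M ≤ Mmax ∧ n = Fintype.card V / M ∧
        2 * (#G.edgeFinset : ℝ) - (5 * er + 4 * d₀) * (Fintype.card V : ℝ) ^ 2 ≤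
          (∑ i, ∑ j, S.w i j) * ((n : ℝ) + 1) ^ 2 := by
  classical
  set l : ℕ := ⌈4 / er⌉₊ with hl
  refine ⟨SzemerediRegularity.bound er l, ?_⟩
  intro V _ _ G _ hV
  have hVpos : 0 < Fintype.card V := lt_of_lt_of_le (SzemerediRegularity.bound_pos _ _) hV
  have hne : (univ : Finset V).Nonempty := by
    rw [univ_nonempty_iff]
    exact Fintype.card_pos_iff.1 hVpos
  obtain ⟨P, hP, hPl, hPb, hPu⟩ := szemeredi_regularity G her
    (le_trans (SzemerediRegularity.le_bound er l) hV)
  have hMpos : 0 < #P.parts := (P.parts_nonempty hne.ne_empty).card_pos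
  let e : Fin #P.parts ≃ P.parts := P.parts.equivFin.symm
  let cl : Fin #P.parts → Finset V := fun i => (e i : Finset V)
  have hcl : ∀ i, cl i ∈ P.parts := fun i => (e i).2
  have hinj : ∀ i j, cl i = cl j → i = j := fun i j h => e.injective (Subtype.ext h)
  have hsurj : ∀ U ∈ P.parts, ∃ i, cl i = U := by
    intro U hU
    exact ⟨e.symm ⟨U, hU⟩, by simp [cl]⟩
  set n : ℕ := Fintype.card V / #P.parts with hn
  let good : Fin #P.parts → Fin #P.parts → Prop := fun i j =>
    i ≠ j ∧ G.IsUniform er (cl i) (cl j) ∧ d₀ ≤ ((G.edgeDensity (cl i) (cl j) : ℚ) : ℝ)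
  let w : Fin #P.parts → Fin #P.parts → ℝ := fun i j =>
    if good i j then ((G.edgeDensity (cl i) (cl j) : ℚ) : ℝ) else 0
  have hw : ∀ i j, w i j = if good i j then ((G.edgeDensity (cl i) (cl j) : ℚ) : ℝ) else 0 :=
    fun i j => rfl
  have hgood : ∀ i j, good i j ↔ (i ≠ j ∧ G.IsUniform er (cl i) (cl j) ∧
    d₀ ≤ ((G.edgeDensity (cl i) (cl j) : ℚ) : ℝ)) := fun i j => Iff.rfl
  have hlo : ∀ i, n ≤ #(cl i) := fun i => by
    have := hP.average_le_card_part (hcl i)
    rwa [card_univ] at this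
  have hhi : ∀ i, #(cl i) ≤ n + 1 := fun i => by
    have := hP.card_part_le_average_add_one (hcl i)
    rwa [card_univ] at this
  have hwpos : ∀ i j, 0 < w i j → good i j := by
    intro i j h
    by_contra hcon
    rw [hw, if_neg hcon] at h
    exact lt_irrefl _ h
  have hsymm : ∀ i j, w i j = w j i := by
    intro i j
    have h1 : good i j ↔ good j i := by
      rw [hgood, hgood, ne_comm, SimpleGraph.isUniform_comm, SimpleGraph.edgeDensity_comm]
    rw [hw, hw]
    by_cases h : good i j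
    · rw [if_pos h, if_pos (h1.1 h), SimpleGraph.edgeDensity_comm]
    · rw [if_neg h, if_neg (fun h' => h (h1.2 h'))]
  let S : Sys G #P.parts n er d₀ :=
    { cl := cl
      w := w
      disj := fun i j hij => P.disjoint (hcl i) (hcl j) fun h => hij (hinj i j h)
      card_lo := hlo
      card_hi := hhi
      symm := hsymm
      nonneg := fun i j => by
        rw [hw]; split_ifs
        · exact_mod_cast G.edgeDensity_nonneg _ _
        · exact le_rfl
      le_one := fun i j => by
        rw [hw]; split_ifs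
        · exact_mod_cast G.edgeDensity_le_one _ _
        · exact zero_le_one
      diag := fun i => by
        rw [hw, if_neg]
        rintro ⟨h, -⟩
        exact h rfl
      dense := fun i j h => by
        have h1 := hwpos i j h
        rw [hw, if_pos h1]
        exact h1.2.2
      reg := fun i j h T hT hTc => by
        have h1 := hwpos i j h
        rw [hw, if_pos h1]
        exact es_reg G her (hhi i) (hhi j) h1.2.1 hT hTc }
  refine ⟨#P.parts, n, S, hMpos, hPb, rfl, ?_⟩
  show 2 * (#G.edgeFinset : ℝ) - (5 * er + 4 * d₀) * (Fintype.card V : ℝ) ^ 2 ≤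
          (∑ i, ∑ j, w i j) * ((n : ℝ) + 1) ^ 2
  -- counting
  set D : Finset (V × V) := {q ∈ (univ : Finset V) ×ˢ (univ : Finset V) | G.Adj q.1 q.2} with hD
  have hDc : 2 * #G.edgeFinset = #D := by
    rw [← SimpleGraph.sum_degrees_eq_twice_card_edges]
    have : D = G.interedges univ univ := by
      ext ⟨a, b⟩; simp [hD, SimpleGraph.mem_interedges_iff]
    rw [this, es_inter]
    refine sum_congr rfl fun v _ => ?_
    rw [← SimpleGraph.card_neighborFinset_eq_degree]
    congr 1
    ext u; simp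
  set A1 := (P.nonUniforms G er).biUnion (fun UV : Finset V × Finset V => UV.1 ×ˢ UV.2) with hA1
  set A2 := P.parts.biUnion offDiag with hA2
  set A3 := (P.sparsePairs G d₀).biUnion
    (fun UV : Finset V × Finset V => G.interedges UV.1 UV.2) with hA3
  set A4 := ((univ : Finset (Fin #P.parts × Fin #P.parts)).filter fun q => good q.1 q.2).biUnion
    (fun q => G.interedges (cl q.1) (cl q.2)) with hA4
  have hsub : D ⊆ ((A1 ∪ A2) ∪ A3) ∪ A4 := by
    rintro ⟨x, y⟩ hxy
    have hadj : G.Adj x y := (mem_filter.1 hxy).2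
    obtain ⟨U, hU, hxU⟩ := P.exists_mem (mem_univ x)
    obtain ⟨W, hW, hyW⟩ := P.exists_mem (mem_univ y)
    rcases eq_or_ne U W with rfl | hUW
    · refine mem_union_left _ (mem_union_left _ (mem_union_right _ ?_))
      exact mem_biUnion.2 ⟨U, hU, mem_offDiag.2 ⟨hxU, hyW, hadj.ne⟩⟩
    by_cases h1 : G.IsUniform er U W
    · by_cases h2 : d₀ ≤ ((G.edgeDensity U W : ℚ) : ℝ)
      · refine mem_union_right _ ?_
        obtain ⟨i, rfl⟩ := hsurj U hU
        obtain ⟨j, rfl⟩ := hsurj W hW
        refine mem_biUnion.2 ⟨(i, j), mem_filter.2 ⟨mem_univ _, ?_, h1, h2⟩, ?_⟩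
        · rintro h; exact hUW (congrArg cl h)
        · exact G.mem_interedges_iff.2 ⟨hxU, hyW, hadj⟩
      · push Not at h2
        refine mem_union_left _ (mem_union_right _ ?_)
        refine mem_biUnion.2 ⟨(U, W), ?_, G.mem_interedges_iff.2 ⟨hxU, hyW, hadj⟩⟩
        rw [Finpartition.mk_mem_sparsePairs]
        exact ⟨hU, hW, hUW, h2⟩
    · refine mem_union_left _ (mem_union_left _ (mem_union_left _ ?_))
      refine mem_biUnion.2 ⟨(U, W), ?_, mem_product.2 ⟨hxU, hyW⟩⟩
      rw [Finpartition.mk_mem_nonUniforms]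
      exact ⟨hU, hW, hUW, h1⟩
  have hN : (#(univ : Finset V) : ℝ) = Fintype.card V := by rw [card_univ]
  have hc1 : (#A1 : ℝ) < 4 * er * (Fintype.card V : ℝ) ^ 2 := by
    have := hP.sum_nonUniforms_lt hne her hPu
    rw [hN] at this
    exact this
  have hc2 : (#A2 : ℝ) ≤ er / 2 * (Fintype.card V : ℝ) ^ 2 := by
    have := hP.card_biUnion_offDiag_le her (by
      have h1 : 4 / er ≤ (l : ℝ) := Nat.le_ceil _
      have h2 : (l : ℝ) ≤ #P.parts := by exact_mod_cast hPl
      exact h1.trans h2)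
    rw [hN] at this
    exact this
  have hc3 : (#A3 : ℝ) ≤ 4 * d₀ * (Fintype.card V : ℝ) ^ 2 := by
    have := hP.card_interedges_sparsePairs_le (G := G) hd₀.le
    rw [hN] at this
    exact this
  have hc4 : (#A4 : ℝ) ≤ (∑ i, ∑ j, w i j) * ((n : ℝ) + 1) ^ 2 := by
    have h1 : (#A4 : ℝ) ≤
        ∑ q ∈ (univ : Finset (Fin #P.parts × Fin #P.parts)).filter (fun q => good q.1 q.2),
          (#(G.interedges (cl q.1) (cl q.2)) : ℝ) := by
      exact_mod_cast card_biUnion_le
    refine h1.trans ?_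
    have h2 : (∑ i, ∑ j, w i j) * ((n : ℝ) + 1) ^ 2 =
        ∑ q : Fin #P.parts × Fin #P.parts, w q.1 q.2 * ((n : ℝ) + 1) ^ 2 := by
      rw [Fintype.sum_prod_type, sum_mul]
      refine sum_congr rfl fun i _ => ?_
      rw [sum_mul]
    rw [h2, sum_filter]
    refine sum_le_sum fun q _ => ?_
    rw [hw]
    split_ifs with h
    · rw [← es_dens]
      have h3 : (0 : ℝ) ≤ ((G.edgeDensity (cl q.1) (cl q.2) : ℚ) : ℝ) := by
        exact_mod_cast G.edgeDensity_nonneg _ _
      have h4 : (#(cl q.1) : ℝ) ≤ (n : ℝ) + 1 := by exact_mod_cast hhi q.1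
      have h5 : (#(cl q.2) : ℝ) ≤ (n : ℝ) + 1 := by exact_mod_cast hhi q.2
      refine mul_le_mul_of_nonneg_left ?_ h3
      rw [sq]
      exact mul_le_mul h4 h5 (by positivity) (by positivity)
    · simp
  have hcard : (#D : ℝ) ≤ #A1 + #A2 + #A3 + #A4 := by
    have := (card_le_card hsub).trans ((card_union_le _ _).trans (Nat.add_le_add_right
      ((card_union_le _ _).trans (Nat.add_le_add_right (card_union_le _ _) _)) _))
    exact_mod_cast this
  have hDr : 2 * (#G.edgeFinset : ℝ) = #D := by exact_mod_cast hDc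
  have hsq : 0 ≤ er * (Fintype.card V : ℝ) ^ 2 := by positivity
  rw [hDr]
  nlinarith

end Pool.Agent.DenseTree
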