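import Mathlib

/-!
# Package C: parent function of a finite tree
-/

set_option autoImplicit false

namespace Pool.Agent.DenseTree

open Finset

theorem tree_parent_aux (n : ℕ) : ∀ {V : Type} [Fintype V] (T : SimpleGraph V),
    T.IsTree → Fintype.card V = n + 1 →
    ∃ (v : ℕ → V) (p : ℕ → ℕ), (∀ i, 0 < i → p i < i) ∧
      Set.BijOn v (Set.Iio (Fintype.card V)) Set.univ ∧
      ∀ x y, T.Adj x y → ∃ i, 0 < i ∧ i < Fintype.card V ∧
        ((x = v i ∧ y = v (p i)) ∨ (x = v (p i) ∧ y = v i)) := by
  classical
  induction n with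
  | zero =>
    intro V _ T hT hcard
    obtain ⟨a, ha⟩ := Fintype.card_eq_one_iff.1 hcard
    refine ⟨fun _ => a, fun _ => 0, fun i hi => hi, ?_, fun x y hxy => ?_⟩
    · rw [hcard]
      refine ⟨fun _ _ => trivial, fun i hi j hj _ => ?_, fun z _ => ⟨0, by simp, (ha z).symm⟩⟩
      simp only [Set.mem_Iio] at hi hj
      omega
    · exact absurd ((ha x).trans (ha y).symm) hxy.ne
  | succ n ih =>
    intro V _ T hT hcard
    have : Nontrivial V := Fintype.one_lt_card_iff_nontrivial.1 (by omega)
    obtain ⟨x, hx⟩ := hT.exists_vert_degree_one_of_nontrivial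
    obtain ⟨y, hxy, hy⟩ := T.degree_eq_one_iff_existsUnique_adj.1 hx
    have hconn : (T.induce ({x}ᶜ : Set V)).Connected :=
      hT.1.induce_compl_singleton_of_degree_eq_one hx
    have htree : (T.induce ({x}ᶜ : Set V)).IsTree := ⟨hconn, hT.2.induce _⟩
    have hc : Fintype.card ({x}ᶜ : Set V) = n + 1 := by
      rw [Fintype.card_compl_set, hcard]; simp
    obtain ⟨v', p', hp', hv', he'⟩ := ih _ htree hc
    rw [hc] at hv' he'
    obtain ⟨j, hj, hjy⟩ := hv'.surjOn (show (⟨y, hxy.ne'⟩ : ({x}ᶜ : Set V)) ∈ Set.univ from trivial)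
    rw [Set.mem_Iio] at hj
    have hvlt : ∀ i < n + 1, (if i < n + 1 then (v' i : V) else x) = v' i := fun i hi => if_pos hi
    have hplt : ∀ i < n + 1, (if i < n + 1 then p' i else j) = p' i := fun i hi => if_pos hi
    refine ⟨fun i => if i < n + 1 then v' i else x, fun i => if i < n + 1 then p' i else j,
      fun i hi => ?_, ?_, fun a b hab => ?_⟩
    · by_cases h : i < n + 1
      · simp only [h, if_true]; exact hp' i hi
      · simp only [h, if_false]; omega
    · rw [hcard]
      refine ⟨fun _ _ => trivial, fun i hi k hk hik => ?_, fun z _ => ?_⟩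
      · simp only [Set.mem_Iio] at hi hk
        dsimp only at hik
        by_cases h1 : i < n + 1
        · by_cases h2 : k < n + 1
          · rw [if_pos h1, if_pos h2] at hik
            exact hv'.injOn h1 h2 (Subtype.ext hik)
          · rw [if_pos h1, if_neg h2] at hik
            exact absurd hik (v' i).2
        · by_cases h2 : k < n + 1
          · rw [if_neg h1, if_pos h2] at hik
            exact absurd hik.symm (v' k).2
          · omega
      · by_cases hz : z = x
        · exact ⟨n + 1, by simp, by simp [hz]⟩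
        · obtain ⟨i, hi, hiz⟩ := hv'.surjOn (show (⟨z, hz⟩ : ({x}ᶜ : Set V)) ∈ Set.univ from trivial)
          rw [Set.mem_Iio] at hi
          exact ⟨i, by rw [Set.mem_Iio]; omega, by simp only [hi, if_true, hiz]⟩
    · rw [hcard]
      have hvj : (if j < n + 1 then (v' j : V) else x) = y := by rw [if_pos hj, hjy]
      by_cases ha : a = x
      · subst ha
        obtain rfl : b = y := hy b hab
        refine ⟨n + 1, by omega, by omega, Or.inl ⟨by simp, ?_⟩⟩
        simp only [lt_irrefl, if_false]
        exact hvj.symm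
      · by_cases hb : b = x
        · subst hb
          obtain rfl : a = y := hy a hab.symm
          refine ⟨n + 1, by omega, by omega, Or.inr ⟨?_, by simp⟩⟩
          simp only [lt_irrefl, if_false]
          exact hvj.symm
        · obtain ⟨i, hi0, hi, h⟩ := he' ⟨a, ha⟩ ⟨b, hb⟩ hab
          have hpi : p' i < n + 1 := (hp' i hi0).trans hi
          refine ⟨i, hi0, by omega, ?_⟩
          simp only [hi, hpi, if_true]
          rcases h with ⟨h1, h2⟩ | ⟨h1, h2⟩
          · exact Or.inl ⟨congrArg Subtype.val h1, congrArg Subtype.val h2⟩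
          · exact Or.inr ⟨congrArg Subtype.val h1, congrArg Subtype.val h2⟩

/-- Package C: every finite tree has a parent function. -/
theorem tree_parent {V : Type} [Fintype V] (T : SimpleGraph V) (hT : T.IsTree) :
    ∃ (v : ℕ → V) (p : ℕ → ℕ), (∀ i, 0 < i → p i < i) ∧
      Set.BijOn v (Set.Iio (Fintype.card V)) Set.univ ∧
      ∀ x y, T.Adj x y → ∃ i, 0 < i ∧ i < Fintype.card V ∧
        ((x = v i ∧ y = v (p i)) ∨ (x = v (p i) ∧ y = v i)) := by
  have := hT.1.nonempty
  exact tree_parent_aux (Fintype.card V - 1) T hT (by have := Fintype.card_pos (α := V); omega)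

end Pool.Agent.DenseTree
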