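import Pool.Agent.DenseTree_dd15.Step
import Pool.Agent.DenseTree_dd15.ExistsSys
import Pool.Agent.DenseTree_dd15.Decomp
import Pool.Agent.DenseTree_dd15.Parent
import Pool.Agent.DenseTree_dd15.Arith

/-!
# The approximate Erdos-Sos theorem for dense graphs and all trees
-/

set_option autoImplicit false
set_option linter.unusedSectionVars false

namespace Pool.Agent.DenseTree

open Finset

section

variable {V : Type*} [Fintype V] [DecidableEq V] {G : SimpleGraph V} [DecidableRel G.Adj]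
  {M n : ℕ} {er d₀ : ℝ}

theorem embed_of_num {S : Sys G M n er d₀} {m L : ℕ} {p : ℕ → ℕ} {W : Finset ℕ}
    {anc root : ℕ → ℕ} {par : ℕ → Bool} {sd : Bool → Fin M} {Rs : Bool → Finset V} {Rn K : ℕ}
    {σ Δ Ymax s₁ : ℝ} (T : TD m L p W anc root par)
    (N : Num S m L p W root par sd Rs Rn K σ Δ Ymax s₁) :
    ∃ φ : ℕ → V, Set.InjOn φ {i | i < m} ∧ ∀ i, i < m → 0 < i → G.Adj (φ (p i)) (φ i) := by
  classical
  have her := N.er_pos
  have hn0 : 0 < er * ((n : ℝ) + 1) := by positivity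
  have hne : Nonempty V := by
    have h1 : (0 : ℝ) < Rn := hn0.trans_le N.Rn_ge
    have h2 : 0 < #(Rs true) := by
      rw [N.Rs_card]
      exact_mod_cast h1
    obtain ⟨v, _⟩ := card_pos.1 h2
    exact ⟨v⟩
  obtain ⟨v⟩ := hne
  have key : ∀ k : ℕ, k ≤ m → ∃ φ D, St S m p W anc root par sd Rs Rn σ k φ D := by
    intro k
    induction k with
    | zero =>
      intro _
      have e1 : rtsLt m W p 0 = ∅ := by
        ext c
        simp [rtsLt]
      refine ⟨fun _ => v, fun _ => 0, ?_, ?_, ?_, ?_, ?_, ?_, ?_, ?_⟩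
      · rintro i ⟨_, hi⟩
        exact absurd hi (by omega)
      · intro i _ _ hi; exact absurd hi (by omega)
      · intro i _ _ hi; exact absurd hi (by omega)
      · intro i _ _ hi; exact absurd hi (by omega)
      · intro i _ _ hi; exact absurd hi (by omega)
      · intro i _ _ hi; exact absurd hi (by omega)
      · intro E
        simp [Yk, e1]
      · simp [e1]
    | succ k ih =>
      intro hkm
      obtain ⟨φ, D, h⟩ := ih (by omega)
      by_cases hk : k ∈ W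
      · exact h.step T N hk (by omega)
      · exact ⟨φ, D, h.skip T hk⟩
  obtain ⟨φ, D, h⟩ := key m le_rfl
  refine ⟨φ, ?_, ?_⟩
  · intro i hi j hj hij
    exact h.inj ⟨hi, (T.anc_le i).trans_lt hi⟩ ⟨hj, (T.anc_le j).trans_lt hj⟩ hij
  · intro i hi hi0
    exact h.adj i hi hi0 ((T.anc_le i).trans_lt hi)

end

lemma sum_shrub_le {m L : ℕ} {p : ℕ → ℕ} {W : Finset ℕ} {anc root : ℕ → ℕ} {par : ℕ → Bool}
    (_T : TD m L p W anc root par) : ∑ c ∈ rtsLt m W p m, #(shrub m W root c) ≤ m := by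
  classical
  have h1 : #((rtsLt m W p m).biUnion (shrub m W root)) =
      ∑ c ∈ rtsLt m W p m, #(shrub m W root c) := by
    apply card_biUnion
    intro c _ c' _ hne
    show Disjoint _ _
    rw [Finset.disjoint_left]
    intro i hi hi'
    rw [TD.shrub_iff] at hi hi'
    exact hne (hi.2.2.symm.trans hi'.2.2)
  rw [← h1]
  have h2 : (rtsLt m W p m).biUnion (shrub m W root) ⊆ range m := by
    intro i hi
    rw [mem_biUnion] at hi
    obtain ⟨c, _, hc⟩ := hi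
    rw [TD.shrub_iff] at hc
    exact mem_range.2 hc.1
  simpa using card_le_card h2

/-- The total cost in terms of the totals for the two kinds of seeds. -/
lemma Yk_split {M : ℕ} (w : Fin M → Fin M → ℝ) (m : ℕ) (W : Finset ℕ) (p root : ℕ → ℕ)
    (par : ℕ → Bool) (sd : Bool → Fin M) :
    Yk m W p root par w sd m =
      cost w (sd true) (∑ c ∈ (rtsLt m W p m).filter (fun c => par (p c) = true),
          (oc m W root par c : ℝ))
        (∑ c ∈ (rtsLt m W p m).filter (fun c => par (p c) = true), (ec m W root par c : ℝ)) +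
      cost w (sd false) (∑ c ∈ (rtsLt m W p m).filter (fun c => ¬ par (p c) = true),
          (oc m W root par c : ℝ))
        (∑ c ∈ (rtsLt m W p m).filter (fun c => ¬ par (p c) = true), (ec m W root par c : ℝ)) := by
  unfold Yk
  rw [← Finset.sum_filter_add_sum_filter_not (rtsLt m W p m) (fun c => par (p c) = true)]
  congr 1
  · unfold cost
    rw [Finset.sum_mul, Finset.sum_mul, ← Finset.sum_add_distrib]
    refine Finset.sum_congr rfl fun c hc => ?_
    rw [(mem_filter.1 hc).2]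
  · unfold cost
    rw [Finset.sum_mul, Finset.sum_mul, ← Finset.sum_add_distrib]
    refine Finset.sum_congr rfl fun c hc => ?_
    have := (mem_filter.1 hc).2
    have e : par (p c) = false := by simpa using this
    rw [e]


lemma dev_bound {m L : ℕ} {p : ℕ → ℕ} {W : Finset ℕ} {anc root : ℕ → ℕ} {par : ℕ → Bool}
    (T : TD m L p W anc root par) {η ξ M n Mx : ℝ} (hM : 0 < M) (hMx : M ≤ Mx) (_hη0 : 0 < η)
    (hη : η ≤ ξ ^ 2 / (8 * Mx ^ 2)) (hm2 : (m : ℝ) ≤ 2 * M * n) (hL : (L : ℝ) ≤ η * m) :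
    ∑ c ∈ rtsLt m W p m, 2 * ((#(shrub m W root c) : ℝ)) ^ 2 ≤ (ξ * n) ^ 2 := by
  have h1 : ∑ c ∈ rtsLt m W p m, 2 * ((#(shrub m W root c) : ℝ)) ^ 2 ≤ (2 : ℝ) * L * m := by
    calc ∑ c ∈ rtsLt m W p m, 2 * ((#(shrub m W root c) : ℝ)) ^ 2
        ≤ ∑ c ∈ rtsLt m W p m, (2 : ℝ) * L * (#(shrub m W root c) : ℝ) := by
          refine Finset.sum_le_sum fun c _ => ?_
          have h2 : (#(shrub m W root c) : ℝ) ≤ L := by exact_mod_cast T.small c
          have h3 : (0 : ℝ) ≤ #(shrub m W root c) := by positivity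
          nlinarith
      _ = (2 : ℝ) * L * ∑ c ∈ rtsLt m W p m, (#(shrub m W root c) : ℝ) := by rw [Finset.mul_sum]
      _ ≤ (2 : ℝ) * L * m := by
          have h2 : (∑ c ∈ rtsLt m W p m, (#(shrub m W root c) : ℝ)) ≤ m := by
            exact_mod_cast sum_shrub_le T
          gcongr
  refine h1.trans ?_
  have h2 : η ≤ ξ ^ 2 / (8 * M ^ 2) := by
    refine hη.trans ?_
    gcongr
  have hm0 : (0 : ℝ) ≤ m := by positivity
  calc 2 * (L : ℝ) * m ≤ 2 * (η * m) * m := by gcongr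
    _ = 2 * η * (m : ℝ) ^ 2 := by ring
    _ ≤ 2 * (ξ ^ 2 / (8 * M ^ 2)) * (2 * M * n) ^ 2 := by gcongr
    _ = (ξ * n) ^ 2 := by field_simp; ring

/-- The embedding, from a cluster system of large weight. -/
theorem core_of_sys {V : Type*} [Fintype V] [DecidableEq V] {G : SimpleGraph V}
    [DecidableRel G.Adj] {M n : ℕ} {er d : ℝ} (S : Sys G M n er d) {ε σ κ ρ ξ η Mx : ℝ}
    (hε : 0 < ε) (hε1 : ε ≤ 1) (hσ : σ = ε / 16) (hκ : 0 < κ) (hρ : ρ = ε / 20) (hd : 0 < d)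
    (hd1 : d ≤ 1 / 64) (hξ : ξ = d * ε / 40) (her : 0 < er) (her2 : er ≤ ξ / 8)
    (her3 : er ≤ d * ξ / 32) (her4 : er ≤ d * ρ / 32) (her5 : er ≤ σ * κ * d * ρ / 16)
    (her6 : er ≤ d / 10) (hM : 0 < M) (hMx : (M : ℝ) ≤ Mx) (hη : 0 < η)
    (hη1 : η ≤ d * ξ / (16 * Mx)) (hη2 : η ≤ ξ ^ 2 / (8 * Mx ^ 2))
    (hn1 : (1 : ℝ) ≤ n) (hn2 : 2 / ξ ≤ n) (hn3 : 10 / ρ ≤ n)
    (hn4 : (4 / η + 2) * (16 / (d * ρ)) ≤ n) (m : ℕ) (hmη : 1 ≤ η * m)
    (hm2 : (m : ℝ) ≤ 2 * M * n)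
    (hF : (m : ℝ) * M * (1 + ε / 2) ≤ n * ((∑ i, ∑ j, S.w i j) - 2 * κ * (M : ℝ) ^ 2))
    (p : ℕ → ℕ) (hp : ∀ i, 0 < i → p i < i) :
    ∃ φ : ℕ → V, Set.InjOn φ {i | i < m} ∧ ∀ i, i < m → 0 < i → G.Adj (φ (p i)) (φ i) := by
  classical
  have hσ0 : 0 < σ := by rw [hσ]; positivity
  have hρ0 : 0 < ρ := by rw [hρ]; positivity
  have hξ0 : 0 < ξ := by rw [hξ]; positivity
  have hMr : (0 : ℝ) < M := by exact_mod_cast hM
  have hn0 : (0 : ℝ) < n := by linarith
  have hm0 : (0 : ℝ) < m := by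
    by_contra hcon
    have : η * (m : ℝ) ≤ 0 := mul_nonpos_of_nonneg_of_nonpos hη.le (not_lt.1 hcon)
    linarith
  -- the seeds of the tree
  obtain ⟨L, hL⟩ : ∃ L : ℕ, L = ⌊η * m⌋₊ := ⟨_, rfl⟩
  have hL1 : 1 ≤ L := by rw [hL]; exact (Nat.one_le_floor_iff _).2 hmη
  have hLle : (L : ℝ) ≤ η * m := by rw [hL]; exact Nat.floor_le (by positivity)
  have hLge : η * m / 2 ≤ L := by
    have h1 : η * m < L + 1 := by rw [hL]; exact Nat.lt_floor_add_one _
    have h2 : (1 : ℝ) ≤ L := by exact_mod_cast hL1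
    linarith
  obtain ⟨W, anc, root, par, w0, wc, w1, w2, w3, w4, w5, w6, w7, w8⟩ := tree_decomp m L hL1 p hp
  have T : TD m L p W anc root par := ⟨hp, w0, w1, w2, w3, w4, w5, w6, w7, w8⟩
  have hWc : (#W : ℝ) ≤ 4 / η + 2 := by
    have h1 : (#W : ℝ) ≤ 2 * ((m / L : ℕ) + 1) := by exact_mod_cast wc
    have h2 : ((m / L : ℕ) : ℝ) ≤ (m : ℝ) / L := Nat.cast_div_le
    have h3 : (m : ℝ) / L ≤ 2 / η := by
      have hLpos : (0 : ℝ) < L := by exact_mod_cast hL1
      rw [div_le_div_iff₀ hLpos hη]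
      linarith
    have h4 : 4 / η = 2 * (2 / η) := by ring
    linarith
  -- the edge of the reduced graph
  obtain ⟨F, hFdef⟩ : ∃ F, F = (∑ i, ∑ j, S.w i j) - 2 * κ * (M : ℝ) ^ 2 := ⟨_, rfl⟩
  rw [← hFdef] at hF
  have hF0 : 0 < F := by
    have h1 : 0 < (m : ℝ) * (M : ℝ) * (1 + ε / 2) := by positivity
    have h2 : 0 < (n : ℝ) * F := lt_of_lt_of_le h1 hF
    exact (mul_pos_iff_of_pos_left hn0).1 h2
  obtain ⟨oA, hoA⟩ : ∃ x, x = ∑ c ∈ (rtsLt m W p m).filter (fun c => par (p c) = true),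
    (oc m W root par c : ℝ) := ⟨_, rfl⟩
  obtain ⟨eA, heA⟩ : ∃ x, x = ∑ c ∈ (rtsLt m W p m).filter (fun c => par (p c) = true),
    (ec m W root par c : ℝ) := ⟨_, rfl⟩
  obtain ⟨oB, hoB⟩ : ∃ x, x = ∑ c ∈ (rtsLt m W p m).filter (fun c => ¬ par (p c) = true),
    (oc m W root par c : ℝ) := ⟨_, rfl⟩
  obtain ⟨eB, heB⟩ : ∃ x, x = ∑ c ∈ (rtsLt m W p m).filter (fun c => ¬ par (p c) = true),
    (ec m W root par c : ℝ) := ⟨_, rfl⟩
  have htot : oA + eA + oB + eB ≤ m := by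
    have h1 := sum_shrub_le T
    have h2 : (∑ c ∈ rtsLt m W p m, (#(shrub m W root c) : ℝ)) ≤ m := by exact_mod_cast h1
    have h3 : oA + eA + oB + eB = ∑ c ∈ rtsLt m W p m, (#(shrub m W root c) : ℝ) := by
      rw [← Finset.sum_filter_add_sum_filter_not (rtsLt m W p m) (fun c => par (p c) = true)]
      rw [hoA, heA, hoB, heB, add_assoc, ← Finset.sum_add_distrib, ← Finset.sum_add_distrib]
      congr 1
      · refine Finset.sum_congr rfl fun c _ => ?_
        rw [← oc_add_ec m W root par c]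
        push_cast
        rfl
      · refine Finset.sum_congr rfl fun c _ => ?_
        rw [← oc_add_ec m W root par c]
        push_cast
        rfl
    rw [h3]
    exact h2
  have hoA0 : 0 ≤ oA := by rw [hoA]; positivity
  have heA0 : 0 ≤ eA := by rw [heA]; positivity
  have hoB0 : 0 ≤ oB := by rw [hoB]; positivity
  have heB0 : 0 ≤ eB := by rw [heB]; positivity
  obtain ⟨A, B, hAB, hdegA, hdegB, hcost⟩ := choose_edge S.w S.nonneg S.symm κ F hκ hF0
    (by rw [hFdef]; linarith) oA eA oB eB hoA0 heA0 hoB0 heB0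
  obtain ⟨sd, hsdt, hsdf⟩ : ∃ sd : Bool → Fin M, sd true = A ∧ sd false = B :=
    ⟨fun b => if b = true then A else B, by simp, by simp⟩
  have hdeg : ∀ b, κ * M ≤ ∑ j, S.w (sd b) j := by
    intro b
    cases b
    · rw [hsdf]; exact hdegB
    · rw [hsdt]; exact hdegA
  have hYk : Yk m W p root par S.w sd m ≤ n / (1 + ε / 2) := by
    rw [Yk_split, hsdt, hsdf, ← hoA, ← heA, ← hoB, ← heB]
    have h1 : (oA + eA + oB + eB) * M / F ≤ n / (1 + ε / 2) := by
      rw [div_le_div_iff₀ hF0 (by positivity)]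
      calc (oA + eA + oB + eB) * M * (1 + ε / 2) ≤ m * M * (1 + ε / 2) := by gcongr
        _ ≤ n * F := hF
    exact hcost.trans h1
  -- the reserved sets
  obtain ⟨Rn, hRn⟩ : ∃ Rn : ℕ, Rn = ⌊ρ * n⌋₊ := ⟨_, rfl⟩
  have hRnle : (Rn : ℝ) ≤ ρ * n := by rw [hRn]; exact Nat.floor_le (by positivity)
  have hρn : 10 ≤ ρ * n := by
    rw [div_le_iff₀ hρ0] at hn3
    linarith
  have hRnge : 9 / 10 * (ρ * n) ≤ Rn := by
    have h1 : ρ * n < Rn + 1 := by rw [hRn]; exact Nat.lt_floor_add_one _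
    linarith
  have hRncl : ∀ b, Rn ≤ #(S.cl (sd b)) := by
    intro b
    have h1 : (Rn : ℝ) ≤ n := by
      have : ρ ≤ 1 := by rw [hρ]; linarith
      calc (Rn : ℝ) ≤ ρ * n := hRnle
        _ ≤ 1 * n := by gcongr
        _ = n := one_mul _
    have h2 : Rn ≤ n := by exact_mod_cast h1
    exact h2.trans (S.card_lo _)
  have hRsex : ∀ b, ∃ R ⊆ S.cl (sd b), #R = Rn := fun b =>
    Finset.exists_subset_card_eq (hRncl b)
  choose Rs hRsub hRcard using hRsex
  obtain ⟨K, hK⟩ : ∃ K : ℕ, K = ⌊ξ * n⌋₊ := ⟨_, rfl⟩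
  have hKle : (K : ℝ) ≤ ξ * n := by rw [hK]; exact Nat.floor_le (by positivity)
  have hξn : 2 ≤ ξ * n := by
    rw [div_le_iff₀ hξ0] at hn2
    linarith
  have hKge : ξ * n / 2 ≤ K := by
    have h1 : ξ * n < K + 1 := by rw [hK]; exact Nat.lt_floor_add_one _
    linarith
  -- the error terms
  have hern : er * ((n : ℝ) + 1) ≤ 2 * (er * n) := by
    have : er * 1 ≤ er * n := by gcongr
    linarith
  have hern1 : er * n ≤ ξ / 8 * n := by gcongr
  have hern2 : er * n ≤ d * ξ / 32 * n := by gcongr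
  have hern3 : er * n ≤ d * ρ / 32 * n := by gcongr
  have hern4 : er * n ≤ σ * κ * d * ρ / 16 * n := by gcongr
  have hξε : ξ ≤ ε / 20 := by
    rw [hξ]
    have : d * ε ≤ 1 * ε := by gcongr; linarith
    linarith
  have hgap := ar_gap (n := (n : ℝ)) hρ hξε hn0 hRnle
  have hη1' : η ≤ d * ξ / (16 * M) := by
    refine hη1.trans ?_
    gcongr
  have N : Num S m L p W root par sd Rs Rn K σ (ξ * n) ((1 - ε / 5) * n) (d * ρ * n / 4) :=
    { er_pos := her
      er_le := by linarith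
      sd_adj := by rw [hsdt, hsdf]; exact hAB
      Rs_sub := hRsub
      Rs_card := hRcard
      s₁_pos := by positivity
      seeds := by
        have h1 : (#W : ℝ) ≤ d * ρ * n / 16 := by
          refine hWc.trans ?_
          have h3 : (4 / η + 2) * (16 / (d * ρ)) * (d * ρ / 16) ≤ n * (d * ρ / 16) := by gcongr
          have h4 : (4 / η + 2) * (16 / (d * ρ)) * (d * ρ / 16) = 4 / η + 2 := by field_simp
          rw [h4] at h3
          linarith
        exact ar_seeds hd hρ0 hn0 her6 hern3 hern hRnge h1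
      Rn_ge := ar_Rn hd1 hρ0 hn0 hern3 hern hRnge
      σ_nonneg := hσ0.le
      bad := fun b => ar_bad hMr hn0 hσ0 (by rw [hσ]; linarith) hd hρ0 her hern4 hern (hdeg b)
      Δ_nonneg := by positivity
      dev := dev_bound T hMr hMx hη hη2 hm2 hLle
      hY := by
        refine le_trans ?_ (ar_div hε hε1 hσ hn0)
        exact mul_le_mul_of_nonneg_left hYk (by linarith)
      h2 := ar_h2 hd hξ hξ0 hn0 hKle hern hern1 hgap
      h3 := ar_h3 hξε hn0 hKle hgap
      hK := ar_hK hn0 hξ0 hKge hern hern1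
      hL := ar_hL hd hξ0 hn0 hMr hm2 hm0 hη hη1' hLle hKge her6 hern hern2 }
  exact embed_of_num T N

/-- The approximate Erdos-Sos theorem for dense graphs and all trees, for trees given by a parent
function. -/
theorem dense_core (ε C : ℝ) (hε : 0 < ε) (hε1 : ε ≤ 1) (hC : 1 ≤ C) :
    ∃ m₀ : ℕ, ∀ m : ℕ, m₀ ≤ m → ∀ (V : Type) [Fintype V] [DecidableEq V] [Nonempty V]
      (G : SimpleGraph V) [DecidableRel G.Adj], (Fintype.card V : ℝ) ≤ C * m →
      (1 + ε) * m * Fintype.card V ≤ 2 * (#G.edgeFinset : ℝ) →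
      ∀ p : ℕ → ℕ, (∀ i, 0 < i → p i < i) →
      ∃ φ : ℕ → V, Set.InjOn φ {i | i < m} ∧ ∀ i, i < m → 0 < i → G.Adj (φ (p i)) (φ i) := by
  classical
  -- the parameters
  obtain ⟨σ, hσ⟩ : ∃ σ, σ = ε / 16 := ⟨_, rfl⟩
  obtain ⟨κ, hκ⟩ : ∃ κ, κ = ε / (16 * C) := ⟨_, rfl⟩
  obtain ⟨ρ, hρ⟩ : ∃ ρ, ρ = ε / 20 := ⟨_, rfl⟩
  obtain ⟨d, hd⟩ : ∃ d, d = ε / (64 * C) := ⟨_, rfl⟩
  obtain ⟨ξ, hξ⟩ : ∃ ξ, ξ = d * ε / 40 := ⟨_, rfl⟩
  have hC0 : 0 < C := by linarith
  have hσ0 : 0 < σ := by rw [hσ]; positivity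
  have hκ0 : 0 < κ := by rw [hκ]; positivity
  have hρ0 : 0 < ρ := by rw [hρ]; positivity
  have hd0 : 0 < d := by rw [hd]; positivity
  have hξ0 : 0 < ξ := by rw [hξ]; positivity
  have hd1 : d ≤ 1 / 64 := by
    rw [hd, div_le_div_iff₀ (by positivity) (by norm_num)]
    nlinarith
  obtain ⟨er, her, her1, her2, her3, her4, her5, her6⟩ : ∃ er : ℝ, 0 < er ∧ er ≤ ε / (80 * C) ∧
      er ≤ ξ / 8 ∧ er ≤ d * ξ / 32 ∧ er ≤ d * ρ / 32 ∧ er ≤ σ * κ * d * ρ / 16 ∧ er ≤ d / 10 := by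
    refine ⟨min (ε / (80 * C)) (min (ξ / 8) (min (d * ξ / 32) (min (d * ρ / 32)
      (min (σ * κ * d * ρ / 16) (d / 10))))), by positivity, ?_, ?_, ?_, ?_, ?_, ?_⟩
    · exact min_le_left _ _
    · exact (min_le_right _ _).trans (min_le_left _ _)
    · exact (min_le_right _ _).trans ((min_le_right _ _).trans (min_le_left _ _))
    · exact (min_le_right _ _).trans ((min_le_right _ _).trans ((min_le_right _ _).trans
        (min_le_left _ _)))
    · exact (min_le_right _ _).trans ((min_le_right _ _).trans ((min_le_right _ _).trans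
        ((min_le_right _ _).trans (min_le_left _ _))))
    · exact (min_le_right _ _).trans ((min_le_right _ _).trans ((min_le_right _ _).trans
        ((min_le_right _ _).trans (min_le_right _ _))))
  obtain ⟨Mmax, hMmax⟩ := exists_sys er d her hd0
  obtain ⟨Mx, hMx⟩ : ∃ Mx : ℝ, Mx = max (Mmax : ℝ) 1 := ⟨_, rfl⟩
  have hMx1 : 1 ≤ Mx := by rw [hMx]; exact le_max_right _ _
  have hMxm : (Mmax : ℝ) ≤ Mx := by rw [hMx]; exact le_max_left _ _
  have hMx0 : 0 < Mx := by linarith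
  obtain ⟨η, hη, hη1, hη2⟩ : ∃ η : ℝ, 0 < η ∧ η ≤ d * ξ / (16 * Mx) ∧
      η ≤ ξ ^ 2 / (8 * Mx ^ 2) :=
    ⟨min (d * ξ / (16 * Mx)) (ξ ^ 2 / (8 * Mx ^ 2)), by positivity, min_le_left _ _,
      min_le_right _ _⟩
  -- a lower bound for `n`
  obtain ⟨n₀, hn₀1, hn₀2, hn₀3, hn₀4, hn₀5⟩ : ∃ n₀ : ℝ, 1 ≤ n₀ ∧ 2 / ξ ≤ n₀ ∧ 10 / ρ ≤ n₀ ∧
      (4 / η + 2) * (16 / (d * ρ)) ≤ n₀ ∧ 32 / ε ≤ n₀ := by
    refine ⟨1 + 2 / ξ + 10 / ρ + (4 / η + 2) * (16 / (d * ρ)) + 32 / ε, ?_, ?_, ?_, ?_, ?_⟩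
    all_goals
      have a1 : 0 < 2 / ξ := by positivity
      have a2 : 0 < 10 / ρ := by positivity
      have a3 : 0 < (4 / η + 2) * (16 / (d * ρ)) := by positivity
      have a4 : 0 < 32 / ε := by positivity
      linarith
  refine ⟨⌈Mx * (n₀ + 1) + 1 / η + Mx + 1⌉₊, ?_⟩
  intro m hm V _ _ _ G _ hNC he p hp
  have hm' : Mx * (n₀ + 1) + 1 / η + Mx + 1 ≤ m := (Nat.le_ceil _).trans (by exact_mod_cast hm)
  have hη' : 0 < 1 / η := by positivity
  have hMn' : 0 < Mx * (n₀ + 1) := by positivity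
  have hm1 : Mx * (n₀ + 1) ≤ m := by linarith
  have hmη : 1 / η ≤ m := by linarith
  have hmMx : Mx ≤ m := by linarith
  have hmpos : (0 : ℝ) < m := by linarith
  have hNpos : 0 < Fintype.card V := Fintype.card_pos
  obtain ⟨Nr, hNr⟩ : ∃ Nr : ℝ, Nr = (Fintype.card V : ℝ) := ⟨_, rfl⟩
  rw [← hNr] at hNC he
  have hNr0 : 0 < Nr := by rw [hNr]; exact_mod_cast hNpos
  -- `m ≤ N`
  have hmN : (m : ℝ) ≤ Nr := by
    have h1 : 2 * (#G.edgeFinset : ℝ) ≤ Nr * Nr := by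
      have h2 : #G.edgeFinset ≤ (Fintype.card V).choose 2 := G.card_edgeFinset_le_card_choose_two
      have h3 : 2 * (Fintype.card V).choose 2 ≤ Fintype.card V * Fintype.card V := by
        rw [Nat.choose_two_right]
        have := Nat.mul_div_le (Fintype.card V * (Fintype.card V - 1)) 2
        have h4 : Fintype.card V * (Fintype.card V - 1) ≤ Fintype.card V * Fintype.card V :=
          Nat.mul_le_mul_left _ (Nat.sub_le _ _)
        omega
      have h4 : 2 * #G.edgeFinset ≤ Fintype.card V * Fintype.card V := by omega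
      rw [hNr]
      exact_mod_cast h4
    have h2 : (1 + ε) * m * Nr ≤ Nr * Nr := he.trans h1
    have h3 : (1 + ε) * m ≤ Nr := le_of_mul_le_mul_right h2 hNr0
    have h4 : 0 < ε * m := by positivity
    linarith
  have hMmN : Mmax ≤ Fintype.card V := by
    have h1 : (Mmax : ℝ) ≤ Nr := by linarith
    rw [hNr] at h1
    exact_mod_cast h1
  obtain ⟨M, n, S, hM0, hMM, hn, hsum⟩ := hMmax V G hMmN
  rw [← hNr] at hsum
  have hMr0 : (0 : ℝ) < M := by exact_mod_cast hM0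
  have hMMx : (M : ℝ) ≤ Mx := le_trans (by exact_mod_cast hMM) hMxm
  have hMn : (M : ℝ) * n ≤ Nr := by
    have : M * n ≤ Fintype.card V := by rw [hn]; exact Nat.mul_div_le _ _
    rw [hNr]
    exact_mod_cast this
  have hNM : Nr < M * ((n : ℝ) + 1) := by
    have : Fintype.card V < M * (n + 1) := by
      rw [hn]; exact Nat.lt_mul_div_succ _ hM0
    rw [hNr]
    exact_mod_cast this
  have hnn₀ : n₀ ≤ n := by
    have h1 : Mx * (n₀ + 1) ≤ Mx * ((n : ℝ) + 1) := by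
      calc Mx * (n₀ + 1) ≤ m := hm1
        _ ≤ Nr := hmN
        _ ≤ M * ((n : ℝ) + 1) := hNM.le
        _ ≤ Mx * ((n : ℝ) + 1) := by gcongr
    have h2 := le_of_mul_le_mul_left h1 hMx0
    linarith
  have hn1 : (1 : ℝ) ≤ n := by linarith
  have hn0 : (0 : ℝ) < n := by linarith
  have hm2 : (m : ℝ) ≤ 2 * M * n := by
    have h1 : (M : ℝ) * 1 ≤ M * n := by gcongr
    linarith
  have hκC : 16 * C * κ ≤ ε := by rw [hκ]; apply le_of_eq; field_simp
  have hdC : 64 * C * d ≤ ε := by rw [hd]; apply le_of_eq; field_simp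
  have herC : 80 * C * er ≤ ε := by
    rw [le_div_iff₀ (by positivity)] at her1
    linarith
  have hn32 : 32 ≤ ε * ((n : ℝ) + 1) := by
    have h1 : 32 / ε ≤ (n : ℝ) + 1 := by linarith
    rw [div_le_iff₀ hε] at h1
    linarith
  have hF := weight_bound hε hε1 hmpos hMr0 hn0 hMn hNC he hsum her.le hd0.le herC hdC hκ0.le
    hκC hn32
  exact core_of_sys S hε hε1 hσ hκ0 hρ hd0 hd1 hξ her her2 her3 her4 her5 her6 hM0 hMMx hη hη1 hη2
    hn1 (hn₀2.trans hnn₀) (hn₀3.trans hnn₀) (hn₀4.trans hnn₀) m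
    (by rw [div_le_iff₀ hη] at hmη; linarith) hm2 hF p hp

/-- **The approximate Erdos-Sos theorem for dense graphs and all trees.** -/
theorem dense_erdos_sos (ε C : ℝ) (hε : 0 < ε) :
    ∃ m₀ : ℕ, ∀ m : ℕ, m₀ ≤ m → ∀ (V : Type) [Fintype V] [DecidableEq V] [Nonempty V]
      (G : SimpleGraph V) [DecidableRel G.Adj], (Fintype.card V : ℝ) ≤ C * m →
      (1 + ε) * m * Fintype.card V ≤ 2 * (#G.edgeFinset : ℝ) →
      ∀ (X : Type) [Fintype X] (T : SimpleGraph X), T.IsTree → Fintype.card X = m →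
      ∃ f : X → V, Function.Injective f ∧ ∀ x y, T.Adj x y → G.Adj (f x) (f y) := by
  classical
  obtain ⟨m₀, hm₀⟩ := dense_core (min ε 1) (max C 1) (by positivity) (min_le_right _ _)
    (le_max_right _ _)
  refine ⟨m₀, ?_⟩
  intro m hm V _ _ _ G _ hC he X _ T hT hX
  obtain ⟨v, p, hp, hbij, hadj⟩ := tree_parent T hT
  obtain ⟨φ, hφ1, hφ2⟩ := hm₀ m hm V G
    (hC.trans (mul_le_mul_of_nonneg_right (le_max_left _ _) (by positivity)))
    (le_trans (by gcongr; exact min_le_left _ _) he) p hp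
  rw [hX] at hbij hadj
  -- the inverse of the enumeration
  have hinv : ∀ x : X, ∃ i, i < m ∧ v i = x := by
    intro x
    obtain ⟨i, hi, hx⟩ := hbij.surjOn (Set.mem_univ x)
    exact ⟨i, hi, hx⟩
  choose idx hidx1 hidx2 using hinv
  have hidx : ∀ i, i < m → idx (v i) = i := by
    intro i hi
    exact hbij.injOn (hidx1 _) hi (hidx2 _)
  refine ⟨fun x => φ (idx x), ?_, ?_⟩
  · intro x y hxy
    have := hφ1 (hidx1 x) (hidx1 y) hxy
    rw [← hidx2 x, ← hidx2 y, this]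
  · intro x y hxy
    obtain ⟨i, hi0, him, h⟩ := hadj x y hxy
    have hpi := hp i hi0
    beta_reduce
    rcases h with ⟨rfl, rfl⟩ | ⟨rfl, rfl⟩
    · rw [hidx i him, hidx (p i) (by omega)]
      exact (hφ2 i him hi0).symm
    · rw [hidx i him, hidx (p i) (by omega)]
      exact hφ2 i him hi0

end Pool.Agent.DenseTree
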