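import Mathlib

/-!
# Greedy embedding of a small tree, second-moment rounding, choice of an edge
-/

set_option autoImplicit false

namespace Pool.Agent.DenseTree

open Finset

/-- Greedy embedding: the vertices of the tree `X` are the natural numbers in `X`, with root `c`
and parent function `p`; the vertex `i` has to be placed in `S i`. -/
theorem greedy_embed {V : Type*} [Fintype V] [DecidableEq V] (G : SimpleGraph V)
    [DecidableRel G.Adj] (X : Finset ℕ) (c : ℕ) (p : ℕ → ℕ) (S : ℕ → Finset V)
    (hcX : c ∈ X) (hX : ∀ i ∈ X, i ≠ c → p i ∈ X ∧ p i < i)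
    (hc : (S c).Nonempty)
    (hS : ∀ i ∈ X, i ≠ c → ∀ v ∈ S (p i), #X ≤ #{u ∈ S i | G.Adj v u}) :
    ∃ φ : ℕ → V, (∀ i ∈ X, φ i ∈ S i) ∧ Set.InjOn φ X ∧
      ∀ i ∈ X, i ≠ c → G.Adj (φ (p i)) (φ i) := by
  classical
  have hcmin : ∀ i, i ∈ X → c ≤ i := by
    intro i
    induction i using Nat.strong_induction_on with
    | _ i ih =>
      intro hi
      by_cases h : i = c
      · exact h.ge
      · obtain ⟨h1, h2⟩ := hX i hi h
        exact (ih _ h2 h1).trans h2.le
  have key : ∀ k : ℕ, ∃ φ : ℕ → V, (∀ i ∈ X, i < k → φ i ∈ S i) ∧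
      Set.InjOn φ {i | i ∈ X ∧ i < k} ∧
      ∀ i ∈ X, i < k → i ≠ c → G.Adj (φ (p i)) (φ i) := by
    intro k
    induction k with
    | zero =>
      obtain ⟨v, hv⟩ := hc
      refine ⟨fun _ => v, by simp, ?_, by simp⟩
      intro i hi
      exact absurd hi.2 (by simp)
    | succ k ih =>
      obtain ⟨φ, h1, h2, h3⟩ := ih
      by_cases hk : k ∈ X
      · -- the new vertex
        have hnew : ∃ u ∈ S k, (∀ i ∈ X, i < k → φ i ≠ u) ∧ (k ≠ c → G.Adj (φ (p k)) u) := by
          by_cases hkc : k = c
          · subst hkc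
            obtain ⟨v, hv⟩ := hc
            refine ⟨v, hv, ?_, fun h => absurd rfl h⟩
            intro i hi hik
            exact absurd (hcmin i hi) (not_le.2 hik)
          · obtain ⟨hp1, hp2⟩ := hX k hk hkc
            have hcard := hS k hk hkc (φ (p k)) (h1 _ hp1 hp2)
            have hlt : #((X.filter (· < k)).image φ) < #{u ∈ S k | G.Adj (φ (p k)) u} := by
              refine lt_of_le_of_lt card_image_le (lt_of_lt_of_le ?_ hcard)
              apply Finset.card_lt_card
              refine ⟨filter_subset _ _, fun hsub => ?_⟩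
              have := hsub hk
              simp at this
            obtain ⟨u, hu, hu'⟩ := Finset.exists_mem_notMem_of_card_lt_card hlt
            rw [mem_filter] at hu
            refine ⟨u, hu.1, ?_, fun _ => hu.2⟩
            intro i hi hik hEq
            apply hu'
            rw [mem_image]
            exact ⟨i, by simp [hi, hik], hEq⟩
        obtain ⟨u, hu1, hu2, hu3⟩ := hnew
        refine ⟨Function.update φ k u, ?_, ?_, ?_⟩
        · intro i hi hik
          by_cases hik' : i = k
          · subst hik'; simpa using hu1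
          · rw [Function.update_of_ne hik']
            exact h1 i hi (by omega)
        · intro i hi j hj hij
          simp only [Set.mem_ofPred_eq] at hi hj
          by_cases hik : i = k <;> by_cases hjk : j = k
          · rw [hik, hjk]
          · rw [hik, Function.update_self, Function.update_of_ne hjk] at hij
            exact absurd hij.symm (hu2 j hj.1 (by omega))
          · rw [hjk, Function.update_self, Function.update_of_ne hik] at hij
            exact absurd hij (hu2 i hi.1 (by omega))
          · rw [Function.update_of_ne hik, Function.update_of_ne hjk] at hij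
            exact h2 ⟨hi.1, by omega⟩ ⟨hj.1, by omega⟩ hij
        · intro i hi hik hic
          obtain ⟨hp1, hp2⟩ := hX i hi hic
          by_cases hik' : i = k
          · subst hik'
            rw [Function.update_self, Function.update_of_ne (by omega)]
            exact hu3 hic
          · rw [Function.update_of_ne hik', Function.update_of_ne (by omega)]
            exact h3 i hi (by omega) hic
      · refine ⟨φ, ?_, ?_, ?_⟩
        · intro i hi hik
          exact h1 i hi (by
            rcases Nat.lt_succ_iff_lt_or_eq.1 hik with h | h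
            · exact h
            · exact absurd (h ▸ hi) hk)
        · intro i hi j hj hij
          have e1 : i ≠ k := fun h => hk (h ▸ hi.1)
          have e2 : j ≠ k := fun h => hk (h ▸ hj.1)
          have h3' := hi.2
          have h4' := hj.2
          exact h2 ⟨hi.1, by omega⟩ ⟨hj.1, by omega⟩ hij
        · intro i hi hik hic
          have e1 : i ≠ k := fun h => hk (h ▸ hi)
          exact h3 i hi (by omega) hic
  obtain ⟨φ, h1, h2, h3⟩ := key (X.sup id + 1)
  have hb : ∀ i ∈ X, i < X.sup id + 1 := fun i hi =>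
    Nat.lt_succ_of_le (Finset.le_sup (f := id) hi)
  refine ⟨φ, fun i hi => h1 i hi (hb i hi), ?_, fun i hi hic => h3 i hi (hb i hi) hic⟩
  intro i hi j hj hij
  exact h2 ⟨hi, hb i hi⟩ ⟨hj, hb j hj⟩ hij

/-- Rounding with second moments: independent choices with distribution `q`. -/
theorem rounding {κ α τ : Type*} [DecidableEq κ] [Fintype α] [Fintype τ]
    (q : α → ℝ) (hq0 : ∀ a, 0 ≤ q a) (hq1 : ∑ a, q a = 1) (S : Finset κ)
    (g : κ → α → τ → ℝ) (D : τ → ℝ) :
    ∃ f : κ → α, (∀ X ∈ S, 0 < q (f X)) ∧
      ∑ t, (D t + ∑ X ∈ S, (g X (f X) t - ∑ a, q a * g X a t)) ^ 2 ≤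
        ∑ t, D t ^ 2 + ∑ X ∈ S, ∑ a, q a * ∑ t, g X a t ^ 2 := by
  classical
  have hne : ∃ a, 0 < q a := by
    by_contra hcon
    push Not at hcon
    have : ∑ a, q a = 0 := Finset.sum_eq_zero fun a _ => le_antisymm (hcon a) (hq0 a)
    rw [hq1] at this
    exact one_ne_zero this
  induction S using Finset.induction_on with
  | empty =>
    obtain ⟨a, _⟩ := hne
    exact ⟨fun _ => a, by simp, by simp⟩
  | insert X S hX ih =>
    obtain ⟨f, hf, hle⟩ := ih
    set D' : τ → ℝ := fun t => D t + ∑ Y ∈ S, (g Y (f Y) t - ∑ a, q a * g Y a t) with hD'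
    -- there is a choice for `X` below the mean
    have hmean : ∑ a, q a * ∑ t, (D' t + (g X a t - ∑ b, q b * g X b t)) ^ 2 ≤
        ∑ t, D' t ^ 2 + ∑ a, q a * ∑ t, g X a t ^ 2 := by
      have h1 : ∀ t, ∑ a, q a * (D' t + (g X a t - ∑ b, q b * g X b t)) ^ 2 ≤
          D' t ^ 2 + ∑ a, q a * g X a t ^ 2 := by
        intro t
        set μ := ∑ b, q b * g X b t with hμ
        have e1 : ∑ a, q a * (D' t + (g X a t - μ)) ^ 2 =
            (∑ a, q a) * (D' t - μ) ^ 2 + 2 * (D' t - μ) * (∑ a, q a * g X a t) +
              ∑ a, q a * g X a t ^ 2 := by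
          rw [Finset.sum_mul, Finset.mul_sum, ← Finset.sum_add_distrib, ← Finset.sum_add_distrib]
          refine Finset.sum_congr rfl fun a _ => ?_
          ring
        rw [e1, hq1, ← hμ]
        nlinarith [sq_nonneg μ]
      calc ∑ a, q a * ∑ t, (D' t + (g X a t - ∑ b, q b * g X b t)) ^ 2
          = ∑ t, ∑ a, q a * (D' t + (g X a t - ∑ b, q b * g X b t)) ^ 2 := by
            rw [Finset.sum_comm]
            exact Finset.sum_congr rfl fun a _ => Finset.mul_sum _ _ _
        _ ≤ ∑ t, (D' t ^ 2 + ∑ a, q a * g X a t ^ 2) := Finset.sum_le_sum fun t _ => h1 t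
        _ = _ := by
            rw [Finset.sum_add_distrib, Finset.sum_comm (s := univ (α := τ))]
            congr 1
            exact Finset.sum_congr rfl fun a _ => (Finset.mul_sum _ _ _).symm
    obtain ⟨a, ha, hale⟩ : ∃ a, 0 < q a ∧
        ∑ t, (D' t + (g X a t - ∑ b, q b * g X b t)) ^ 2 ≤
          ∑ t, D' t ^ 2 + ∑ a, q a * ∑ t, g X a t ^ 2 := by
      by_contra hcon
      push Not at hcon
      set K := ∑ t, D' t ^ 2 + ∑ a, q a * ∑ t, g X a t ^ 2 with hK
      have : ∑ a, q a * K < ∑ a, q a * ∑ t, (D' t + (g X a t - ∑ b, q b * g X b t)) ^ 2 := by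
        obtain ⟨a₀, ha₀⟩ := hne
        refine Finset.sum_lt_sum (fun a _ => ?_) ⟨a₀, mem_univ _, ?_⟩
        · rcases (hq0 a).eq_or_lt with h | h
          · rw [← h]; simp
          · exact mul_le_mul_of_nonneg_left (hcon a h).le h.le
        · exact mul_lt_mul_of_pos_left (hcon a₀ ha₀) ha₀
      rw [← Finset.sum_mul, hq1, one_mul] at this
      exact absurd hmean (not_le.2 this)
    refine ⟨Function.update f X a, ?_, ?_⟩
    · intro Y hY
      by_cases hYX : Y = X
      · subst hYX; simpa using ha
      · rw [Function.update_of_ne hYX]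
        exact hf Y ((mem_insert.1 hY).resolve_left hYX)
    · have e1 : ∀ t, D t + ∑ Y ∈ insert X S, (g Y (Function.update f X a Y) t -
          ∑ b, q b * g Y b t) = D' t + (g X a t - ∑ b, q b * g X b t) := by
        intro t
        rw [Finset.sum_insert hX, Function.update_self, hD']
        have : ∑ Y ∈ S, (g Y (Function.update f X a Y) t - ∑ b, q b * g Y b t) =
            ∑ Y ∈ S, (g Y (f Y) t - ∑ b, q b * g Y b t) := by
          refine Finset.sum_congr rfl fun Y hY => ?_
          rw [Function.update_of_ne (by rintro rfl; exact hX hY)]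
        rw [this]
        ring
      simp only [e1]
      rw [Finset.sum_insert hX]
      linarith

/-- Choice of the edge `A B` of the weighted reduced graph. -/
theorem choose_edge {M : ℕ} (w : Fin M → Fin M → ℝ) (h0 : ∀ i j, 0 ≤ w i j)
    (hsymm : ∀ i j, w i j = w j i) (κ F : ℝ) (hκ : 0 < κ) (hF : 0 < F)
    (hFw : F + 2 * κ * M ^ 2 ≤ ∑ i, ∑ j, w i j)
    (oA eA oB eB : ℝ) (hoA : 0 ≤ oA) (heA : 0 ≤ eA) (hoB : 0 ≤ oB) (heB : 0 ≤ eB) :
    ∃ A B : Fin M, 0 < w A B ∧ κ * M ≤ ∑ j, w A j ∧ κ * M ≤ ∑ j, w B j ∧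
      oA * (1 / ∑ j, w A j) + eA * (∑ k, w A k / ((∑ j, w A j) * ∑ j, w k j)) +
        (oB * (1 / ∑ j, w B j) + eB * (∑ k, w B k / ((∑ j, w B j) * ∑ j, w k j))) ≤
      (oA + eA + oB + eB) * M / F := by
  classical
  set deg : Fin M → ℝ := fun i => ∑ j, w i j with hdeg
  have hdeg0 : ∀ i, 0 ≤ deg i := fun i => Finset.sum_nonneg fun j _ => h0 i j
  set Q : ℝ → ℝ → Fin M → ℝ := fun o e A =>
    o * (1 / deg A) + e * (∑ k, w A k / (deg A * deg k)) with hQ
  have hQ0 : ∀ o e A, 0 ≤ o → 0 ≤ e → 0 ≤ Q o e A := by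
    intro o e A ho he
    have : 0 ≤ ∑ k, w A k / (deg A * deg k) :=
      Finset.sum_nonneg fun k _ => div_nonneg (h0 _ _) (mul_nonneg (hdeg0 _) (hdeg0 _))
    have h2 : 0 ≤ 1 / deg A := by have := hdeg0 A; positivity
    positivity
  -- averages over all edges
  have hdegQ : ∀ o e, 0 ≤ o → 0 ≤ e → ∑ A, deg A * Q o e A ≤ (o + e) * M := by
    intro o e ho he
    have h1 : ∀ A, deg A * Q o e A ≤ o + e * ∑ k, w A k / deg k := by
      intro A
      rcases (hdeg0 A).eq_or_lt with h | h
      · rw [← h, zero_mul]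
        have : 0 ≤ ∑ k, w A k / deg k :=
          Finset.sum_nonneg fun k _ => div_nonneg (h0 _ _) (hdeg0 _)
        positivity
      · have e1 : deg A * (o * (1 / deg A)) = o := by field_simp
        have e2 : deg A * (e * ∑ k, w A k / (deg A * deg k)) = e * ∑ k, w A k / deg k := by
          rw [Finset.mul_sum, Finset.mul_sum, Finset.mul_sum]
          refine Finset.sum_congr rfl fun k _ => ?_
          rcases (hdeg0 k).eq_or_lt with hk | hk
          · rw [← hk]; simp
          · field_simp
        rw [hQ]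
        simp only
        rw [mul_add, e1, e2]
    have h2 : ∑ A, ∑ k, w A k / deg k ≤ M := by
      rw [Finset.sum_comm]
      calc ∑ k, ∑ A, w A k / deg k ≤ ∑ k : Fin M, (1 : ℝ) := by
            refine Finset.sum_le_sum fun k _ => ?_
            rw [← Finset.sum_div]
            have : ∑ A, w A k = deg k := Finset.sum_congr rfl fun A _ => hsymm _ _
            rw [this]
            exact div_self_le_one _
        _ = M := by simp
    calc ∑ A, deg A * Q o e A ≤ ∑ A, (o + e * ∑ k, w A k / deg k) :=
          Finset.sum_le_sum fun A _ => h1 A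
      _ = M * o + e * ∑ A, ∑ k, w A k / deg k := by
          rw [Finset.sum_add_distrib, ← Finset.mul_sum]
          simp
      _ ≤ M * o + e * M := by gcongr
      _ = (o + e) * M := by ring
  -- the good edges
  set good : Fin M → Prop := fun A => κ * M ≤ deg A with hgood
  set w' : Fin M → Fin M → ℝ := fun A B => if good A ∧ good B then w A B else 0 with hw'
  have hw'0 : ∀ A B, 0 ≤ w' A B := by
    intro A B
    simp only [hw']
    split_ifs
    · exact h0 _ _
    · exact le_rfl
  have hw'le : ∀ A B, w' A B ≤ w A B := by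
    intro A B
    simp only [hw']
    split_ifs
    · exact le_rfl
    · exact h0 _ _
  have hbad : ∑ A, (if good A then 0 else deg A) ≤ κ * M ^ 2 := by
    calc ∑ A, (if good A then 0 else deg A) ≤ ∑ A : Fin M, κ * M := by
          refine Finset.sum_le_sum fun A _ => ?_
          split_ifs with h
          · positivity
          · exact (not_le.1 h).le
      _ = κ * M ^ 2 := by simp; ring
  have hsum' : F ≤ ∑ A, ∑ B, w' A B := by
    have h1 : ∀ A B, w A B ≤ w' A B + (if good A then 0 else w A B) +
        (if good B then 0 else w A B) := by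
      intro A B
      have := h0 A B
      simp only [hw']
      by_cases hA : good A <;> by_cases hB : good B <;> simp [hA, hB, this]
    have h2 : ∑ A, ∑ B, w A B ≤ ∑ A, ∑ B, w' A B + ∑ A, ∑ B, (if good A then 0 else w A B) +
        ∑ A, ∑ B, (if good B then 0 else w A B) := by
      rw [← Finset.sum_add_distrib, ← Finset.sum_add_distrib]
      refine Finset.sum_le_sum fun A _ => ?_
      rw [← Finset.sum_add_distrib, ← Finset.sum_add_distrib]
      exact Finset.sum_le_sum fun B _ => h1 A B
    have h3 : ∑ A, ∑ B, (if good A then 0 else w A B) = ∑ A, (if good A then 0 else deg A) := by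
      refine Finset.sum_congr rfl fun A _ => ?_
      split_ifs
      · simp
      · rfl
    have h4 : ∑ A, ∑ B, (if good B then 0 else w A B) = ∑ A, (if good A then 0 else deg A) := by
      rw [Finset.sum_comm]
      refine Finset.sum_congr rfl fun A _ => ?_
      split_ifs
      · simp
      · exact Finset.sum_congr rfl fun B _ => hsymm _ _
    rw [h3, h4] at h2
    nlinarith
  have hmarg : ∀ A, ∑ B, w' A B ≤ deg A := fun A => Finset.sum_le_sum fun B _ => hw'le A B
  have hmarg' : ∀ B, ∑ A, w' A B ≤ deg B := by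
    intro B
    refine (Finset.sum_le_sum fun A _ => hw'le A B).trans ?_
    exact (Finset.sum_congr rfl fun A _ => hsymm _ _).le
  have htot : ∑ A, ∑ B, w' A B * (Q oA eA A + Q oB eB B) ≤ (oA + eA + oB + eB) * M := by
    have e1 : ∑ A, ∑ B, w' A B * (Q oA eA A + Q oB eB B) =
        ∑ A, (∑ B, w' A B) * Q oA eA A + ∑ B, (∑ A, w' A B) * Q oB eB B := by
      simp_rw [mul_add, Finset.sum_add_distrib, Finset.sum_mul]
      congr 1
      rw [Finset.sum_comm]
    rw [e1]
    have h1 : ∑ A, (∑ B, w' A B) * Q oA eA A ≤ (oA + eA) * M :=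
      (Finset.sum_le_sum fun A _ =>
        mul_le_mul_of_nonneg_right (hmarg A) (hQ0 _ _ _ hoA heA)).trans (hdegQ _ _ hoA heA)
    have h2 : ∑ B, (∑ A, w' A B) * Q oB eB B ≤ (oB + eB) * M :=
      (Finset.sum_le_sum fun A _ =>
        mul_le_mul_of_nonneg_right (hmarg' A) (hQ0 _ _ _ hoB heB)).trans (hdegQ _ _ hoB heB)
    linarith
  -- some good edge is below the average
  by_contra hcon
  push Not at hcon
  have hpos : ∃ A B, 0 < w' A B := by
    by_contra hc
    push Not at hc
    have : ∑ A, ∑ B, w' A B ≤ 0 :=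
      Finset.sum_nonpos fun A _ => Finset.sum_nonpos fun B _ => hc A B
    linarith
  set K := (oA + eA + oB + eB) * M / F with hK
  have hlt : ∀ A B, 0 < w' A B → K < Q oA eA A + Q oB eB B := by
    intro A B hAB
    have hg : good A ∧ good B := by
      by_contra h
      simp only [hw', if_neg h] at hAB
      exact lt_irrefl _ hAB
    have hwAB : 0 < w A B := hAB.trans_le (hw'le A B)
    exact hcon A B hwAB hg.1 hg.2
  have hsumlt : ∑ A, ∑ B, w' A B * K < ∑ A, ∑ B, w' A B * (Q oA eA A + Q oB eB B) := by
    obtain ⟨A₀, B₀, hAB⟩ := hpos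
    have hle : ∀ A B, w' A B * K ≤ w' A B * (Q oA eA A + Q oB eB B) := by
      intro A B
      rcases (hw'0 A B).eq_or_lt with h | h
      · rw [← h]; simp
      · exact mul_le_mul_of_nonneg_left (hlt A B h).le h.le
    refine Finset.sum_lt_sum (fun A _ => Finset.sum_le_sum fun B _ => hle A B)
      ⟨A₀, mem_univ _, ?_⟩
    exact Finset.sum_lt_sum (fun B _ => hle A₀ B)
      ⟨B₀, mem_univ _, mul_lt_mul_of_pos_left (hlt _ _ hAB) hAB⟩
  have hKF : K * F = (oA + eA + oB + eB) * M := by rw [hK]; field_simp
  have hK0 : 0 ≤ K := by rw [hK]; positivity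
  have : K * F ≤ ∑ A, ∑ B, w' A B * K := by
    simp_rw [← Finset.sum_mul]
    rw [mul_comm]
    exact mul_le_mul_of_nonneg_right hsum' hK0
  linarith

end Pool.Agent.DenseTree
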