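import Pool.Agent.DenseTree_dd15.Sys
import Pool.Agent.DenseTree_dd15.Greedy

/-!
# The position of a seed and the plan for its shrubs
-/

set_option autoImplicit false

namespace Pool.Agent.DenseTree

open Finset

/-- A good position for a seed: many neighbours in `RB` and in the sets `U E` for all but few
clusters `E`. -/
theorem seed_choice {V : Type*} [Fintype V] [DecidableEq V] {G : SimpleGraph V}
    [DecidableRel G.Adj] {M n : ℕ} {er d₀ : ℝ} (S : Sys G M n er d₀) (A B : Fin M)
    (hAB : 0 < S.w A B) (her : 0 < er) (S₀ RB F : Finset V) (hS₀ : S₀ ⊆ S.cl A)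
    (hRB : RB ⊆ S.cl B) (hRBc : er * ((n : ℝ) + 1) ≤ #RB) (U : Fin M → Finset V)
    (hU : ∀ E, U E ⊆ S.cl E) (hUc : ∀ E, er * ((n : ℝ) + 1) ≤ #(U E)) (s₁ : ℝ) (hs₁ : 0 < s₁)
    (hs : s₁ + #F + er * ((n : ℝ) + 1) ≤ #S₀) :
    ∃ a ∈ S₀, a ∉ F ∧ (d₀ - er) * #RB ≤ (#{u ∈ RB | G.Adj a u} : ℝ) ∧
      ∃ Bad : Finset (Fin M), (#Bad : ℝ) * s₁ ≤ M * (er * ((n : ℝ) + 1)) ∧
        ∀ E, E ∉ Bad → 0 < S.w A E →
          (S.w A E - er) * #(U E) ≤ (#{u ∈ U E | G.Adj a u} : ℝ) := by
  classical
  set B1 := {v ∈ S.cl A | (#{u ∈ RB | G.Adj v u} : ℝ) < (S.w A B - er) * #RB} with hB1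
  have hb1 : (#B1 : ℝ) ≤ er * ((n : ℝ) + 1) := S.reg A B hAB RB hRB hRBc
  set S₁ := S₀ \ (F ∪ B1) with hS₁
  have hS₁c : s₁ ≤ #S₁ := by
    have h1 := Finset.le_card_sdiff (F ∪ B1) S₀
    have h2 := card_union_le F B1
    have h3 : #S₀ ≤ #S₁ + #F + #B1 := by rw [hS₁]; omega
    have h4 : (#S₀ : ℝ) ≤ #S₁ + #F + #B1 := by exact_mod_cast h3
    linarith
  set bad : V → Finset (Fin M) := fun a =>
    {E | 0 < S.w A E ∧ (#{u ∈ U E | G.Adj a u} : ℝ) < (S.w A E - er) * #(U E)} with hbad
  -- double counting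
  have hdc : (∑ a ∈ S₁, (#(bad a) : ℝ)) ≤ M * (er * ((n : ℝ) + 1)) := by
    have e1 : (∑ a ∈ S₁, (#(bad a) : ℝ)) = ∑ E : Fin M, (#{a ∈ S₁ | E ∈ bad a} : ℝ) := by
      have h1 : ∀ a, (#(bad a) : ℝ) = ∑ E, if E ∈ bad a then (1 : ℝ) else 0 := by
        intro a; simp
      have h2 : ∀ E, (#{a ∈ S₁ | E ∈ bad a} : ℝ) = ∑ a ∈ S₁, if E ∈ bad a then (1 : ℝ) else 0 := by
        intro E; rw [Finset.card_filter]; push_cast; rfl
      simp_rw [h1, h2]
      exact sum_comm
    rw [e1]
    calc ∑ E : Fin M, (#{a ∈ S₁ | E ∈ bad a} : ℝ) ≤ ∑ E : Fin M, er * ((n : ℝ) + 1) := by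
          refine Finset.sum_le_sum fun E _ => ?_
          by_cases hE : 0 < S.w A E
          · refine le_trans ?_ (S.reg A E hE (U E) (hU E) (hUc E))
            have : {a ∈ S₁ | E ∈ bad a} ⊆
                {v ∈ S.cl A | (#{u ∈ U E | G.Adj v u} : ℝ) < (S.w A E - er) * #(U E)} := by
              intro a ha
              rw [mem_filter] at ha ⊢
              refine ⟨hS₀ (mem_sdiff.1 ha.1).1, ?_⟩
              have := ha.2
              simp only [hbad, mem_filter, mem_univ, true_and] at this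
              exact this.2
            exact_mod_cast card_le_card this
          · have : {a ∈ S₁ | E ∈ bad a} = ∅ := by
              rw [filter_eq_empty_iff]
              intro a _ ha
              simp only [hbad, mem_filter, mem_univ, true_and] at ha
              exact hE ha.1
            rw [this]
            simp only [card_empty, Nat.cast_zero]
            positivity
      _ = M * (er * ((n : ℝ) + 1)) := by simp
  obtain ⟨a, haS, ha⟩ : ∃ a ∈ S₁, (#(bad a) : ℝ) * s₁ ≤ M * (er * ((n : ℝ) + 1)) := by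
    by_contra hcon
    push Not at hcon
    have hne : S₁.Nonempty := by
      rw [nonempty_iff_ne_empty]
      intro h
      rw [h, card_empty, Nat.cast_zero] at hS₁c
      linarith
    have h1 : ∑ a ∈ S₁, (M * (er * ((n : ℝ) + 1))) < ∑ a ∈ S₁, (#(bad a) : ℝ) * s₁ :=
      Finset.sum_lt_sum_of_nonempty hne hcon
    rw [Finset.sum_const, nsmul_eq_mul, ← Finset.sum_mul] at h1
    have h0 : 0 ≤ (M : ℝ) * (er * ((n : ℝ) + 1)) := by positivity
    have h2 : s₁ * (M * (er * ((n : ℝ) + 1))) ≤ #S₁ * (M * (er * ((n : ℝ) + 1))) :=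
      mul_le_mul_of_nonneg_right hS₁c h0
    have h3 : (∑ a ∈ S₁, (#(bad a) : ℝ)) * s₁ ≤ M * (er * ((n : ℝ) + 1)) * s₁ :=
      mul_le_mul_of_nonneg_right hdc hs₁.le
    linarith
  have haS' := mem_sdiff.1 haS
  rw [mem_union, not_or] at haS'
  refine ⟨a, haS'.1, haS'.2.1, ?_, bad a, ha, ?_⟩
  · have h1 : (S.w A B - er) * #RB ≤ (#{u ∈ RB | G.Adj a u} : ℝ) := by
      by_contra hcon
      exact haS'.2.2 (by rw [hB1, mem_filter]; exact ⟨hS₀ haS'.1, not_le.1 hcon⟩)
    have h2 := S.dense A B hAB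
    have h3 : (0 : ℝ) ≤ #RB := by positivity
    nlinarith
  · intro E hE hw
    by_contra hcon
    apply hE
    simp only [hbad, mem_filter, mem_univ, true_and]
    exact ⟨hw, not_le.1 hcon⟩

/-- The plan for the shrubs of one seed (placed in the cluster `A`, with exceptional clusters
`Bad`): the shrub `c`, with `o c` vertices of odd and `e c` vertices of even level, is assigned the
pair `f c`. -/
theorem plan {M : ℕ} (w : Fin M → Fin M → ℝ) (h0 : ∀ i j, 0 ≤ w i j) (h1 : ∀ i j, w i j ≤ 1)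
    (hsymm : ∀ i j, w i j = w j i) (A : Fin M) (hA : 0 < ∑ j, w A j) (Bad : Finset (Fin M))
    (σ : ℝ) (hσ : 0 ≤ σ) (hBad : ∑ j, w A j ≤ (1 + σ) * ((∑ j, w A j) - #Bad))
    (Rt : Finset ℕ) (o e : ℕ → ℝ) (ho : ∀ c ∈ Rt, 1 ≤ o c) (he : ∀ c, 0 ≤ e c) (D : Fin M → ℝ) :
    ∃ (f : ℕ → Fin M × Fin M) (D' r : Fin M → ℝ),
      (∀ c ∈ Rt, (f c).1 ∉ Bad ∧ 0 < w A (f c).1 ∧ 0 < w (f c).1 (f c).2) ∧
      (∑ E, D' E ^ 2 + ∑ E, r E ^ 2 ≤ ∑ E, D E ^ 2 + ∑ c ∈ Rt, 2 * (o c + e c) ^ 2) ∧
      (∀ E, ∑ c ∈ Rt, ((if (f c).1 = E then o c else 0) + (if (f c).2 = E then e c else 0)) ≤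
        (1 + σ) * (∑ c ∈ Rt, (o c * (1 / ∑ j, w A j) +
          e c * ∑ k, w A k / ((∑ j, w A j) * ∑ j, w k j))) + D' E - D E) ∧
      (∀ E, ∑ c ∈ Rt, (if (f c).1 = E then (1 : ℝ) else 0) ≤
        #Rt * ((1 + σ) * (w A E / ∑ j, w A j)) + r E) := by
  classical
  set deg : Fin M → ℝ := fun i => ∑ j, w i j with hdeg
  have hdeg0 : ∀ i, 0 ≤ deg i := fun i => Finset.sum_nonneg fun j _ => h0 i j
  set w' : Fin M → ℝ := fun C => if C ∈ Bad then 0 else w A C with hw'
  have hw'0 : ∀ C, 0 ≤ w' C := by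
    intro C; simp only [hw']; split_ifs
    · exact le_rfl
    · exact h0 _ _
  have hw'le : ∀ C, w' C ≤ w A C := by
    intro C; simp only [hw']; split_ifs
    · exact h0 _ _
    · exact le_rfl
  set dG : ℝ := ∑ C, w' C with hdG
  have hdGle : deg A - #Bad ≤ dG := by
    have : deg A ≤ dG + #Bad := by
      have e1 : ∑ C, (w A C - w' C) ≤ #Bad := by
        calc ∑ C, (w A C - w' C) ≤ ∑ C, (if C ∈ Bad then (1 : ℝ) else 0) := by
              refine Finset.sum_le_sum fun C _ => ?_
              simp only [hw']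
              split_ifs
              · simpa using h1 A C
              · simp
          _ = #Bad := by simp
      rw [Finset.sum_sub_distrib] at e1
      simp only [hdeg, hdG]
      linarith
    linarith
  have hdGdeg : deg A ≤ (1 + σ) * dG := by
    refine hBad.trans ?_
    exact mul_le_mul_of_nonneg_left hdGle (by linarith)
  have hdG0 : 0 < dG := by
    by_contra hcon
    have : (1 + σ) * dG ≤ 0 := mul_nonpos_of_nonneg_of_nonpos (by linarith) (not_lt.1 hcon)
    linarith
  have hinv : 1 / dG ≤ (1 + σ) * (1 / deg A) := by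
    rw [mul_one_div, div_le_div_iff₀ hdG0 hA]
    linarith
  have hdegpos : ∀ C, 0 < w' C → 0 < deg C := by
    intro C hC
    have h2 : 0 < w A C := hC.trans_le (hw'le C)
    rw [hsymm] at h2
    exact h2.trans_le (Finset.single_le_sum (f := fun j => w C j) (fun j _ => h0 C j) (mem_univ A))
  set q : Fin M × Fin M → ℝ := fun a => w' a.1 / dG * (w a.1 a.2 / deg a.1) with hq
  have hq0 : ∀ a, 0 ≤ q a := fun a =>
    mul_nonneg (div_nonneg (hw'0 _) hdG0.le) (div_nonneg (h0 _ _) (hdeg0 _))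
  have hrow : ∀ C, w' C / dG * (∑ E, w C E / deg C) = w' C / dG := by
    intro C
    rcases (hw'0 C).eq_or_lt with h | h
    · rw [← h]; simp
    · rw [← Finset.sum_div]
      have : (∑ E, w C E) / deg C = 1 := div_self (hdegpos C h).ne'
      rw [this, mul_one]
  have hq1 : ∑ a, q a = 1 := by
    rw [Fintype.sum_prod_type]
    simp only [hq]
    simp_rw [← Finset.mul_sum, hrow, ← Finset.sum_div]
    exact div_self hdG0.ne'
  -- expectations
  have hexpC : ∀ E, ∑ a, q a * (if a.1 = E then (1 : ℝ) else 0) = w' E / dG := by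
    intro E
    rw [Fintype.sum_prod_type, Finset.sum_eq_single E]
    · simp only [if_true, mul_one, hq]
      rw [← Finset.mul_sum, hrow]
    · intro C _ hC
      simp [hC]
    · simp
  have hexpD : ∀ E, ∑ a, q a * (if a.2 = E then (1 : ℝ) else 0) ≤
      (1 + σ) * ∑ k, w A k / (deg A * deg k) := by
    intro E
    rw [Fintype.sum_prod_type, Finset.mul_sum]
    refine Finset.sum_le_sum fun C _ => ?_
    rw [Finset.sum_eq_single E]
    · simp only [if_true, mul_one, hq]
      rcases (hw'0 C).eq_or_lt with h | h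
      · rw [← h]
        simp only [zero_div, zero_mul]
        have := hdeg0 C
        have h3 := h0 A C
        positivity
      · have hC := hdegpos C h
        calc w' C / dG * (w C E / deg C) ≤ w A C / dG * (1 / deg C) := by
              have := hw'le C
              have := h1 C E
              have := h0 C E
              have := h0 A C
              gcongr
          _ = w A C * (1 / dG) * (1 / deg C) := by ring
          _ ≤ w A C * ((1 + σ) * (1 / deg A)) * (1 / deg C) := by
              have := h0 A C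
              gcongr
          _ = (1 + σ) * (w A C / (deg A * deg C)) := by
              field_simp
    · intro D _ hD
      simp [hD]
    · simp
  set g : ℕ → Fin M × Fin M → Fin M ⊕ Fin M → ℝ := fun c a t =>
    Sum.elim (fun E => (if a.1 = E then o c else 0) + (if a.2 = E then e c else 0))
      (fun E => if a.1 = E then 1 else 0) t with hg
  obtain ⟨f, hf1, hf2⟩ := rounding q hq0 hq1 Rt g (Sum.elim D (fun _ => 0))
  have hgsq : ∀ c ∈ Rt, ∀ a, ∑ t, g c a t ^ 2 ≤ 2 * (o c + e c) ^ 2 := by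
    intro c hc a
    rw [Fintype.sum_sum_type]
    simp only [hg, Sum.elim_inl, Sum.elim_inr]
    have hoc := ho c hc
    have hec := he c
    have e1 : ∑ E, ((if a.1 = E then o c else 0) + (if a.2 = E then e c else 0)) ^ 2 ≤
        (o c + e c) ^ 2 := by
      have h3 : ∑ E, ((if a.1 = E then o c else 0) + (if a.2 = E then e c else 0)) = o c + e c := by
        rw [Finset.sum_add_distrib]
        simp
      have h4 : ∀ E ∈ (univ : Finset (Fin M)),
          0 ≤ (if a.1 = E then o c else 0) + (if a.2 = E then e c else 0) := by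
        intro E _
        split_ifs <;> linarith
      calc ∑ E, ((if a.1 = E then o c else 0) + (if a.2 = E then e c else 0)) ^ 2
          ≤ ∑ E, ((if a.1 = E then o c else 0) + (if a.2 = E then e c else 0)) * (o c + e c) := by
            refine Finset.sum_le_sum fun E hE => ?_
            rw [sq]
            refine mul_le_mul_of_nonneg_left ?_ (h4 E hE)
            rw [← h3]
            exact Finset.single_le_sum h4 hE
        _ = (o c + e c) ^ 2 := by rw [← Finset.sum_mul, h3, sq]
    have e2 : ∑ E, (if a.1 = E then (1 : ℝ) else 0) ^ 2 ≤ (o c + e c) ^ 2 := by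
      have : ∑ E, (if a.1 = E then (1 : ℝ) else 0) ^ 2 = 1 := by simp
      rw [this]
      nlinarith
    linarith
  refine ⟨f, fun E => D E + ∑ c ∈ Rt, (g c (f c) (Sum.inl E) - ∑ a, q a * g c a (Sum.inl E)),
    fun E => ∑ c ∈ Rt, (g c (f c) (Sum.inr E) - ∑ a, q a * g c a (Sum.inr E)), ?_, ?_, ?_, ?_⟩
  · intro c hc
    have h := hf1 c hc
    have h2 : 0 < w' (f c).1 := by
      rcases (hw'0 (f c).1).eq_or_lt with h' | h'
      · simp only [hq, ← h', zero_div, zero_mul] at h
        exact absurd h (lt_irrefl _)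
      · exact h'
    refine ⟨?_, h2.trans_le (hw'le _), ?_⟩
    · intro hB
      simp only [hw', if_pos hB] at h2
      exact lt_irrefl _ h2
    · rcases (h0 (f c).1 (f c).2).eq_or_lt with h' | h'
      · simp only [hq, ← h', zero_div, mul_zero] at h
        exact absurd h (lt_irrefl _)
      · exact h'
  · have h3 := hf2
    rw [Fintype.sum_sum_type, Fintype.sum_sum_type] at h3
    simp only [Sum.elim_inl, Sum.elim_inr] at h3
    have h4 : ∑ c ∈ Rt, ∑ a, q a * ∑ t, g c a t ^ 2 ≤ ∑ c ∈ Rt, 2 * (o c + e c) ^ 2 := by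
      refine Finset.sum_le_sum fun c hc => ?_
      calc ∑ a, q a * ∑ t, g c a t ^ 2 ≤ ∑ a, q a * (2 * (o c + e c) ^ 2) :=
            Finset.sum_le_sum fun a _ => mul_le_mul_of_nonneg_left (hgsq c hc a) (hq0 a)
        _ = 2 * (o c + e c) ^ 2 := by rw [← Finset.sum_mul, hq1, one_mul]
    have h6 : ∑ _a₂ : Fin M, (0 : ℝ) ^ 2 = 0 := by simp
    simp only [zero_add] at h3
    rw [h6] at h3
    beta_reduce
    linarith
  · intro E
    have hexp : ∀ c ∈ Rt, ∑ a, q a * g c a (Sum.inl E) ≤ (1 + σ) * (o c * (1 / deg A) +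
        e c * ∑ k, w A k / (deg A * deg k)) := by
      intro c hc
      have e1 : ∑ a, q a * g c a (Sum.inl E) =
          o c * (∑ a, q a * (if a.1 = E then (1 : ℝ) else 0)) +
          e c * (∑ a, q a * (if a.2 = E then (1 : ℝ) else 0)) := by
        rw [Finset.mul_sum, Finset.mul_sum, ← Finset.sum_add_distrib]
        refine Finset.sum_congr rfl fun a _ => ?_
        simp only [hg, Sum.elim_inl]
        split_ifs <;> ring
      rw [e1, hexpC]
      have e2 : w' E / dG ≤ (1 + σ) * (1 / deg A) := by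
        calc w' E / dG ≤ 1 / dG := by
              have := (hw'le E).trans (h1 A E)
              gcongr
          _ ≤ _ := hinv
      have e3 := hexpD E
      have hoc := ho c hc
      have hec := he c
      calc o c * (w' E / dG) + e c * (∑ a, q a * (if a.2 = E then (1 : ℝ) else 0))
          ≤ o c * ((1 + σ) * (1 / deg A)) + e c * ((1 + σ) * ∑ k, w A k / (deg A * deg k)) := by
            gcongr
        _ = _ := by ring
    have hsum : ∑ c ∈ Rt, ∑ a, q a * g c a (Sum.inl E) ≤ (1 + σ) * (∑ c ∈ Rt,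
        (o c * (1 / deg A) + e c * ∑ k, w A k / (deg A * deg k))) := by
      rw [Finset.mul_sum]
      exact Finset.sum_le_sum fun c hc => hexp c hc
    beta_reduce
    rw [Finset.sum_sub_distrib]
    have e4 : ∑ c ∈ Rt, ((if (f c).1 = E then o c else 0) + (if (f c).2 = E then e c else 0)) =
        ∑ c ∈ Rt, g c (f c) (Sum.inl E) := rfl
    rw [e4]
    linarith
  · intro E
    have hexp : ∀ c, ∑ a, q a * g c a (Sum.inr E) ≤ (1 + σ) * (w A E / deg A) := by
      intro c
      have e1 : ∑ a, q a * g c a (Sum.inr E) = w' E / dG := hexpC E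
      rw [e1]
      calc w' E / dG ≤ w A E * (1 / dG) := by
            rw [mul_one_div]
            have := hw'le E
            gcongr
        _ ≤ w A E * ((1 + σ) * (1 / deg A)) := mul_le_mul_of_nonneg_left hinv (h0 _ _)
        _ = _ := by ring
    have hsum : ∑ c ∈ Rt, ∑ a, q a * g c a (Sum.inr E) ≤ #Rt * ((1 + σ) * (w A E / deg A)) := by
      calc ∑ c ∈ Rt, ∑ a, q a * g c a (Sum.inr E) ≤ ∑ c ∈ Rt, (1 + σ) * (w A E / deg A) :=
            Finset.sum_le_sum fun c _ => hexp c
        _ = _ := by rw [Finset.sum_const, nsmul_eq_mul]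
    beta_reduce
    rw [Finset.sum_sub_distrib]
    have e4 : ∑ c ∈ Rt, (if (f c).1 = E then (1 : ℝ) else 0) =
        ∑ c ∈ Rt, g c (f c) (Sum.inr E) := rfl
    rw [e4]
    linarith

end Pool.Agent.DenseTree
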