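import Pool.Agent.DenseTree_dd15.Phase
import Pool.Agent.DenseTree_dd15.Plan

/-!
# Embedding a tree with seeds into a cluster system
-/

set_option autoImplicit false

namespace Pool.Agent.DenseTree

open Finset

/-- A rooted tree on the numbers `0, ..., m - 1` with a set `W` of seeds. -/
structure TD (m L : ℕ) (p : ℕ → ℕ) (W : Finset ℕ) (anc root : ℕ → ℕ) (par : ℕ → Bool) :
    Prop where
  p_lt : ∀ i, 0 < i → p i < i
  zero_mem : 0 ∈ W
  par_ne : ∀ i, 0 < i → par i ≠ par (p i)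
  anc_mem : ∀ i, anc i ∈ W
  anc_self : ∀ i ∈ W, anc i = i
  anc_step : ∀ i, i ∉ W → anc i = anc (p i)
  root_self : ∀ i, i ∉ W → p i ∈ W → root i = i
  root_step : ∀ i, i ∉ W → p i ∉ W → root i = root (p i)
  seed : ∀ i ∈ W, i ≠ 0 → p i ∈ W ∨ par i = par (anc (p i))
  small : ∀ c, #{i ∈ range m | i ∉ W ∧ root i = c} ≤ L

/-- The shrub with root `c`. -/
def shrub (m : ℕ) (W : Finset ℕ) (root : ℕ → ℕ) (c : ℕ) : Finset ℕ :=
  {i ∈ range m | i ∉ W ∧ root i = c}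

/-- The roots of the shrubs hanging from the seed `k`. -/
def rts (m : ℕ) (W : Finset ℕ) (p : ℕ → ℕ) (k : ℕ) : Finset ℕ :=
  {c ∈ range m | c ∉ W ∧ p c = k}

/-- The roots of the shrubs hanging from the seeds below `k`. -/
def rtsLt (m : ℕ) (W : Finset ℕ) (p : ℕ → ℕ) (k : ℕ) : Finset ℕ :=
  {c ∈ range m | c ∉ W ∧ p c ∈ W ∧ p c < k}

namespace TD

variable {m L : ℕ} {p : ℕ → ℕ} {W : Finset ℕ} {anc root : ℕ → ℕ} {par : ℕ → Bool}

lemma pos_of_notMem (T : TD m L p W anc root par) {i : ℕ} (hi : i ∉ W) : 0 < i := by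
  rcases Nat.eq_zero_or_pos i with h | h
  · exact absurd (h ▸ T.zero_mem) hi
  · exact h

lemma anc_le (T : TD m L p W anc root par) (i : ℕ) : anc i ≤ i := by
  induction i using Nat.strong_induction_on with
  | _ i ih =>
    by_cases hi : i ∈ W
    · exact (T.anc_self i hi).le
    · rw [T.anc_step i hi]
      have h := T.p_lt i (T.pos_of_notMem hi)
      exact (ih _ h).trans h.le

lemma root_props (T : TD m L p W anc root par) (i : ℕ) (hi : i ∉ W) :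
    root i ∉ W ∧ root i ≤ i ∧ p (root i) = anc i ∧ root (root i) = root i := by
  induction i using Nat.strong_induction_on with
  | _ i ih =>
    have h := T.p_lt i (T.pos_of_notMem hi)
    by_cases hp : p i ∈ W
    · rw [T.root_self i hi hp]
      refine ⟨hi, le_rfl, ?_, T.root_self i hi hp⟩
      rw [T.anc_step i hi, T.anc_self _ hp]
    · rw [T.root_step i hi hp, T.anc_step i hi]
      obtain ⟨h1, h2, h3, h4⟩ := ih _ h hp
      exact ⟨h1, h2.trans h.le, h3, h4⟩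

lemma mem_rts (T : TD m L p W anc root par) {i : ℕ} (him : i < m) (hi : i ∉ W) :
    root i ∈ rts m W p (anc i) := by
  obtain ⟨h1, h2, h3, h4⟩ := T.root_props i hi
  simp only [rts, mem_filter, mem_range]
  exact ⟨by omega, h1, h3⟩

lemma mem_shrub {i : ℕ} (him : i < m) (hi : i ∉ W) : i ∈ shrub m W root (root i) := by
  simp [shrub, him, hi]

lemma rts_iff (T : TD m L p W anc root par) {k c : ℕ} (hk : k ∈ W) (hc : c ∈ rts m W p k) :
    c < m ∧ c ∉ W ∧ p c = k ∧ root c = c ∧ c ∈ shrub m W root c ∧ anc c = k := by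
  simp only [rts, mem_filter, mem_range] at hc
  obtain ⟨h1, h2, h3⟩ := hc
  have h4 := T.root_self c h2 (by rw [h3]; exact hk)
  refine ⟨h1, h2, h3, h4, ?_, ?_⟩
  · simp [shrub, h1, h2, h4]
  · rw [T.anc_step c h2, h3, T.anc_self k hk]

lemma shrub_iff {i c : ℕ} : i ∈ shrub m W root c ↔ i < m ∧ i ∉ W ∧ root i = c := by
  simp [shrub]

lemma shrub_tree (T : TD m L p W anc root par) {c i : ℕ}
    (hi : i ∈ shrub m W root c) (hic : i ≠ c) :
    p i ∈ shrub m W root c ∧ p i < i ∧ par i ≠ par (p i) := by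
  rw [shrub_iff] at hi
  obtain ⟨h1, h2, h3⟩ := hi
  have h0 := T.pos_of_notMem h2
  have h4 : p i ∉ W := by
    intro h
    have := T.root_self i h2 h
    omega
  have h5 := T.p_lt i h0
  refine ⟨?_, h5, T.par_ne i h0⟩
  rw [shrub_iff]
  exact ⟨by omega, h4, by rw [← T.root_step i h2 h4, h3]⟩

end TD

section Step

variable {V : Type*} [Fintype V] [DecidableEq V] {G : SimpleGraph V} [DecidableRel G.Adj]
  {M n : ℕ} {er d₀ : ℝ}

/-- The number of vertices of odd level of the shrub `c`. -/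
def oc (m : ℕ) (W : Finset ℕ) (root : ℕ → ℕ) (par : ℕ → Bool) (c : ℕ) : ℕ :=
  #{i ∈ shrub m W root c | par i = par c}

/-- The number of vertices of even level of the shrub `c`. -/
def ec (m : ℕ) (W : Finset ℕ) (root : ℕ → ℕ) (par : ℕ → Bool) (c : ℕ) : ℕ :=
  #{i ∈ shrub m W root c | par i ≠ par c}

lemma oc_add_ec (m : ℕ) (W : Finset ℕ) (root : ℕ → ℕ) (par : ℕ → Bool) (c : ℕ) :
    oc m W root par c + ec m W root par c = #(shrub m W root c) := by
  rw [oc, ec, Finset.card_filter_add_card_filter_not]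

/-- The cost of the shrub `c` if its seed is placed in the cluster `A`. -/
noncomputable def cost (w : Fin M → Fin M → ℝ) (A : Fin M) (o e : ℝ) : ℝ :=
  o * (1 / ∑ j, w A j) + e * ∑ k, w A k / ((∑ j, w A j) * ∑ j, w k j)

/-- The total cost of the shrubs hanging from seeds below `k`. -/
noncomputable def Yk (m : ℕ) (W : Finset ℕ) (p : ℕ → ℕ) (root : ℕ → ℕ) (par : ℕ → Bool)
    (w : Fin M → Fin M → ℝ) (sd : Bool → Fin M) (k : ℕ) : ℝ :=
  ∑ c ∈ rtsLt m W p k,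
    cost w (sd (par (p c))) (oc m W root par c) (ec m W root par c)

/-- The state after embedding the phases of all seeds below `k`. -/
structure St (S : Sys G M n er d₀) (m : ℕ) (p : ℕ → ℕ) (W : Finset ℕ) (anc root : ℕ → ℕ)
    (par : ℕ → Bool) (sd : Bool → Fin M) (Rs : Bool → Finset V) (Rn : ℕ) (σ : ℝ) (k : ℕ)
    (φ : ℕ → V) (D : Fin M → ℝ) : Prop where
  inj : Set.InjOn φ {i | i < m ∧ anc i < k}
  adj : ∀ i, i < m → 0 < i → anc i < k → G.Adj (φ (p i)) (φ i)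
  avoid : ∀ i, i < m → i ∉ W → anc i < k → ∀ b, φ i ∉ Rs b
  seedR : ∀ i ∈ W, i < m → i < k → φ i ∈ Rs (par i)
  oddR : ∀ i, i < m → i ∉ W → anc i < k → par i ≠ par (anc i) →
    (d₀ - er) * Rn ≤ (#{u ∈ Rs (par (anc i)) | G.Adj (φ i) u} : ℝ)
  seedR' : ∀ i ∈ W, i < m → i < k → (d₀ - er) * Rn ≤ (#{u ∈ Rs (!par i) | G.Adj (φ i) u} : ℝ)
  used : ∀ E, (#{i ∈ range m | i ∉ W ∧ anc i < k ∧ φ i ∈ S.cl E} : ℝ) ≤
    (1 + σ) * Yk m W p root par S.w sd k + D E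
  dev : ∑ E, D E ^ 2 ≤ ∑ c ∈ rtsLt m W p k, 2 * ((#(shrub m W root c) : ℝ)) ^ 2

/-- The numerical hypotheses. -/
structure Num (S : Sys G M n er d₀) (m L : ℕ) (p : ℕ → ℕ) (W : Finset ℕ) (root : ℕ → ℕ)
    (par : ℕ → Bool) (sd : Bool → Fin M) (Rs : Bool → Finset V) (Rn K : ℕ) (σ Δ Ymax s₁ : ℝ) :
    Prop where
  er_pos : 0 < er
  er_le : er ≤ d₀
  sd_adj : 0 < S.w (sd true) (sd false)
  Rs_sub : ∀ b, Rs b ⊆ S.cl (sd b)
  Rs_card : ∀ b, #(Rs b) = Rn
  s₁_pos : 0 < s₁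
  seeds : s₁ + #W + er * ((n : ℝ) + 1) ≤ (d₀ - er) * Rn
  Rn_ge : er * ((n : ℝ) + 1) ≤ Rn
  σ_nonneg : 0 ≤ σ
  bad : ∀ b, M * (er * ((n : ℝ) + 1)) * (1 + σ) ≤ σ * (∑ j, S.w (sd b) j) * s₁
  Δ_nonneg : 0 ≤ Δ
  dev : ∑ c ∈ rtsLt m W p m, 2 * ((#(shrub m W root c) : ℝ)) ^ 2 ≤ Δ ^ 2
  hY : (1 + σ) * Yk m W p root par S.w sd m ≤ Ymax
  h2 : Δ + K + er * ((n : ℝ) + 1) ≤ d₀ * (n - Rn - Δ - Ymax)
  h3 : 2 * (K : ℝ) ≤ n - Rn - Δ - Ymax
  hK : 2 * (er * ((n : ℝ) + 1)) ≤ K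
  hL : (L : ℝ) ≤ (d₀ - er) * K - 2 * (er * ((n : ℝ) + 1))

lemma cost_nonneg (S : Sys G M n er d₀) (A : Fin M) {o e : ℝ} (ho : 0 ≤ o) (he : 0 ≤ e) :
    0 ≤ cost S.w A o e := by
  have hd : ∀ i, 0 ≤ ∑ j, S.w i j := fun i => Finset.sum_nonneg fun j _ => S.nonneg i j
  have h1 : 0 ≤ 1 / ∑ j, S.w A j := by have := hd A; positivity
  have h2 : 0 ≤ ∑ k, S.w A k / ((∑ j, S.w A j) * ∑ j, S.w k j) :=
    Finset.sum_nonneg fun k _ => div_nonneg (S.nonneg _ _) (mul_nonneg (hd _) (hd _))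
  unfold cost
  positivity

lemma rtsLt_mono {m : ℕ} {W : Finset ℕ} {p : ℕ → ℕ} {k l : ℕ} (h : k ≤ l) :
    rtsLt m W p k ⊆ rtsLt m W p l := by
  intro c hc
  simp only [rtsLt, mem_filter] at hc ⊢
  exact ⟨hc.1, hc.2.1, hc.2.2.1, by omega⟩

lemma Yk_mono (S : Sys G M n er d₀) {m : ℕ} {W : Finset ℕ} {p : ℕ → ℕ} {root : ℕ → ℕ}
    {par : ℕ → Bool} {sd : Bool → Fin M} {k l : ℕ} (h : k ≤ l) :
    Yk m W p root par S.w sd k ≤ Yk m W p root par S.w sd l := by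
  unfold Yk
  refine Finset.sum_le_sum_of_subset_of_nonneg (rtsLt_mono h) fun c _ _ => ?_
  exact cost_nonneg S _ (by positivity) (by positivity)

lemma rtsLt_le_m {m : ℕ} {W : Finset ℕ} {p : ℕ → ℕ} {anc root : ℕ → ℕ} {par : ℕ → Bool} {L : ℕ}
    (T : TD m L p W anc root par) (k : ℕ) : rtsLt m W p k ⊆ rtsLt m W p m := by
  intro c hc
  simp only [rtsLt, mem_filter, mem_range] at hc ⊢
  have := T.p_lt c (T.pos_of_notMem hc.2.1)
  exact ⟨hc.1, hc.2.1, hc.2.2.1, by omega⟩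

lemma rtsLt_succ {m : ℕ} {W : Finset ℕ} {p : ℕ → ℕ} {k : ℕ} (hk : k ∈ W) {β : Type*}
    [AddCommMonoid β] (g : ℕ → β) :
    ∑ c ∈ rtsLt m W p (k + 1), g c = ∑ c ∈ rtsLt m W p k, g c + ∑ c ∈ rts m W p k, g c := by
  rw [← Finset.sum_union]
  · congr 1
    ext c
    simp only [rtsLt, rts, mem_filter, mem_union, mem_range]
    constructor
    · rintro ⟨h1, h2, h3, h4⟩
      by_cases h : p c = k
      · exact Or.inr ⟨h1, h2, h⟩
      · exact Or.inl ⟨h1, h2, h3, by omega⟩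
    · rintro (⟨h1, h2, h3, h4⟩ | ⟨h1, h2, h3⟩)
      · exact ⟨h1, h2, h3, by omega⟩
      · exact ⟨h1, h2, h3 ▸ hk, by omega⟩
  · rw [Finset.disjoint_left]
    intro c hc hc'
    simp only [rtsLt, rts, mem_filter] at hc hc'
    omega

/-- Steps at numbers which are not seeds. -/
theorem St.skip {S : Sys G M n er d₀} {m L : ℕ} {p : ℕ → ℕ} {W : Finset ℕ} {anc root : ℕ → ℕ}
    {par : ℕ → Bool} {sd : Bool → Fin M} {Rs : Bool → Finset V} {Rn : ℕ} {σ : ℝ} {k : ℕ}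
    {φ : ℕ → V} {D : Fin M → ℝ} (T : TD m L p W anc root par) (hk : k ∉ W)
    (h : St S m p W anc root par sd Rs Rn σ k φ D) :
    St S m p W anc root par sd Rs Rn σ (k + 1) φ D := by
  have e1 : ∀ i, anc i < k + 1 ↔ anc i < k := by
    intro i
    have : anc i ≠ k := fun h => hk (h ▸ T.anc_mem i)
    omega
  have e2 : rtsLt m W p (k + 1) = rtsLt m W p k := by
    ext c
    simp only [rtsLt, mem_filter]
    constructor
    · rintro ⟨h1, h2, h3, h4⟩
      have : p c ≠ k := fun h => hk (h ▸ h3)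
      exact ⟨h1, h2, h3, by omega⟩
    · rintro ⟨h1, h2, h3, h4⟩
      exact ⟨h1, h2, h3, by omega⟩
  have e3 : Yk m W p root par S.w sd (k + 1) = Yk m W p root par S.w sd k := by
    unfold Yk; rw [e2]
  have e4 : ∀ i ∈ W, i < k + 1 → i < k := by
    intro i hi hik
    have : i ≠ k := fun h => hk (h ▸ hi)
    omega
  refine ⟨?_, ?_, ?_, ?_, ?_, ?_, ?_, ?_⟩
  · simpa only [e1] using h.inj
  · simpa only [e1] using h.adj
  · simpa only [e1] using h.avoid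
  · exact fun i hi him hik => h.seedR i hi him (e4 i hi hik)
  · simpa only [e1] using h.oddR
  · exact fun i hi him hik => h.seedR' i hi him (e4 i hi hik)
  · intro E
    rw [e3]
    simpa only [e1] using h.used E
  · rw [e2]; exact h.dev

end Step

end Pool.Agent.DenseTree
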