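import Pool.Agent.DenseTree_dd15.Sys
import Pool.Agent.DenseTree_dd15.Greedy

/-!
# Embedding of one shrub and of all shrubs of one seed
-/

set_option autoImplicit false

namespace Pool.Agent.DenseTree

open Finset

variable {V : Type*} [Fintype V] [DecidableEq V] {G : SimpleGraph V} [DecidableRel G.Adj]
  {M n : ℕ} {er d₀ : ℝ}

/-- Embedding of one shrub `X` (with root `c`) into the pair `C D`; the root goes to `P`, the
other vertices of the same parity to `QC`, the rest to `QD`; the vertices in `C` have many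
neighbours in `R`. -/
theorem shrub_embed (S : Sys G M n er d₀) (X : Finset ℕ) (c : ℕ) (p : ℕ → ℕ) (par : ℕ → Bool)
    (hcX : c ∈ X) (hX : ∀ i ∈ X, i ≠ c → p i ∈ X ∧ p i < i)
    (hpar : ∀ i ∈ X, i ≠ c → par i ≠ par (p i))
    (C D A : Fin M) (hCD : 0 < S.w C D) (hCA : 0 < S.w C A)
    (P QC QD R : Finset V) (hP : P ⊆ S.cl C) (hQC : QC ⊆ S.cl C) (hQD : QD ⊆ S.cl D)
    (hR : R ⊆ S.cl A) (her : 0 < er) (hed : er ≤ d₀) (K : ℕ)
    (hcP : 2 * (er * ((n : ℝ) + 1)) < #P) (hKC : K ≤ #QC) (hKD : K ≤ #QD)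
    (hK : er * ((n : ℝ) + 1) ≤ K) (hRc : er * ((n : ℝ) + 1) ≤ #R)
    (hL : (#X : ℝ) ≤ (d₀ - er) * K - 2 * (er * ((n : ℝ) + 1))) :
    ∃ φ : ℕ → V, φ c ∈ P ∧ (∀ i ∈ X, i ≠ c → par i = par c → φ i ∈ QC) ∧
      (∀ i ∈ X, par i ≠ par c → φ i ∈ QD) ∧ Set.InjOn φ X ∧
      (∀ i ∈ X, i ≠ c → G.Adj (φ (p i)) (φ i)) ∧
      (∀ i ∈ X, par i = par c → (d₀ - er) * #R ≤ (#{u ∈ R | G.Adj (φ i) u} : ℝ)) := by
  classical
  set B1 := {v ∈ S.cl C | (#{u ∈ QD | G.Adj v u} : ℝ) < (S.w C D - er) * #QD} with hB1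
  set B2 := {v ∈ S.cl C | (#{u ∈ R | G.Adj v u} : ℝ) < (S.w C A - er) * #R} with hB2
  set B3 := {v ∈ S.cl D | (#{u ∈ QC | G.Adj v u} : ℝ) < (S.w D C - er) * #QC} with hB3
  have hDC : 0 < S.w D C := by rw [S.symm]; exact hCD
  have hb1 : (#B1 : ℝ) ≤ er * ((n : ℝ) + 1) :=
    S.reg C D hCD QD hQD (hK.trans (by exact_mod_cast hKD))
  have hb2 : (#B2 : ℝ) ≤ er * ((n : ℝ) + 1) := S.reg C A hCA R hR hRc
  have hb3 : (#B3 : ℝ) ≤ er * ((n : ℝ) + 1) :=
    S.reg D C hDC QC hQC (hK.trans (by exact_mod_cast hKC))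
  have hdCD := S.dense C D hCD
  have hdCA := S.dense C A hCA
  have hdDC := S.dense D C hDC
  set T : ℕ → Finset V := fun i =>
    if i = c then P \ (B1 ∪ B2) else if par i = par c then QC \ (B1 ∪ B2) else QD \ B3 with hT
  have hB12 : (#(B1 ∪ B2) : ℝ) ≤ 2 * (er * ((n : ℝ) + 1)) := by
    have : (#(B1 ∪ B2) : ℝ) ≤ #B1 + #B2 := by exact_mod_cast card_union_le _ _
    linarith
  -- members of the candidate sets of `C`-type
  have hTC : ∀ i v, par i = par c → v ∈ T i → v ∈ S.cl C ∧ v ∉ B1 ∧ v ∉ B2 := by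
    intro i v hi hv
    simp only [hT] at hv
    split_ifs at hv with h
    · rw [mem_sdiff, mem_union, not_or] at hv
      exact ⟨hP hv.1, hv.2.1, hv.2.2⟩
    · rw [mem_sdiff, mem_union, not_or] at hv
      exact ⟨hQC hv.1, hv.2.1, hv.2.2⟩
  have hTD : ∀ i v, par i ≠ par c → v ∈ T i → v ∈ QD ∧ v ∉ B3 := by
    intro i v hi hv
    have hic : i ≠ c := fun h => hi (h ▸ rfl)
    simp only [hT, if_neg hic, if_neg hi] at hv
    exact mem_sdiff.1 hv
  obtain ⟨φ, h1, h2, h3⟩ := greedy_embed G X c p T hcX hX (by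
      simp only [hT, if_pos rfl]
      by_contra hcon
      rw [not_nonempty_iff_eq_empty, sdiff_eq_empty_iff_subset] at hcon
      have : (#P : ℝ) ≤ #(B1 ∪ B2) := by exact_mod_cast card_le_card hcon
      linarith) (by
      intro i hi hic v hv
      have hpp := hpar i hi hic
      by_cases hpi : par i = par c
      · -- `i` of C-type, the parent of D-type
        have hppc : par (p i) ≠ par c := fun h => hpp (hpi.trans h.symm)
        obtain ⟨hv1, hv2⟩ := hTD _ v hppc hv
        have hdeg : (S.w D C - er) * #QC ≤ (#{u ∈ QC | G.Adj v u} : ℝ) := by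
          by_contra hcon
          exact hv2 (by rw [hB3, mem_filter]; exact ⟨hQD hv1, not_le.1 hcon⟩)
        have hsub : {u ∈ QC | G.Adj v u} \ (B1 ∪ B2) ⊆ {u ∈ T i | G.Adj v u} := by
          intro u hu
          simp only [hT, if_neg hic, if_pos hpi, mem_filter, mem_sdiff] at hu ⊢
          exact ⟨⟨hu.1.1, hu.2⟩, hu.1.2⟩
        have hcard : (#{u ∈ QC | G.Adj v u} : ℝ) - #(B1 ∪ B2) ≤ #{u ∈ T i | G.Adj v u} := by
          have h5 := card_le_card hsub
          have h6 := Finset.le_card_sdiff (B1 ∪ B2) {u ∈ QC | G.Adj v u}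
          have h7 : #{u ∈ QC | G.Adj v u} ≤ #{u ∈ T i | G.Adj v u} + #(B1 ∪ B2) := by omega
          have h8 : (#{u ∈ QC | G.Adj v u} : ℝ) ≤ #{u ∈ T i | G.Adj v u} + #(B1 ∪ B2) := by
            exact_mod_cast h7
          linarith
        have hmul : (d₀ - er) * K ≤ (S.w D C - er) * #QC := by
          have : (K : ℝ) ≤ #QC := by exact_mod_cast hKC
          have h0K : (0 : ℝ) ≤ K := by positivity
          nlinarith
        have : (#X : ℝ) ≤ #{u ∈ T i | G.Adj v u} := by linarith
        exact_mod_cast this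
      · have hppc : par (p i) = par c := by
          revert hpp hpi
          cases par i <;> cases par (p i) <;> cases par c <;> simp
        obtain ⟨hv1, hv2, hv3⟩ := hTC _ v hppc hv
        have hdeg : (S.w C D - er) * #QD ≤ (#{u ∈ QD | G.Adj v u} : ℝ) := by
          by_contra hcon
          exact hv2 (by rw [hB1, mem_filter]; exact ⟨hv1, not_le.1 hcon⟩)
        have hsub : {u ∈ QD | G.Adj v u} \ B3 ⊆ {u ∈ T i | G.Adj v u} := by
          intro u hu
          simp only [hT, if_neg hic, if_neg hpi, mem_filter, mem_sdiff] at hu ⊢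
          exact ⟨⟨hu.1.1, hu.2⟩, hu.1.2⟩
        have hcard : (#{u ∈ QD | G.Adj v u} : ℝ) - #B3 ≤ #{u ∈ T i | G.Adj v u} := by
          have h5 := card_le_card hsub
          have h6 := Finset.le_card_sdiff B3 {u ∈ QD | G.Adj v u}
          have h7 : #{u ∈ QD | G.Adj v u} ≤ #{u ∈ T i | G.Adj v u} + #B3 := by omega
          have h8 : (#{u ∈ QD | G.Adj v u} : ℝ) ≤ #{u ∈ T i | G.Adj v u} + #B3 := by
            exact_mod_cast h7
          linarith
        have hmul : (d₀ - er) * K ≤ (S.w C D - er) * #QD := by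
          have : (K : ℝ) ≤ #QD := by exact_mod_cast hKD
          have h0K : (0 : ℝ) ≤ K := by positivity
          nlinarith
        have h0 : 0 < er * ((n : ℝ) + 1) := by positivity
        have : (#X : ℝ) ≤ #{u ∈ T i | G.Adj v u} := by linarith
        exact_mod_cast this)
  refine ⟨φ, ?_, ?_, ?_, h2, h3, ?_⟩
  · have := h1 c hcX
    simp only [hT, if_pos rfl] at this
    exact (mem_sdiff.1 this).1
  · intro i hi hic hpi
    have := h1 i hi
    simp only [hT, if_neg hic, if_pos hpi] at this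
    exact (mem_sdiff.1 this).1
  · intro i hi hpi
    exact (hTD i _ hpi (h1 i hi)).1
  · intro i hi hpi
    obtain ⟨e1, e2, e3⟩ := hTC i _ hpi (h1 i hi)
    have hdeg : (S.w C A - er) * #R ≤ (#{u ∈ R | G.Adj (φ i) u} : ℝ) := by
      by_contra hcon
      exact e3 (by rw [hB2, mem_filter]; exact ⟨e1, not_le.1 hcon⟩)
    have h0R : (0 : ℝ) ≤ #R := by positivity
    nlinarith

/-- Embedding of all shrubs of one seed. -/
theorem phase_embed (S : Sys G M n er d₀) (p : ℕ → ℕ) (par : ℕ → Bool) (A : Fin M)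
    (R : Finset V) (hR : R ⊆ S.cl A) (her : 0 < er) (hed : er ≤ d₀) (K L : ℕ)
    (hK : 2 * (er * ((n : ℝ) + 1)) ≤ K) (hRc : er * ((n : ℝ) + 1) ≤ #R)
    (hL : (L : ℝ) ≤ (d₀ - er) * K - 2 * (er * ((n : ℝ) + 1)))
    (X : ℕ → Finset ℕ) (f : ℕ → Fin M × Fin M) (Rt : Finset ℕ) :
    ∀ (P Q : Fin M → Finset V), (∀ E, P E ⊆ S.cl E) → (∀ E, Q E ⊆ S.cl E) →
    (∀ E, Disjoint (P E) (Q E)) →
    (∀ c ∈ Rt, c ∈ X c ∧ ∀ i ∈ X c, i ≠ c → p i ∈ X c ∧ p i < i ∧ par i ≠ par (p i)) →
    (∀ c ∈ Rt, ∀ c' ∈ Rt, c ≠ c' → Disjoint (X c) (X c')) →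
    (∀ c ∈ Rt, #(X c) ≤ L) →
    (∀ c ∈ Rt, 0 < S.w (f c).1 (f c).2 ∧ 0 < S.w (f c).1 A) →
    (∀ c ∈ Rt, #{c' ∈ Rt | (f c').1 = (f c).1} + K ≤ #(P (f c).1)) →
    (∀ E, ∑ c ∈ Rt, ((if (f c).1 = E then #{i ∈ X c | par i = par c ∧ i ≠ c} else 0) +
      (if (f c).2 = E then #{i ∈ X c | par i ≠ par c} else 0)) + K ≤ #(Q E)) →
    ∃ φ : ℕ → V, (∀ c ∈ Rt, φ c ∈ P (f c).1 ∧ ∀ i ∈ X c,
        (i ≠ c → par i = par c → φ i ∈ Q (f c).1) ∧ (par i ≠ par c → φ i ∈ Q (f c).2) ∧
        (i ≠ c → G.Adj (φ (p i)) (φ i)) ∧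
        (par i = par c → (d₀ - er) * #R ≤ (#{u ∈ R | G.Adj (φ i) u} : ℝ))) ∧
      Set.InjOn φ (Rt.biUnion X) := by
  classical
  induction Rt using Finset.induction_on with
  | empty =>
    intro P Q hP hQ hPQ _ _ _ _ _ hcQ
    -- the graph has a vertex unless there is nothing to embed
    by_cases hV : Nonempty V
    · obtain ⟨v⟩ := hV
      exact ⟨fun _ => v, by simp, by simp⟩
    · exfalso
      have hem : IsEmpty V := not_nonempty_iff.1 hV
      have h1 : #R = 0 := by simp [Finset.eq_empty_of_isEmpty R]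
      rw [h1] at hRc
      have : 0 < er * ((n : ℝ) + 1) := by positivity
      simp at hRc
      linarith
  | insert c Rt hc ih =>
    intro P Q hP hQ hPQ hX hdis hXL hf hcP hcQ
    have hcm : c ∈ insert c Rt := mem_insert_self _ _
    obtain ⟨hcX, hXc⟩ := hX c hcm
    obtain ⟨hw1, hw2⟩ := hf c hcm
    have hPc := hcP c hcm
    have hcnt : 1 ≤ #{c' ∈ insert c Rt | (f c').1 = (f c).1} := by
      apply Finset.card_pos.2
      exact ⟨c, by simp⟩
    have hKQ : ∀ E, K ≤ #(Q E) := fun E => (Nat.le_add_left _ _).trans (hcQ E)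
    have h0 : 0 < er * ((n : ℝ) + 1) := by positivity
    obtain ⟨φ₁, a1, a2, a3, a4, a5, a6⟩ := shrub_embed S (X c) c p par hcX
      (fun i hi hic => ⟨(hXc i hi hic).1, (hXc i hi hic).2.1⟩)
      (fun i hi hic => (hXc i hi hic).2.2) (f c).1 (f c).2 A hw1 hw2 (P (f c).1) (Q (f c).1)
      (Q (f c).2) R (hP _) (hQ _) (hQ _) hR her hed K
      (by
        have : K + 1 ≤ #(P (f c).1) := by omega
        have h2 : (K : ℝ) + 1 ≤ #(P (f c).1) := by exact_mod_cast this
        linarith) (hKQ _) (hKQ _) (by linarith) hRc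
      (by
        have : (#(X c) : ℝ) ≤ L := by exact_mod_cast hXL c hcm
        linarith)
    -- where the images are
    have himP : ∀ E, ∀ i ∈ X c, φ₁ i ∈ P E → i = c ∧ E = (f c).1 := by
      intro E i hi hiP
      have hcl : ∀ E', φ₁ i ∈ S.cl E' → E' = E := by
        intro E' h'
        by_contra hne
        exact Finset.disjoint_left.1 (S.disj E' E hne) h' (hP E hiP)
      by_cases hic : i = c
      · subst hic
        exact ⟨rfl, (hcl _ (hP _ a1)).symm⟩
      · exfalso
        by_cases hpi : par i = par c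
        · have hq := a2 i hi hic hpi
          have := hcl _ (hQ _ hq)
          rw [this] at hq
          exact Finset.disjoint_left.1 (hPQ E) hiP hq
        · have hq := a3 i hi hpi
          have := hcl _ (hQ _ hq)
          rw [this] at hq
          exact Finset.disjoint_left.1 (hPQ E) hiP hq
    have himQ : ∀ E, ∀ i ∈ X c, φ₁ i ∈ Q E →
        (par i = par c ∧ i ≠ c ∧ (f c).1 = E) ∨ (par i ≠ par c ∧ (f c).2 = E) := by
      intro E i hi hiQ
      have hcl : ∀ E', φ₁ i ∈ S.cl E' → E' = E := by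
        intro E' h'
        by_contra hne
        exact Finset.disjoint_left.1 (S.disj E' E hne) h' (hQ E hiQ)
      by_cases hpi : par i = par c
      · left
        have hic : i ≠ c := by
          rintro rfl
          have := hcl _ (hP _ a1)
          rw [this] at a1
          exact Finset.disjoint_left.1 (hPQ E) a1 hiQ
        exact ⟨hpi, hic, hcl _ (hQ _ (a2 i hi hic hpi))⟩
      · right
        exact ⟨hpi, hcl _ (hQ _ (a3 i hi hpi))⟩
    set I := (X c).image φ₁ with hI
    have hPc' : ∀ E, #(P E) ≤ #(P E \ I) + (if (f c).1 = E then 1 else 0) := by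
      intro E
      have h1 : #(P E ∩ I) ≤ (if (f c).1 = E then 1 else 0) := by
        split_ifs with h
        · apply Finset.card_le_one.2
          intro x hx y hy
          rw [mem_inter, hI, mem_image] at hx hy
          obtain ⟨hx1, i, hi, rfl⟩ := hx
          obtain ⟨hy1, j, hj, rfl⟩ := hy
          rw [(himP E i hi hx1).1, (himP E j hj hy1).1]
        · rw [Nat.le_zero, Finset.card_eq_zero, Finset.eq_empty_iff_forall_notMem]
          intro x hx
          rw [mem_inter, hI, mem_image] at hx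
          obtain ⟨hx1, i, hi, rfl⟩ := hx
          exact h (himP E i hi hx1).2.symm
      have h2 := Finset.card_sdiff_add_card_inter (P E) I
      omega
    have hQc' : ∀ E, #(Q E) ≤ #(Q E \ I) +
        ((if (f c).1 = E then #{i ∈ X c | par i = par c ∧ i ≠ c} else 0) +
          (if (f c).2 = E then #{i ∈ X c | par i ≠ par c} else 0)) := by
      intro E
      have h1 : #(Q E ∩ I) ≤ #{i ∈ X c | φ₁ i ∈ Q E} := by
        have : Q E ∩ I ⊆ {i ∈ X c | φ₁ i ∈ Q E}.image φ₁ := by
          intro x hx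
          rw [mem_inter, hI, mem_image] at hx
          obtain ⟨hx1, i, hi, rfl⟩ := hx
          rw [mem_image]
          exact ⟨i, by rw [mem_filter]; exact ⟨hi, hx1⟩, rfl⟩
        exact (card_le_card this).trans card_image_le
      have h3 : #{i ∈ X c | φ₁ i ∈ Q E} ≤
          (if (f c).1 = E then #{i ∈ X c | par i = par c ∧ i ≠ c} else 0) +
          (if (f c).2 = E then #{i ∈ X c | par i ≠ par c} else 0) := by
        have hsub : {i ∈ X c | φ₁ i ∈ Q E} ⊆
            (if (f c).1 = E then {i ∈ X c | par i = par c ∧ i ≠ c} else ∅) ∪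
            (if (f c).2 = E then {i ∈ X c | par i ≠ par c} else ∅) := by
          intro i hi
          rw [mem_filter] at hi
          rw [mem_union]
          rcases himQ E i hi.1 hi.2 with h | h
          · left
            rw [if_pos h.2.2, mem_filter]
            exact ⟨hi.1, h.1, h.2.1⟩
          · right
            rw [if_pos h.2, mem_filter]
            exact ⟨hi.1, h.1⟩
        refine (card_le_card hsub).trans ((card_union_le _ _).trans ?_)
        gcongr
        · split_ifs <;> simp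
        · split_ifs <;> simp
      have h2 := Finset.card_sdiff_add_card_inter (Q E) I
      omega
    obtain ⟨φ₂, b1, b2⟩ := ih (fun E => P E \ I) (fun E => Q E \ I)
      (fun E => sdiff_subset.trans (hP E)) (fun E => sdiff_subset.trans (hQ E))
      (fun E => (hPQ E).mono sdiff_subset sdiff_subset)
      (fun c' hc' => hX c' (mem_insert_of_mem hc'))
      (fun c' hc' c'' hc'' => hdis c' (mem_insert_of_mem hc') c'' (mem_insert_of_mem hc''))
      (fun c' hc' => hXL c' (mem_insert_of_mem hc'))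
      (fun c' hc' => hf c' (mem_insert_of_mem hc'))
      (by
        intro c' hc'
        have h1 := hcP c' (mem_insert_of_mem hc')
        have h2 := hPc' (f c').1
        rw [Finset.filter_insert] at h1
        by_cases h : (f c).1 = (f c').1
        · rw [if_pos h, card_insert_of_notMem (by simp [hc])] at h1
          rw [if_pos h] at h2
          omega
        · rw [if_neg h] at h1 h2
          omega)
      (by
        intro E
        have h1 := hcQ E
        have h2 := hQc' E
        rw [Finset.sum_insert hc] at h1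
        omega)
    -- combine
    have hni : ∀ c' ∈ Rt, ∀ i ∈ X c', i ∉ X c := by
      intro c' hc' i hi hi'
      have hne : c ≠ c' := fun h => hc (h ▸ hc')
      exact Finset.disjoint_left.1 (hdis c hcm c' (mem_insert_of_mem hc') hne) hi' hi
    have hout : ∀ c' ∈ Rt, ∀ i ∈ X c', φ₂ i ∉ I := by
      intro c' hc' i hi
      obtain ⟨e1, e2⟩ := b1 c' hc'
      by_cases hic : i = c'
      · subst hic
        exact (mem_sdiff.1 e1).2
      · by_cases hpi : par i = par c'
        · exact (mem_sdiff.1 ((e2 i hi).1 hic hpi)).2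
        · exact (mem_sdiff.1 ((e2 i hi).2.1 hpi)).2
    refine ⟨fun i => if i ∈ X c then φ₁ i else φ₂ i, ?_, ?_⟩
    · intro c' hc'
      rcases mem_insert.1 hc' with rfl | hc'
      · refine ⟨by simp only [if_pos hcX]; exact a1, ?_⟩
        intro i hi
        refine ⟨?_, ?_, ?_, ?_⟩
        · intro hic hpi
          simp only [if_pos hi]
          exact a2 i hi hic hpi
        · intro hpi
          simp only [if_pos hi]
          exact a3 i hi hpi
        · intro hic
          simp only [if_pos hi, if_pos (hXc i hi hic).1]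
          exact a5 i hi hic
        · intro hpi
          simp only [if_pos hi]
          exact a6 i hi hpi
      · obtain ⟨e1, e2⟩ := b1 c' hc'
        have hX' := hX c' (mem_insert_of_mem hc')
        refine ⟨by simp only [if_neg (hni c' hc' c' hX'.1)]; exact (mem_sdiff.1 e1).1, ?_⟩
        intro i hi
        obtain ⟨g1, g2, g3, g4⟩ := e2 i hi
        refine ⟨?_, ?_, ?_, ?_⟩
        · intro hic hpi
          simp only [if_neg (hni c' hc' i hi)]
          exact (mem_sdiff.1 (g1 hic hpi)).1
        · intro hpi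
          simp only [if_neg (hni c' hc' i hi)]
          exact (mem_sdiff.1 (g2 hpi)).1
        · intro hic
          simp only [if_neg (hni c' hc' i hi), if_neg (hni c' hc' (p i) (hX'.2 i hi hic).1)]
          exact g3 hic
        · intro hpi
          simp only [if_neg (hni c' hc' i hi)]
          exact g4 hpi
    · intro i hi j hj hij
      rw [mem_coe, mem_biUnion] at hi hj
      obtain ⟨c1, hc1, hi⟩ := hi
      obtain ⟨c2, hc2, hj⟩ := hj
      simp only at hij
      by_cases hiX : i ∈ X c <;> by_cases hjX : j ∈ X c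
      · rw [if_pos hiX, if_pos hjX] at hij
        exact a4 hiX hjX hij
      · exfalso
        rw [if_pos hiX, if_neg hjX] at hij
        rcases mem_insert.1 hc2 with rfl | hc2
        · exact hjX hj
        · apply hout c2 hc2 j hj
          rw [← hij, hI]
          exact mem_image_of_mem _ hiX
      · exfalso
        rw [if_neg hiX, if_pos hjX] at hij
        rcases mem_insert.1 hc1 with rfl | hc1
        · exact hiX hi
        · apply hout c1 hc1 i hi
          rw [hij, hI]
          exact mem_image_of_mem _ hjX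
      · rw [if_neg hiX, if_neg hjX] at hij
        rcases mem_insert.1 hc1 with rfl | hc1
        · exact absurd hi hiX
        rcases mem_insert.1 hc2 with rfl | hc2
        · exact absurd hj hjX
        exact b2 (mem_coe.2 (mem_biUnion.2 ⟨c1, hc1, hi⟩)) (mem_coe.2 (mem_biUnion.2 ⟨c2, hc2, hj⟩)) hij

end Pool.Agent.DenseTree
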