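import Pool.Agent.DenseTree_dd15.Defs
import Pool.Agent.DenseTree_dd15.Final

/-!
# The upper bound for multicolour Ramsey numbers of trees
-/

set_option autoImplicit false

namespace Pool.Agent.DenseTree

open Finset

/-- The graph of colour `i`. -/
def colourGraph {r k : ℕ} (c : Sym2 (Fin r) → Fin k) (i : Fin k) : SimpleGraph (Fin r) where
  Adj x y := x ≠ y ∧ c s(x, y) = i
  symm.symm x y := by
    rintro ⟨h1, h2⟩
    exact ⟨h1.symm, by rw [Sym2.eq_swap]; exact h2⟩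
  loopless.irrefl x h := h.1 rfl

instance {r k : ℕ} (c : Sym2 (Fin r) → Fin k) (i : Fin k) :
    DecidableRel (colourGraph c i).Adj := fun x y =>
  inferInstanceAs (Decidable (x ≠ y ∧ c s(x, y) = i))

lemma exists_colour {r k : ℕ} (hk : 0 < k) (c : Sym2 (Fin r) → Fin k) :
    ∃ i, r.choose 2 ≤ k * #(colourGraph c i).edgeFinset := by
  by_contra hcon
  push Not at hcon
  have h1 : ∀ i, (colourGraph c i).edgeFinset =
      {e ∈ (⊤ : SimpleGraph (Fin r)).edgeFinset | c e = i} := by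
    intro i
    ext e
    induction e using Sym2.ind with
    | _ x y =>
      simp only [SimpleGraph.mem_edgeFinset, SimpleGraph.mem_edgeSet, colourGraph, mem_filter,
        SimpleGraph.top_adj]
  have h2 : #(⊤ : SimpleGraph (Fin r)).edgeFinset = r.choose 2 := by
    rw [SimpleGraph.card_edgeFinset_top_eq_card_choose_two, Fintype.card_fin]
  have h3 : #(⊤ : SimpleGraph (Fin r)).edgeFinset = ∑ i : Fin k, #(colourGraph c i).edgeFinset := by
    rw [Finset.card_eq_sum_card_fiberwise (f := c) (t := univ) (fun _ _ => mem_coe.2 (mem_univ _))]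
    exact Finset.sum_congr rfl fun i _ => by rw [h1 i]
  have hne : (univ : Finset (Fin k)).Nonempty := ⟨⟨0, hk⟩, mem_univ _⟩
  have h4 : ∑ i : Fin k, k * #(colourGraph c i).edgeFinset < ∑ _i : Fin k, r.choose 2 :=
    Finset.sum_lt_sum_of_nonempty hne fun i _ => hcon i
  rw [← Finset.mul_sum, ← h3, h2, Finset.sum_const, card_univ, Fintype.card_fin, smul_eq_mul] at h4
  exact lt_irrefl _ h4

theorem ramsey_tree_bound (k : ℕ) (hk : 1 ≤ k) (ε : ℝ) (hε : 0 < ε) :
    ∃ m₀ : ℕ, ∀ m : ℕ, m₀ ≤ m → ∀ T : SimpleGraph (Fin m), T.IsTree →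
      ∃ r : ℕ, Arrows r k T ∧ (r : ℝ) ≤ (1 + ε) * k * m := by
  classical
  obtain ⟨m₀, hm₀⟩ := dense_erdos_sos (ε / 2) ((1 + ε) * k) (by positivity)
  refine ⟨max m₀ (⌈4 / ε⌉₊ + 1), ?_⟩
  intro m hm T hT
  have hkr : (1 : ℝ) ≤ k := by exact_mod_cast hk
  have hm1 : m₀ ≤ m := (le_max_left _ _).trans hm
  have hm2 : ⌈4 / ε⌉₊ + 1 ≤ m := (le_max_right _ _).trans hm
  have hm3 : 4 / ε + 1 ≤ m := by
    have h1 : 4 / ε ≤ ⌈4 / ε⌉₊ := Nat.le_ceil _
    have h2 : ((⌈4 / ε⌉₊ : ℕ) : ℝ) + 1 ≤ m := by exact_mod_cast hm2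
    linarith
  have h4ε : 0 < 4 / ε := by positivity
  have hm4 : 4 ≤ ε * m := by
    have h1 : 4 / ε ≤ m := by linarith
    rw [div_le_iff₀ hε] at h1
    linarith
  have hmpos : (1 : ℝ) ≤ m := by linarith
  obtain ⟨r, hr⟩ : ∃ r : ℕ, r = ⌊(1 + ε) * k * m⌋₊ := ⟨_, rfl⟩
  have hrle : (r : ℝ) ≤ (1 + ε) * k * m := by rw [hr]; exact Nat.floor_le (by positivity)
  have hrge : (1 + ε) * k * m < r + 1 := by rw [hr]; exact Nat.lt_floor_add_one _
  refine ⟨r, ?_, hrle⟩
  intro c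
  have hkm : (m : ℝ) ≤ k * m := by
    have : (1 : ℝ) * m ≤ k * m := by gcongr
    linarith
  have hεkm : ε * m ≤ ε * (k * m) := by gcongr
  have hr1 : (1 + ε / 2) * (k * m) ≤ r - 1 := by nlinarith
  have hr0 : (0 : ℝ) < r := by
    have : 0 < (1 + ε / 2) * (k * m) := by positivity
    linarith
  have hr0' : 0 < r := by exact_mod_cast hr0
  have hne : Nonempty (Fin r) := ⟨⟨0, hr0'⟩⟩
  obtain ⟨i, hi⟩ := exists_colour (by omega) c
  have hcount : (1 + ε / 2) * m * Fintype.card (Fin r) ≤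
      2 * (#(colourGraph c i).edgeFinset : ℝ) := by
    rw [Fintype.card_fin]
    have h1 : (r : ℝ) * (r - 1) = 2 * (r.choose 2 : ℕ) := by
      rw [Nat.cast_choose_two]
      ring
    have h2 : ((r.choose 2 : ℕ) : ℝ) ≤ k * (#(colourGraph c i).edgeFinset : ℝ) := by
      exact_mod_cast hi
    have h3 : k * ((1 + ε / 2) * m * r) ≤ k * (2 * (#(colourGraph c i).edgeFinset : ℝ)) := by
      calc k * ((1 + ε / 2) * m * r) = ((1 + ε / 2) * (k * m)) * r := by ring
        _ ≤ (r - 1) * r := by gcongr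
        _ = 2 * (r.choose 2 : ℕ) := by rw [← h1]; ring
        _ ≤ 2 * (k * (#(colourGraph c i).edgeFinset : ℝ)) := by gcongr
        _ = k * (2 * (#(colourGraph c i).edgeFinset : ℝ)) := by ring
    exact le_of_mul_le_mul_left h3 (by linarith)
  obtain ⟨f, hf1, hf2⟩ := hm₀ m hm1 (Fin r) (colourGraph c i)
    (by rw [Fintype.card_fin]; exact hrle) hcount (Fin m) T hT (Fintype.card_fin m)
  exact ⟨i, f, hf1, fun x y hxy => (hf2 x y hxy).2⟩

end Pool.Agent.DenseTree
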