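import Pool.Agent.DenseTree_dd15.Main

/-!
# The phase of one seed
-/

set_option autoImplicit false
set_option linter.unusedSectionVars false

namespace Pool.Agent.DenseTree

open Finset

variable {V : Type*} [Fintype V] [DecidableEq V] {G : SimpleGraph V} [DecidableRel G.Adj]
  {M n : ℕ} {er d₀ : ℝ}

lemma sd_adj_all {S : Sys G M n er d₀} {sd : Bool → Fin M} (h : 0 < S.w (sd true) (sd false))
    (b : Bool) : 0 < S.w (sd b) (sd (!b)) := by
  cases b
  · rw [S.symm]; exact h
  · exact h

lemma card_cl_sdiff {S : Sys G M n er d₀} {sd : Bool → Fin M} {Rs : Bool → Finset V} {Rn : ℕ}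
    (hw : 0 < S.w (sd true) (sd false)) (hsub : ∀ b, Rs b ⊆ S.cl (sd b))
    (hcard : ∀ b, #(Rs b) = Rn) (E : Fin M) (F : Finset V) :
    n ≤ #(S.cl E \ (Rs true ∪ Rs false ∪ F)) + Rn + #F := by
  have hne : sd true ≠ sd false := by
    intro h
    rw [h, S.diag] at hw
    exact lt_irrefl _ hw
  have h1 : #(S.cl E ∩ (Rs true ∪ Rs false)) ≤ Rn := by
    have key : ∀ b, sd b ≠ E → S.cl E ∩ Rs b = ∅ := by
      intro b hb
      rw [← Finset.disjoint_iff_inter_eq_empty]
      exact (S.disj E (sd b) hb.symm).mono_right (hsub b)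
    rw [Finset.inter_union_distrib_left]
    by_cases hE : sd true = E
    · have hf : sd false ≠ E := fun h => hne (hE.trans h.symm)
      rw [key false hf, Finset.union_empty]
      exact (card_le_card inter_subset_right).trans (hcard true).le
    · rw [key true hE, Finset.empty_union]
      exact (card_le_card inter_subset_right).trans (hcard false).le
  have h2 : #(S.cl E) ≤ #(S.cl E \ (Rs true ∪ Rs false ∪ F)) +
      #(S.cl E ∩ (Rs true ∪ Rs false)) + #F := by
    have h3 := Finset.card_sdiff_add_card_inter (S.cl E) (Rs true ∪ Rs false ∪ F)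
    have h4 : #(S.cl E ∩ (Rs true ∪ Rs false ∪ F)) ≤ #(S.cl E ∩ (Rs true ∪ Rs false)) + #F := by
      rw [Finset.inter_union_distrib_left]
      refine (card_union_le _ _).trans ?_
      gcongr
      exact inter_subset_right
    omega
  have h5 := S.card_lo E
  omega

lemma abs_le_of_sum_sq {M : ℕ} {D : Fin M → ℝ} {Δ : ℝ} (hΔ : 0 ≤ Δ)
    (h : ∑ E, D E ^ 2 ≤ Δ ^ 2) (E : Fin M) : D E ≤ Δ := by
  have h1 : D E ^ 2 ≤ ∑ E, D E ^ 2 :=
    Finset.single_le_sum (f := fun E => D E ^ 2) (fun i _ => sq_nonneg _) (mem_univ E)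
  exact (abs_le_of_sq_le_sq' (h1.trans h) hΔ).2

theorem St.step {S : Sys G M n er d₀} {m L : ℕ} {p : ℕ → ℕ} {W : Finset ℕ} {anc root : ℕ → ℕ}
    {par : ℕ → Bool} {sd : Bool → Fin M} {Rs : Bool → Finset V} {Rn K : ℕ} {σ Δ Ymax s₁ : ℝ}
    {k : ℕ} {φ : ℕ → V} {D : Fin M → ℝ} (T : TD m L p W anc root par)
    (N : Num S m L p W root par sd Rs Rn K σ Δ Ymax s₁) (hk : k ∈ W) (hkm : k < m)
    (h : St S m p W anc root par sd Rs Rn σ k φ D) :
    ∃ φ' D', St S m p W anc root par sd Rs Rn σ (k + 1) φ' D' := by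
  classical
  set A := sd (par k) with hA
  set B := sd (!par k) with hB
  have hAB : 0 < S.w A B := sd_adj_all N.sd_adj _
  have her := N.er_pos
  have hn0 : 0 < er * ((n : ℝ) + 1) := by positivity
  have hd1 : d₀ ≤ 1 := (S.dense _ _ hAB).trans (S.le_one _ _)
  -- candidates for the position of `k`
  obtain ⟨S₀, hS₀R, hS₀c, hS₀a⟩ : ∃ S₀ ⊆ Rs (par k), (d₀ - er) * Rn ≤ #S₀ ∧
      ∀ v ∈ S₀, 0 < k → G.Adj (φ (p k)) v := by
    rcases Nat.eq_zero_or_pos k with h0 | h0
    · refine ⟨Rs (par k), Subset.rfl, ?_, fun v _ hpos => absurd hpos (by omega)⟩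
      rw [N.Rs_card]
      have : (0 : ℝ) ≤ Rn := by positivity
      nlinarith
    · have hp := T.p_lt k h0
      have hpar := T.par_ne k h0
      refine ⟨{v ∈ Rs (par k) | G.Adj (φ (p k)) v}, filter_subset _ _, ?_,
        fun v hv _ => (mem_filter.1 hv).2⟩
      by_cases hpW : p k ∈ W
      · have := h.seedR' (p k) hpW (by omega) hp
        have e : (!par (p k)) = par k := by
          revert hpar; cases par k <;> cases par (p k) <;> simp
        rwa [e] at this
      · have e := (T.seed k hk (by omega)).resolve_left hpW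
        have := h.oddR (p k) (by omega) hpW (by have := T.anc_le (p k); omega)
          (by rw [← e]; exact hpar.symm)
        rwa [← e] at this
  -- the unused parts of the clusters
  set old : Fin M → Finset ℕ := fun E => {i ∈ range m | i ∉ W ∧ anc i < k ∧ φ i ∈ S.cl E} with hold
  set U : Fin M → Finset V := fun E =>
    S.cl E \ (Rs true ∪ Rs false ∪ (old E).image φ) with hU
  have hUcl : ∀ E, U E ⊆ S.cl E := fun E => sdiff_subset
  have hdevk : ∑ E, D E ^ 2 ≤ Δ ^ 2 := by
    refine h.dev.trans (le_trans ?_ N.dev)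
    exact Finset.sum_le_sum_of_subset_of_nonneg (rtsLt_le_m T k) fun c _ _ => by positivity
  have hDΔ : ∀ E, D E ≤ Δ := abs_le_of_sum_sq N.Δ_nonneg hdevk
  have hUc : ∀ E, (n : ℝ) - Rn - ((1 + σ) * Yk m W p root par S.w sd k + D E) ≤ #(U E) := by
    intro E
    have h1 := card_cl_sdiff N.sd_adj N.Rs_sub N.Rs_card E ((old E).image φ)
    have h2 : #((old E).image φ) ≤ #(old E) := card_image_le
    have h3 := h.used E
    have h4 : (n : ℝ) ≤ #(U E) + Rn + #(old E) := by
      have : n ≤ #(U E) + Rn + #(old E) := by simp only [hU]; omega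
      exact_mod_cast this
    simp only [hold] at h4
    linarith
  have hσ := N.σ_nonneg
  have hYk : (1 + σ) * Yk m W p root par S.w sd k ≤ (1 + σ) * Yk m W p root par S.w sd (k + 1) :=
    mul_le_mul_of_nonneg_left (Yk_mono S (Nat.le_succ k)) (by linarith)
  have hYk1 : (1 + σ) * Yk m W p root par S.w sd (k + 1) ≤ Ymax := by
    refine le_trans (mul_le_mul_of_nonneg_left ?_ (by linarith)) N.hY
    unfold Yk
    refine Finset.sum_le_sum_of_subset_of_nonneg (rtsLt_le_m T _) fun c _ _ => ?_
    exact cost_nonneg S _ (by positivity) (by positivity)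
  have h2K := N.h3
  have hKe := N.hK
  have hU' : ∀ E, er * ((n : ℝ) + 1) ≤ #(U E) := by
    intro E
    have h1 := hUc E
    have h2 := hDΔ E
    linarith
  -- the position of `k`
  have hs : s₁ + #((W.filter (· < k)).image φ) + er * ((n : ℝ) + 1) ≤ #S₀ := by
    have h1 : #((W.filter (· < k)).image φ) ≤ #W := card_image_le.trans (card_filter_le _ _)
    have h2 : (#((W.filter (· < k)).image φ) : ℝ) ≤ #W := by exact_mod_cast h1
    have h3 := N.seeds
    linarith
  obtain ⟨a, haS, haF, haB, Bad, hBad, haE⟩ := seed_choice S A B hAB her S₀ (Rs (!par k))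
    ((W.filter (· < k)).image φ) (hS₀R.trans (N.Rs_sub _)) (N.Rs_sub _)
    (by rw [N.Rs_card]; exact N.Rn_ge) U hUcl hU' s₁ N.s₁_pos hs
  rw [N.Rs_card] at haB
  have haR : a ∈ Rs (par k) := hS₀R haS
  -- the plan
  have hdegA : 0 < ∑ j, S.w A j :=
    hAB.trans_le (Finset.single_le_sum (f := fun j => S.w A j) (fun j _ => S.nonneg A j)
      (mem_univ B))
  have hbadineq : ∑ j, S.w A j ≤ (1 + σ) * ((∑ j, S.w A j) - #Bad) := by
    have h1 := N.bad (par k)
    have h2 : (#Bad : ℝ) * s₁ * (1 + σ) ≤ σ * (∑ j, S.w A j) * s₁ := by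
      refine le_trans (mul_le_mul_of_nonneg_right hBad (by linarith)) h1
    have h3 : (#Bad : ℝ) * (1 + σ) ≤ σ * ∑ j, S.w A j := by
      by_contra hcon
      push Not at hcon
      have := mul_lt_mul_of_pos_right hcon N.s₁_pos
      linarith
    linarith
  obtain ⟨f, D', r, hf, hDr, hload, hroots⟩ := plan S.w S.nonneg S.le_one S.symm A hdegA Bad σ
    hσ hbadineq (rts m W p k) (fun c => (oc m W root par c : ℝ))
    (fun c => (ec m W root par c : ℝ))
    (by
      intro c hc
      obtain ⟨h1, h2, h3, h4, h5, h6⟩ := T.rts_iff hk hc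
      have : 0 < oc m W root par c := card_pos.2 ⟨c, by simp [h5]⟩
      show (1 : ℝ) ≤ (oc m W root par c : ℝ)
      exact_mod_cast this)
    (by intro c; positivity) D
  have hcostsum : ∑ c ∈ rts m W p k, ((oc m W root par c : ℝ) * (1 / ∑ j, S.w A j) +
      (ec m W root par c : ℝ) * ∑ k, S.w A k / ((∑ j, S.w A j) * ∑ j, S.w k j)) =
      Yk m W p root par S.w sd (k + 1) - Yk m W p root par S.w sd k := by
    unfold Yk
    rw [rtsLt_succ hk, add_sub_cancel_left]
    refine Finset.sum_congr rfl fun c hc => ?_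
    rw [(T.rts_iff hk hc).2.2.1]
    rfl
  rw [hcostsum] at hload
  have hdev' : ∑ E, D' E ^ 2 + ∑ E, r E ^ 2 ≤
      ∑ c ∈ rtsLt m W p (k + 1), 2 * ((#(shrub m W root c) : ℝ)) ^ 2 := by
    rw [rtsLt_succ hk]
    refine hDr.trans (add_le_add h.dev (le_of_eq ?_))
    refine Finset.sum_congr rfl fun c _ => ?_
    rw [← oc_add_ec m W root par c]
    push_cast
    rfl
  have hdevΔ : ∑ E, D' E ^ 2 + ∑ E, r E ^ 2 ≤ Δ ^ 2 := by
    refine hdev'.trans (le_trans ?_ N.dev)
    exact Finset.sum_le_sum_of_subset_of_nonneg (rtsLt_le_m T _) fun c _ _ => by positivity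
  have hD'Δ : ∀ E, D' E ≤ Δ := abs_le_of_sum_sq N.Δ_nonneg (by
    have : 0 ≤ ∑ E, r E ^ 2 := Finset.sum_nonneg fun E _ => sq_nonneg _
    linarith)
  have hrΔ : ∀ E, r E ≤ Δ := abs_le_of_sum_sq N.Δ_nonneg (by
    have : 0 ≤ ∑ E, D' E ^ 2 := Finset.sum_nonneg fun E _ => sq_nonneg _
    linarith)
  -- numbers of roots
  set rc : Fin M → ℕ := fun E => #{c ∈ rts m W p k | (f c).1 = E} with hrc
  have hrcast : ∀ E, (rc E : ℝ) = ∑ c ∈ rts m W p k, (if (f c).1 = E then (1 : ℝ) else 0) := by
    intro E
    simp only [hrc]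
    rw [Finset.card_filter]
    push_cast
    rfl
  have hRtY : (#(rts m W p k) : ℝ) * (1 / ∑ j, S.w A j) ≤
      Yk m W p root par S.w sd (k + 1) - Yk m W p root par S.w sd k := by
    rw [← hcostsum, ← nsmul_eq_mul, ← Finset.sum_const]
    refine Finset.sum_le_sum fun c hc => ?_
    obtain ⟨h1, h2, h3, h4, h5, h6⟩ := T.rts_iff hk hc
    have h7 : 0 < oc m W root par c := card_pos.2 ⟨c, by simp [h5]⟩
    have h8 : (1 : ℝ) ≤ (oc m W root par c : ℝ) := by exact_mod_cast h7
    have h9 : 0 ≤ 1 / ∑ j, S.w A j := by positivity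
    have h10 : 0 ≤ ∑ k, S.w A k / ((∑ j, S.w A j) * ∑ j, S.w k j) :=
      Finset.sum_nonneg fun k _ => div_nonneg (S.nonneg _ _)
        (mul_nonneg hdegA.le (Finset.sum_nonneg fun j _ => S.nonneg _ _))
    have h11 : 0 ≤ (ec m W root par c : ℝ) *
        ∑ k, S.w A k / ((∑ j, S.w A j) * ∑ j, S.w k j) := by positivity
    nlinarith
  have hroot : ∀ E, E ∉ Bad → 0 < S.w A E → rc E + K ≤ #{u ∈ U E | G.Adj a u} := by
    intro E hE hw
    have h1 := haE E hE hw
    have h2 := hroots E
    have h3 := hrΔ E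
    have h4 := hUc E
    have h5 := hDΔ E
    have h6 := S.dense A E hw
    have h7 : (#(U E) : ℝ) ≤ n + 1 := by
      have : #(U E) ≤ n + 1 := (card_le_card (hUcl E)).trans (S.card_hi E)
      exact_mod_cast this
    have h8 := N.h2
    rw [← hrcast] at h2
    have h9 : (#(rts m W p k) : ℝ) * ((1 + σ) * (S.w A E / ∑ j, S.w A j)) ≤
        S.w A E * ((1 + σ) * (Yk m W p root par S.w sd (k + 1) -
          Yk m W p root par S.w sd k)) := by
      calc (#(rts m W p k) : ℝ) * ((1 + σ) * (S.w A E / ∑ j, S.w A j))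
          = S.w A E * ((1 + σ) * ((#(rts m W p k) : ℝ) * (1 / ∑ j, S.w A j))) := by ring
        _ ≤ _ := by gcongr
    have h10 : S.w A E * ((n : ℝ) - Rn - (1 + σ) * Yk m W p root par S.w sd k - Δ) -
        er * ((n : ℝ) + 1) ≤ (S.w A E - er) * #(U E) := by
      have e1 : S.w A E * ((n : ℝ) - Rn - (1 + σ) * Yk m W p root par S.w sd k - Δ) ≤
          S.w A E * #(U E) := mul_le_mul_of_nonneg_left (by linarith) hw.le
      have e2 : er * #(U E) ≤ er * ((n : ℝ) + 1) := mul_le_mul_of_nonneg_left h7 her.le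
      linarith
    have h11 : d₀ * (n - Rn - Δ - Ymax) ≤ S.w A E * (n - Rn - Δ - Ymax) := by
      refine mul_le_mul_of_nonneg_right h6 ?_
      linarith
    have h12 : S.w A E * ((1 + σ) * Yk m W p root par S.w sd (k + 1)) ≤ S.w A E * Ymax :=
      mul_le_mul_of_nonneg_left hYk1 hw.le
    have h13 : ((rc E : ℝ) + K) ≤ #{u ∈ U E | G.Adj a u} := by
      nlinarith
    exact_mod_cast h13
  have hPex : ∀ E, ∃ P ⊆ {u ∈ U E | G.Adj a u}, #P ≤ rc E + K ∧
      (E ∉ Bad → 0 < S.w A E → #P = rc E + K) := by
    intro E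
    by_cases hE : E ∉ Bad ∧ 0 < S.w A E
    · obtain ⟨P, hP1, hP2⟩ := Finset.exists_subset_card_eq (hroot E hE.1 hE.2)
      exact ⟨P, hP1, hP2.le, fun _ _ => hP2⟩
    · exact ⟨∅, empty_subset _, by simp, fun h1 h2 => absurd ⟨h1, h2⟩ hE⟩
  choose P hPsub hPle hPeq using hPex
  have hPU : ∀ E, P E ⊆ U E := fun E => (hPsub E).trans (filter_subset _ _)
  set Q : Fin M → Finset V := fun E => U E \ P E with hQ
  -- embed the shrubs
  have hw1 : ∀ c ∈ rts m W p k, 0 < S.w (f c).1 A := by
    intro c hc
    rw [S.symm]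
    exact (hf c hc).2.1
  obtain ⟨φ₂, hφ₂, hφ₂inj⟩ := phase_embed S p par A (Rs (par k)) (N.Rs_sub _) her N.er_le K L
    N.hK (by rw [N.Rs_card]; exact N.Rn_ge) N.hL (shrub m W root) f (rts m W p k) P Q
    (fun E => (hPU E).trans (hUcl E)) (fun E => sdiff_subset.trans (hUcl E))
    (fun E => disjoint_sdiff)
    (fun c hc => ⟨(T.rts_iff hk hc).2.2.2.2.1, fun i hi hic => T.shrub_tree hi hic⟩)
    (by
      intro c hc c' hc' hne
      rw [Finset.disjoint_left]
      intro i hi hi'
      rw [TD.shrub_iff] at hi hi'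
      exact hne (hi.2.2.symm.trans hi'.2.2))
    (fun c _ => T.small c)
    (fun c hc => ⟨(hf c hc).2.2, hw1 c hc⟩)
    (by
      intro c hc
      rw [hPeq (f c).1 (hf c hc).1 (hf c hc).2.1])
    (by
      intro E
      have h1 := hload E
      have h2 := hD'Δ E
      have h3 := hUc E
      have h4 := hPle E
      have h5 : #(U E) = #(Q E) + #(P E) := by
        rw [hQ]
        simp only
        rw [Finset.card_sdiff_of_subset (hPU E)]
        have := card_le_card (hPU E)
        omega
      have h6 : ∑ c ∈ rts m W p k,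
          ((if (f c).1 = E then #{i ∈ shrub m W root c | par i = par c ∧ i ≠ c} else 0) +
          (if (f c).2 = E then #{i ∈ shrub m W root c | par i ≠ par c} else 0)) + rc E ≤
          ∑ c ∈ rts m W p k, ((if (f c).1 = E then oc m W root par c else 0) +
            (if (f c).2 = E then ec m W root par c else 0)) := by
        rw [hrc]
        simp only
        rw [Finset.card_filter, ← Finset.sum_add_distrib]
        refine Finset.sum_le_sum fun c hc => ?_
        obtain ⟨g1, g2, g3, g4, g5, g6⟩ := T.rts_iff hk hc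
        have g7 : #{i ∈ shrub m W root c | par i = par c ∧ i ≠ c} + 1 ≤ oc m W root par c := by
          unfold oc
          have : insert c {i ∈ shrub m W root c | par i = par c ∧ i ≠ c} ⊆
              {i ∈ shrub m W root c | par i = par c} := by
            intro i hi
            rcases mem_insert.1 hi with rfl | hi
            · simp [g5]
            · simp only [mem_filter] at hi ⊢
              exact ⟨hi.1, hi.2.1⟩
          have h8 := card_le_card this
          rwa [card_insert_of_notMem (by simp)] at h8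
        have g8 : #{i ∈ shrub m W root c | par i ≠ par c} = ec m W root par c := rfl
        split_ifs <;> omega
      have h7 : (∑ c ∈ rts m W p k, ((if (f c).1 = E then (oc m W root par c : ℝ) else 0) +
            (if (f c).2 = E then (ec m W root par c : ℝ) else 0))) + 2 * K ≤
          (#(U E) : ℝ) := by
        linarith
      have h8 : ∑ c ∈ rts m W p k, ((if (f c).1 = E then oc m W root par c else 0) +
            (if (f c).2 = E then ec m W root par c else 0)) + 2 * K ≤ #(U E) := by
        have e : ((∑ c ∈ rts m W p k, ((if (f c).1 = E then oc m W root par c else 0) +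
            (if (f c).2 = E then ec m W root par c else 0)) : ℕ) : ℝ) =
            ∑ c ∈ rts m W p k, ((if (f c).1 = E then (oc m W root par c : ℝ) else 0) +
            (if (f c).2 = E then (ec m W root par c : ℝ) else 0)) := by
          push_cast
          rfl
        rw [← e] at h7
        exact_mod_cast h7
      omega)
  -- facts about the new images
  have hnew : ∀ i, i < m → i ∉ W → anc i = k →
      root i ∈ rts m W p k ∧ i ∈ shrub m W root (root i) := by
    intro i him hi hik
    exact ⟨hik ▸ T.mem_rts him hi, TD.mem_shrub him hi⟩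
  have hnewU : ∀ i, i < m → i ∉ W → anc i = k → ∃ E, φ₂ i ∈ U E ∧
      ((par i = par (root i) ∧ (f (root i)).1 = E) ∨
        (par i ≠ par (root i) ∧ (f (root i)).2 = E)) := by
    intro i him hi hik
    obtain ⟨h1, h2⟩ := hnew i him hi hik
    obtain ⟨h3, h4⟩ := hφ₂ _ h1
    obtain ⟨h5, h6, _, _⟩ := h4 i h2
    by_cases hir : i = root i
    · refine ⟨(f (root i)).1, ?_, Or.inl ⟨by rw [← hir], rfl⟩⟩
      rw [← hir] at h3 ⊢
      exact hPU _ h3
    · by_cases hpi : par i = par (root i)
      · exact ⟨_, (mem_sdiff.1 (h5 hir hpi)).1, Or.inl ⟨hpi, rfl⟩⟩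
      · exact ⟨_, (mem_sdiff.1 (h6 hpi)).1, Or.inr ⟨hpi, rfl⟩⟩
  have hnewR : ∀ i, i < m → i ∉ W → anc i = k → ∀ b, φ₂ i ∉ Rs b := by
    intro i him hi hik b hb
    obtain ⟨E, hE, _⟩ := hnewU i him hi hik
    simp only [hU, mem_sdiff, mem_union, not_or] at hE
    cases b
    · exact hE.2.1.2 hb
    · exact hE.2.1.1 hb
  have hnewold : ∀ i, i < m → i ∉ W → anc i = k → ∀ j, j < m → j ∉ W → anc j < k →
      φ₂ i ≠ φ j := by
    intro i him hi hik j hjm hj hjk heq
    obtain ⟨E, hE, _⟩ := hnewU i him hi hik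
    have hEcl := hUcl E hE
    simp only [hU, mem_sdiff, mem_union, not_or] at hE
    apply hE.2.2
    rw [heq]
    apply mem_image_of_mem
    simp only [hold, mem_filter, mem_range]
    exact ⟨hjm, hj, hjk, heq ▸ hEcl⟩
  set φ' : ℕ → V := fun i => if i = k then a else if anc i = k then φ₂ i else φ i with hφ'
  have hanck : anc k = k := T.anc_self k hk
  have hφk : φ' k = a := by simp [hφ']
  have hφnew : ∀ i, i ∉ W → anc i = k → φ' i = φ₂ i := by
    intro i hi hik
    have hne : i ≠ k := fun h => hi (h ▸ hk)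
    simp [hφ', hne, hik]
  have hφold : ∀ i, anc i < k → φ' i = φ i := by
    intro i hik
    have hne : i ≠ k := by
      rintro rfl
      omega
    have hne' : anc i ≠ k := by omega
    simp [hφ', hne, hne']
  have hWanc : ∀ i, i ∈ W → anc i = k → i = k := fun i hi hik => (T.anc_self i hi).symm.trans hik
  -- classification
  have hcls : ∀ i, anc i < k + 1 → i = k ∨ (i ∉ W ∧ anc i = k) ∨ anc i < k := by
    intro i hi
    by_cases h1 : anc i = k
    · by_cases h2 : i ∈ W
      · exact Or.inl (hWanc i h2 h1)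
      · exact Or.inr (Or.inl ⟨h2, h1⟩)
    · exact Or.inr (Or.inr (by omega))
  have haold : ∀ j, j < m → anc j < k → a ≠ φ j := by
    intro j hjm hjk heq
    by_cases hj : j ∈ W
    · apply haF
      rw [heq]
      apply mem_image_of_mem
      rw [mem_filter]
      refine ⟨hj, ?_⟩
      rwa [T.anc_self j hj] at hjk
    · exact h.avoid j hjm hj hjk (par k) (heq ▸ haR)
  have hanew : ∀ j, j < m → j ∉ W → anc j = k → a ≠ φ₂ j := by
    intro j hjm hj hjk heq
    exact hnewR j hjm hj hjk (par k) (heq ▸ haR)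
  refine ⟨φ', D', ?_, ?_, ?_, ?_, ?_, ?_, ?_, ?_⟩
  · -- injectivity
    rintro i ⟨him, hik⟩ j ⟨hjm, hjk⟩ hij
    rcases hcls i hik with rfl | ⟨hi1, hi2⟩ | hi1 <;> rcases hcls j hjk with hj1 | ⟨hj1, hj2⟩ | hj1
    · exact hj1.symm
    · rw [hφk, hφnew j hj1 hj2] at hij
      exact absurd hij (hanew j hjm hj1 hj2)
    · rw [hφk, hφold j hj1] at hij
      exact absurd hij (haold j hjm hj1)
    · rw [hj1, hφk, hφnew i hi1 hi2] at hij
      exact absurd hij.symm (hanew i him hi1 hi2)
    · rw [hφnew i hi1 hi2, hφnew j hj1 hj2] at hij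
      obtain ⟨e1, e2⟩ := hnew i him hi1 hi2
      obtain ⟨e3, e4⟩ := hnew j hjm hj1 hj2
      exact hφ₂inj (mem_coe.2 (mem_biUnion.2 ⟨_, e1, e2⟩)) (mem_coe.2 (mem_biUnion.2 ⟨_, e3, e4⟩))
        hij
    · rw [hφnew i hi1 hi2, hφold j hj1] at hij
      by_cases hj : j ∈ W
      · exfalso
        have h1 := h.seedR j hj hjm (by rwa [T.anc_self j hj] at hj1)
        exact hnewR i him hi1 hi2 _ (hij ▸ h1)
      · exact absurd hij (hnewold i him hi1 hi2 j hjm hj hj1)
    · rw [hj1, hφk, hφold i hi1] at hij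
      exact absurd hij.symm (haold i him hi1)
    · rw [hφnew j hj1 hj2, hφold i hi1] at hij
      by_cases hi : i ∈ W
      · exfalso
        have h1 := h.seedR i hi him (by rwa [T.anc_self i hi] at hi1)
        exact hnewR j hjm hj1 hj2 _ (hij ▸ h1)
      · exact absurd hij.symm (hnewold j hjm hj1 hj2 i him hi hi1)
    · rw [hφold i hi1, hφold j hj1] at hij
      exact h.inj ⟨him, hi1⟩ ⟨hjm, hj1⟩ hij
  · -- edges
    intro i him hi0 hik
    have hpi := T.p_lt i hi0
    rcases hcls i hik with rfl | ⟨hi1, hi2⟩ | hi1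
    · have hpk : anc (p i) < i := lt_of_le_of_lt (T.anc_le _) hpi
      rw [hφk, hφold _ hpk]
      exact hS₀a a haS hi0
    · obtain ⟨e1, e2⟩ := hnew i him hi1 hi2
      rw [hφnew i hi1 hi2]
      by_cases hir : i = root i
      · have hpk : p i = k := by
          have := (T.rts_iff hk e1).2.2.1
          rwa [← hir] at this
        rw [hpk, hφk]
        have h3 := (hφ₂ _ e1).1
        rw [← hir] at h3
        exact (mem_filter.1 (hPsub _ h3)).2
      · obtain ⟨g1, g2, g3⟩ := T.shrub_tree e2 hir
        rw [TD.shrub_iff] at g1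
        have g4 : anc (p i) = k := by
          rw [← T.anc_step i hi1]; exact hi2
        rw [hφnew (p i) g1.2.1 g4]
        exact ((hφ₂ _ e1).2 i e2).2.2.1 hir
    · have hpk : anc (p i) < k := by
        by_cases hi : i ∈ W
        · have e := T.anc_self i hi
          have := T.anc_le (p i)
          omega
        · rwa [T.anc_step i hi] at hi1
      rw [hφold i hi1, hφold _ hpk]
      exact h.adj i him hi0 hi1
  · -- non-seeds avoid the reserved sets
    intro i him hi hik b
    rcases hcls i hik with rfl | ⟨hi1, hi2⟩ | hi1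
    · exact absurd hk hi
    · rw [hφnew i hi1 hi2]
      exact hnewR i him hi1 hi2 b
    · rw [hφold i hi1]
      exact h.avoid i him hi hi1 b
  · -- seeds are in the reserved sets
    intro i hi him hik
    by_cases hik' : i = k
    · rw [hik', hφk]; exact haR
    · have h1 : anc i < k := by rw [T.anc_self i hi]; omega
      rw [hφold i h1]
      exact h.seedR i hi him (by omega)
  · -- vertices of odd level
    intro i him hi hik hpar
    rcases hcls i hik with rfl | ⟨hi1, hi2⟩ | hi1
    · exact absurd hk hi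
    · obtain ⟨e1, e2⟩ := hnew i him hi1 hi2
      rw [hφnew i hi1 hi2]
      rw [hi2] at hpar ⊢
      have hc := T.rts_iff hk e1
      have hpc := T.par_ne (root i) (T.pos_of_notMem hc.2.1)
      rw [hc.2.2.1] at hpc
      have hpi : par i = par (root i) := by
        revert hpar hpc
        cases par i <;> cases par (root i) <;> cases par k <;> simp
      have := ((hφ₂ _ e1).2 i e2).2.2.2 hpi
      rwa [N.Rs_card] at this
    · rw [hφold i hi1]
      exact h.oddR i him hi hi1 hpar
  · -- seeds see the other reserved set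
    intro i hi him hik
    by_cases hik' : i = k
    · rw [hik', hφk]; exact haB
    · have h1 : anc i < k := by rw [T.anc_self i hi]; omega
      rw [hφold i h1]
      exact h.seedR' i hi him (by omega)
  · -- the used parts of the clusters
    intro E
    have h1 : {i ∈ range m | i ∉ W ∧ anc i < k + 1 ∧ φ' i ∈ S.cl E} ⊆
        old E ∪ (rts m W p k).biUnion (fun c => {i ∈ shrub m W root c | φ₂ i ∈ S.cl E}) := by
      intro i hi
      simp only [mem_filter, mem_range] at hi
      obtain ⟨him, hi, hik, hiE⟩ := hi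
      rw [mem_union]
      rcases hcls i hik with rfl | ⟨hi1, hi2⟩ | hi1
      · exact absurd hk hi
      · right
        obtain ⟨e1, e2⟩ := hnew i him hi1 hi2
        rw [mem_biUnion]
        rw [hφnew i hi1 hi2] at hiE
        exact ⟨_, e1, mem_filter.2 ⟨e2, hiE⟩⟩
      · left
        rw [hφold i hi1] at hiE
        simp only [hold, mem_filter, mem_range]
        exact ⟨him, hi, hi1, hiE⟩
    have h2 : ∀ c ∈ rts m W p k, #{i ∈ shrub m W root c | φ₂ i ∈ S.cl E} ≤
        (if (f c).1 = E then oc m W root par c else 0) +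
        (if (f c).2 = E then ec m W root par c else 0) := by
      intro c hc
      have hsub : {i ∈ shrub m W root c | φ₂ i ∈ S.cl E} ⊆
          (if (f c).1 = E then {i ∈ shrub m W root c | par i = par c} else ∅) ∪
          (if (f c).2 = E then {i ∈ shrub m W root c | par i ≠ par c} else ∅) := by
        intro i hi
        rw [mem_filter] at hi
        obtain ⟨hi1, hi2⟩ := hi
        have hi3 := TD.shrub_iff.1 hi1
        have hik : anc i = k := by
          have := (T.root_props i hi3.2.1).2.2.1
          rw [hi3.2.2, (T.rts_iff hk hc).2.2.1] at this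
          exact this.symm
        obtain ⟨E', hE', hE''⟩ := hnewU i hi3.1 hi3.2.1 hik
        have hEE : E' = E := by
          by_contra hne
          exact Finset.disjoint_left.1 (S.disj E' E hne) (hUcl _ hE') hi2
        rw [hi3.2.2, hEE] at hE''
        rw [mem_union]
        rcases hE'' with h | h
        · left
          rw [if_pos h.2, mem_filter]
          exact ⟨hi1, h.1⟩
        · right
          rw [if_pos h.2, mem_filter]
          exact ⟨hi1, h.1⟩
      refine (card_le_card hsub).trans ((card_union_le _ _).trans ?_)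
      unfold oc ec
      gcongr
      · split_ifs <;> simp
      · split_ifs <;> simp
    have h3 : #{i ∈ range m | i ∉ W ∧ anc i < k + 1 ∧ φ' i ∈ S.cl E} ≤ #(old E) +
        ∑ c ∈ rts m W p k, ((if (f c).1 = E then oc m W root par c else 0) +
        (if (f c).2 = E then ec m W root par c else 0)) := by
      refine (card_le_card h1).trans ((card_union_le _ _).trans ?_)
      gcongr
      exact card_biUnion_le.trans (Finset.sum_le_sum h2)
    have h4 : (#{i ∈ range m | i ∉ W ∧ anc i < k + 1 ∧ φ' i ∈ S.cl E} : ℝ) ≤ #(old E) +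
        ∑ c ∈ rts m W p k, ((if (f c).1 = E then (oc m W root par c : ℝ) else 0) +
        (if (f c).2 = E then (ec m W root par c : ℝ) else 0)) := by
      have e : ((∑ c ∈ rts m W p k, ((if (f c).1 = E then oc m W root par c else 0) +
          (if (f c).2 = E then ec m W root par c else 0)) : ℕ) : ℝ) =
          ∑ c ∈ rts m W p k, ((if (f c).1 = E then (oc m W root par c : ℝ) else 0) +
          (if (f c).2 = E then (ec m W root par c : ℝ) else 0)) := by
        push_cast
        rfl
      rw [← e]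
      exact_mod_cast h3
    have h5 := h.used E
    have h6 := hload E
    simp only [hold] at h4
    linarith
  · have : 0 ≤ ∑ E, r E ^ 2 := Finset.sum_nonneg fun E _ => sq_nonneg _
    linarith

end Pool.Agent.DenseTree
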