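import Mathlib

/-!
# Cluster systems

The output of the regularity lemma which is used to embed trees.
-/

set_option autoImplicit false

namespace Pool.Agent.DenseTree

open Finset

variable {V : Type*} [Fintype V] [DecidableEq V]

/-- A regular cluster system in the graph `G`: `M` pairwise disjoint clusters of size `n` or
`n + 1`, with weights (densities) `w i j`; the pairs of positive weight have weight at least `d₀`
and are `er`-regular in the one-sided sense which is needed for embedding. -/
structure Sys (G : SimpleGraph V) [DecidableRel G.Adj] (M n : ℕ) (er d₀ : ℝ) where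
  cl : Fin M → Finset V
  w : Fin M → Fin M → ℝ
  disj : ∀ i j, i ≠ j → Disjoint (cl i) (cl j)
  card_lo : ∀ i, n ≤ #(cl i)
  card_hi : ∀ i, #(cl i) ≤ n + 1
  symm : ∀ i j, w i j = w j i
  nonneg : ∀ i j, 0 ≤ w i j
  le_one : ∀ i j, w i j ≤ 1
  diag : ∀ i, w i i = 0
  dense : ∀ i j, 0 < w i j → d₀ ≤ w i j
  reg : ∀ i j, 0 < w i j → ∀ S ⊆ cl j, er * ((n : ℝ) + 1) ≤ #S →
    (#{v ∈ cl i | (#{u ∈ S | G.Adj v u} : ℝ) < (w i j - er) * #S} : ℝ) ≤ er * ((n : ℝ) + 1)

end Pool.Agent.DenseTree
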