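import Pool.Agent.DenseTree_dd15.Defs
import Pool.Agent.DenseTree_dd15.Ramsey

/-!
# The k-colour Ramsey number of every tree on m vertices is at most (1 + o(1)) m k
-/

set_option autoImplicit false

namespace Pool.Agent.DenseTree.TreeRamseyUpperBound

open Pool.Agent.DenseTree

/-- For every `k ≥ 1` and `ε > 0` there is `m₀` such that every tree `T` on `m ≥ m₀` vertices has
`r(T; k) ≤ (1 + ε) k m`; the first conjunct says that the Ramsey number exists (the set of `r`
with the Ramsey property is not empty, so that its least element `ramseyNumber T k` has it). -/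
theorem ramseyUpperBound (k : ℕ) (hk : 1 ≤ k) (ε : ℝ) (hε : 0 < ε) :
    ∃ m₀ : ℕ, ∀ m : ℕ, m₀ ≤ m → ∀ T : SimpleGraph (Fin m), T.IsTree →
      Arrows (ramseyNumber T k) k T ∧ (ramseyNumber T k : ℝ) ≤ (1 + ε) * k * m := by
  obtain ⟨m₀, h⟩ := ramsey_tree_bound k hk ε hε
  refine ⟨m₀, fun m hm T hT => ?_⟩
  obtain ⟨r, hr1, hr2⟩ := h m hm T hT
  have hne : {r | Arrows r k T}.Nonempty := ⟨r, hr1⟩
  refine ⟨Nat.sInf_mem hne, ?_⟩
  have h1 : ramseyNumber T k ≤ r := Nat.sInf_le hr1
  have h2 : (ramseyNumber T k : ℝ) ≤ r := by exact_mod_cast h1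
  exact h2.trans hr2

end Pool.Agent.DenseTree.TreeRamseyUpperBound
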